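import Pool.Agent.H71.SZ.Def

/-! # SZ.Newton : the Newton polygon (about 200 lines, valuations only)

`v := V0.valuation`, `φ0 a ≠ 0` iff `v a = 1` for `a ∈ V0` (`φ0` local).  `nv i := ` the maximum of `v (cf t0 G i m)` over the (finite) support of `G` (in `V0.ValueGroup`, `0` if all vanish); `cf t0 G i m = 0` for `m ∉ G.support` and for `i` large.
For `l ≠ 0` let `mx l` be the maximum of `v l ^ i * nv i`; the indices where it is attained form the finite nonempty set `A l`; then `Edge V0 φ0 t0 G l (min A l) (max A l)` (`e` = the inverse of `l ^ i * cf t0 G i m` of maximal value): `edge_of`.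
Claim: for all `l ≠ 0` the index `j = min A l` is reached from `a`.  Strong induction on `j`.  `j = a`: clear.  `j > a`: for each `i < j` with `nv i ≠ 0` take `l_i` with `l_i ^ (j - i) = x_i / x_j`, `v x_i = nv i`, `v x_j = nv j`
(`IsAlgClosed.exists_pow_nat_eq`); let `l'` be the `l_i` of maximal valuation.  Then `v l' ^ i * nv i ≤ v l' ^ j * nv j` for all `i < j`, with equality for one; `v l' < v l` (since the inequality at `l` is strict for `i < j`), so
`v l' ^ i * nv i < v l' ^ j * nv j` for `i > j`.  So `max A l' = j`, `min A l' < j`; use the induction hypothesis and the edge of `l'`.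
At the end take `l` with `v l` so large that `A l = {b}` (for each `i < b` with `nv i ≠ 0` a bound; if `b = a` nothing to do; the same construction: if `a < b` take `l'` for `j = b` as above: `max A l' = b`). -/

namespace SZ

open H68.BB Polynomial

variable {K1 K : Type} [Field K1] [Field K] {B : Type}

private theorem nw_key [IsAlgClosed K1] {Γ : Type} [LinearOrderedCommGroupWithZero Γ] (v : Valuation K1 Γ) (x : ℕ → K1)
    (a : ℕ) (ha : x a ≠ 0) (ha' : ∀ i < a, x i = 0) (R : ℕ → ℕ → Prop)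
    (hR : ∀ l : K1, l ≠ 0 → ∀ i j, x i ≠ 0 → (∀ k, v (l ^ k * x k) ≤ v (l ^ i * x i)) →
      (∀ k < i, v (l ^ k * x k) < v (l ^ i * x i)) → v (l ^ j * x j) = v (l ^ i * x i) →
      (∀ k > j, v (l ^ k * x k) < v (l ^ i * x i)) → R i j) :
    ∀ j : ℕ, x j ≠ 0 → ((∀ i > j, x i = 0) ∨ ∃ l : K1, l ≠ 0 ∧ (∀ k, v (l ^ k * x k) ≤ v (l ^ j * x j)) ∧
      ∀ k < j, v (l ^ k * x k) < v (l ^ j * x j)) → Relation.ReflTransGen R a j := by
  classical
  intro j
  induction j using Nat.strong_induction_on with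
  | _ j ih =>
    intro hxj hj
    have haj : a ≤ j := by
      by_contra h
      exact hxj (ha' j (not_le.mp h))
    rcases Nat.eq_or_lt_of_le haj with h | haj
    · subst h
      exact Relation.ReflTransGen.refl
    have hex : ∀ i : ℕ, ∃ z : K1, i < j → z ^ (j - i) * x j = x i := by
      intro i
      by_cases hi : i < j
      · obtain ⟨z, hz⟩ := IsAlgClosed.exists_pow_nat_eq (x i / x j) (Nat.sub_pos_of_lt hi)
        exact ⟨z, fun _ => by rw [hz, div_mul_cancel₀ _ hxj]⟩
      · exact ⟨0, fun h => absurd h hi⟩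
    choose z hz using hex
    obtain ⟨i0, hi0, hmax⟩ := Finset.exists_max_image ((Finset.range j).filter (fun i => x i ≠ 0)) (fun i => v (z i))
      ⟨a, Finset.mem_filter.mpr ⟨Finset.mem_range.mpr haj, ha⟩⟩
    rw [Finset.mem_filter, Finset.mem_range] at hi0
    obtain ⟨hi0j, hxi0⟩ := hi0
    have hz0 := hz i0 hi0j
    have hlne : z i0 ≠ 0 := by
      intro h
      rw [h, zero_pow (Nat.sub_pos_of_lt hi0j).ne', zero_mul] at hz0
      exact hxi0 hz0.symm
    have hvj : 0 < v (z i0 ^ j * x j) := by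
      rw [zero_lt_iff, Valuation.ne_zero_iff]
      exact mul_ne_zero (pow_ne_zero _ hlne) hxj
    -- the indices below j
    have hlow : ∀ k < j, v (z i0 ^ k * x k) ≤ v (z i0 ^ j * x j) := by
      intro k hk
      by_cases hxk : x k = 0
      · rw [hxk, mul_zero, map_zero]
        exact hvj.le
      · have h1 := hmax k (Finset.mem_filter.mpr ⟨Finset.mem_range.mpr hk, hxk⟩)
        have h2 : z i0 ^ j = z i0 ^ k * z i0 ^ (j - k) := by rw [← pow_add, Nat.add_sub_cancel' hk.le]
        rw [h2, ← hz k hk]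
        simp only [map_mul, map_pow, ← mul_assoc]
        exact mul_le_mul_left (mul_le_mul_right (pow_le_pow_left' h1 _) _) _
    have heq : z i0 ^ i0 * x i0 = z i0 ^ j * x j := by
      rw [← hz0, ← mul_assoc, ← pow_add, Nat.add_sub_cancel' hi0j.le]
    -- the indices above j
    have hup : ∀ k > j, v (z i0 ^ k * x k) < v (z i0 ^ j * x j) := by
      intro k hk
      by_cases hxk : x k = 0
      · rw [hxk, mul_zero, map_zero]
        exact hvj
      · rcases hj with hj | ⟨l, hl, hl1, hl2⟩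
        · exact absurd (hj k hk) hxk
        · have h1 : v (z i0) < v l := by
            by_contra hc
            rw [not_lt] at hc
            refine absurd (hl2 i0 hi0j) (not_lt.mpr ?_)
            have h2 : l ^ j = l ^ i0 * l ^ (j - i0) := by rw [← pow_add, Nat.add_sub_cancel' hi0j.le]
            rw [h2, ← hz0]
            simp only [map_mul, map_pow, ← mul_assoc]
            exact mul_le_mul_left (mul_le_mul_right (pow_le_pow_left' hc _) _) _
          by_contra hc
          rw [not_lt] at hc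
          have h3 : z i0 ^ k = z i0 ^ j * z i0 ^ (k - j) := by rw [← pow_add, Nat.add_sub_cancel' hk.le]
          have h4 : l ^ k = l ^ j * l ^ (k - j) := by rw [← pow_add, Nat.add_sub_cancel' hk.le]
          have hc' : v (x j) ≤ v (z i0) ^ (k - j) * v (x k) := by
            rw [h3, mul_assoc, map_mul, map_mul v (z i0 ^ j)] at hc
            have h5 : 0 < v (z i0 ^ j) := by
              rw [zero_lt_iff, Valuation.ne_zero_iff]
              exact pow_ne_zero _ hlne
            have h6 := le_of_mul_le_mul_left hc h5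
            rwa [map_mul, map_pow] at h6
          have hl' : v l ^ (k - j) * v (x k) ≤ v (x j) := by
            have h7 := hl1 k
            rw [h4, mul_assoc, map_mul, map_mul v (l ^ j)] at h7
            have h5 : 0 < v (l ^ j) := by
              rw [zero_lt_iff, Valuation.ne_zero_iff]
              exact pow_ne_zero _ hl
            have h6 := le_of_mul_le_mul_left h7 h5
            rwa [map_mul, map_pow] at h6
          have h8 : v l ^ (k - j) * v (x k) ≤ v (z i0) ^ (k - j) * v (x k) := hl'.trans hc'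
          have h9 : 0 < v (x k) := by
            rw [zero_lt_iff, Valuation.ne_zero_iff]
            exact hxk
          have h10 := le_of_mul_le_mul_right h8 h9
          have h11 : v (z i0) ^ (k - j) < v l ^ (k - j) :=
            pow_lt_pow_left₀ h1 zero_le (Nat.sub_pos_of_lt hk).ne'
          exact absurd h10 (not_le.mpr h11)
    have hall : ∀ k, v (z i0 ^ k * x k) ≤ v (z i0 ^ j * x j) := by
      intro k
      rcases lt_trichotomy k j with h | h | h
      · exact hlow k h
      · rw [h]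
      · exact (hup k h).le
    have hex2 : ∃ i, v (z i0 ^ i * x i) = v (z i0 ^ j * x j) := ⟨i0, by rw [heq]⟩
    have hi : v (z i0 ^ Nat.find hex2 * x (Nat.find hex2)) = v (z i0 ^ j * x j) := Nat.find_spec hex2
    have hile : Nat.find hex2 < j := lt_of_le_of_lt (Nat.find_min' hex2 (by rw [heq])) hi0j
    have hil : ∀ k < Nat.find hex2, v (z i0 ^ k * x k) < v (z i0 ^ j * x j) := fun k hk =>
      lt_of_le_of_ne (hall k) (Nat.find_min hex2 hk)
    have hxi : x (Nat.find hex2) ≠ 0 := by
      intro h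
      rw [h, mul_zero, map_zero] at hi
      exact hvj.ne hi
    refine (ih _ hile hxi (Or.inr ⟨z i0, hlne, ?_, ?_⟩)).tail (hR (z i0) hlne _ _ hxi ?_ ?_ ?_ ?_)
    · intro k
      rw [hi]
      exact hall k
    · intro k hk
      rw [hi]
      exact hil k hk
    · intro k
      rw [hi]
      exact hall k
    · intro k hk
      rw [hi]
      exact hil k hk
    · exact hi.symm
    · intro k hk
      rw [hi]
      exact hup k hk

private theorem nw_bd (t0 : K1) (G : MvPolynomial B K1[X]) : ∃ N : ℕ, ∀ i ≥ N, ∀ m, cf t0 G i m = 0 := by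
  classical
  refine ⟨G.support.sup (fun m => (MvPolynomial.coeff m G).natDegree) + 1, fun i hi m => ?_⟩
  unfold cf
  by_cases hm : m ∈ G.support
  · apply Polynomial.coeff_eq_zero_of_natDegree_lt
    rw [Polynomial.natDegree_taylor]
    have := Finset.le_sup (f := fun m => (MvPolynomial.coeff m G).natDegree) hm
    omega
  · rw [MvPolynomial.notMem_support_iff.mp hm, map_zero, Polynomial.coeff_zero]

private theorem nw_ne (t0 : K1) {G : MvPolynomial B K1[X]} (hG : G ≠ 0) : ∃ i m, cf t0 G i m ≠ 0 := by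
  by_contra hc
  push Not at hc
  apply hG
  ext1 m
  have h1 : Polynomial.taylor t0 (MvPolynomial.coeff m G) = 0 := by
    ext i
    rw [Polynomial.coeff_zero]
    exact hc i m
  rw [MvPolynomial.coeff_zero]
  exact Polynomial.taylor_injective t0 (by rw [h1, map_zero])

/-- the lowest and the highest power of `t - t0` -/
theorem ends_exist (t0 : K1) {G : MvPolynomial B K1[X]} (hG : G ≠ 0) :
    ∃ a b : ℕ, (∃ m, cf t0 G a m ≠ 0) ∧ (∀ i < a, ∀ m, cf t0 G i m = 0) ∧ (∃ m, cf t0 G b m ≠ 0) ∧ ∀ i > b, ∀ m, cf t0 G i m = 0 := by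
  classical
  obtain ⟨N, hN⟩ := nw_bd t0 G
  have hne : ∃ i, ∃ m, cf t0 G i m ≠ 0 := nw_ne t0 hG
  obtain ⟨i1, m1, h1⟩ := nw_ne t0 hG
  have hi1 : i1 ≤ N := by
    by_contra hc
    exact h1 (hN i1 (by omega) m1)
  refine ⟨Nat.find hne, Nat.findGreatest (fun i => ∃ m, cf t0 G i m ≠ 0) N, Nat.find_spec hne, ?_, ?_, ?_⟩
  · intro i hi m
    by_contra hc
    exact Nat.find_min hne hi ⟨m, hc⟩
  · exact Nat.findGreatest_spec (P := fun i => ∃ m, cf t0 G i m ≠ 0) hi1 ⟨m1, h1⟩
  · intro i hi m
    by_cases hiN : N ≤ i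
    · exact hN i hiN m
    · by_contra hc
      exact Nat.findGreatest_is_greatest (P := fun i => ∃ m, cf t0 G i m ≠ 0) hi (by omega) ⟨m, hc⟩

private theorem nw_rd1 (V0 : ValuationSubring K1) (φ0 : V0 →+* K) (y : K1) (hy : V0.valuation y = 1) :
    ∃ a, a ≠ 0 ∧ Rd V0 φ0 y a := by
  have hm : y ∈ V0 := (V0.valuation_le_one_iff y).mp hy.le
  have hu : IsUnit (⟨y, hm⟩ : V0) := (V0.valuation_eq_one_iff ⟨y, hm⟩).mpr hy
  exact ⟨φ0 ⟨y, hm⟩, (hu.map φ0).ne_zero, hm, rfl⟩

private theorem nw_rd0 (V0 : ValuationSubring K1) (φ0 : V0 →+* K) [IsLocalHom φ0] (y : K1) (hy : V0.valuation y < 1) :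
    Rd V0 φ0 y 0 := by
  have hm : y ∈ V0 := (V0.valuation_le_one_iff y).mp hy.le
  refine ⟨hm, ?_⟩
  by_contra hc
  have h1 : IsUnit (φ0 ⟨y, hm⟩) := isUnit_iff_ne_zero.mpr hc
  have h2 : IsUnit (⟨y, hm⟩ : V0) := isUnit_of_map_unit φ0 _ h1
  exact absurd ((V0.valuation_eq_one_iff ⟨y, hm⟩).mp h2) hy.ne

theorem newton [IsAlgClosed K1] (V0 : ValuationSubring K1) (φ0 : V0 →+* K) [IsLocalHom φ0] (t0 : K1) {G : MvPolynomial B K1[X]}
    (hG : G ≠ 0) {a b : ℕ} (ha : ∃ m, cf t0 G a m ≠ 0) (ha' : ∀ i < a, ∀ m, cf t0 G i m = 0) (hb : ∃ m, cf t0 G b m ≠ 0)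
    (hb' : ∀ i > b, ∀ m, cf t0 G i m = 0) :
    Relation.ReflTransGen (fun i j => ∃ l : K1, l ≠ 0 ∧ Edge V0 φ0 t0 G l i j) a b := by
  classical
  have hsup : G.support.Nonempty := by
    rw [Finset.nonempty_iff_ne_empty, Ne, MvPolynomial.support_eq_empty]
    exact hG
  have hM : ∀ i : ℕ, ∃ m, ∀ m', V0.valuation (cf t0 G i m') ≤ V0.valuation (cf t0 G i m) := by
    intro i
    obtain ⟨m, _, hm⟩ := Finset.exists_max_image G.support (fun m => V0.valuation (cf t0 G i m)) hsup
    refine ⟨m, fun m' => ?_⟩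
    by_cases hm' : m' ∈ G.support
    · exact hm m' hm'
    · have : cf t0 G i m' = 0 := by
        unfold cf
        rw [MvPolynomial.notMem_support_iff.mp hm', map_zero, Polynomial.coeff_zero]
      rw [this, map_zero]
      exact zero_le
  choose M hMm using hM
  have hx0 : ∀ i, (∃ m, cf t0 G i m ≠ 0) → cf t0 G i (M i) ≠ 0 := by
    rintro i ⟨m, hm⟩ h0
    have h1 := hMm i m
    rw [h0, map_zero, le_zero_iff, Valuation.zero_iff] at h1
    exact hm h1
  refine nw_key V0.valuation (fun i => cf t0 G i (M i)) a (hx0 a ha) (fun i hi => ha' i hi _) _ ?_ b (hx0 b hb)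
    (Or.inl (fun i hi => hb' i hi _))
  intro l hl i j hxi hle hlt hj hgt
  have he : l ^ i * cf t0 G i (M i) ≠ 0 := mul_ne_zero (pow_ne_zero _ hl) hxi
  have hv0 : V0.valuation (l ^ i * cf t0 G i (M i)) ≠ 0 := (Valuation.ne_zero_iff _).mpr he
  -- the value of the normalised coefficients
  have hval : ∀ k m, V0.valuation ((l ^ i * cf t0 G i (M i))⁻¹ * l ^ k * cf t0 G k m)
      = (V0.valuation (l ^ i * cf t0 G i (M i)))⁻¹ * V0.valuation (l ^ k * cf t0 G k m) := by
    intro k m
    rw [mul_assoc, map_mul, map_inv₀]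
  have hmono : ∀ k m, V0.valuation (l ^ k * cf t0 G k m) ≤ V0.valuation (l ^ k * cf t0 G k (M k)) := by
    intro k m
    rw [map_mul, map_mul]
    exact mul_le_mul_right (hMm k m) _
  have hle1 : ∀ k m, V0.valuation ((l ^ i * cf t0 G i (M i))⁻¹ * l ^ k * cf t0 G k m) ≤ 1 := by
    intro k m
    rw [hval, ← inv_mul_cancel₀ hv0]
    exact mul_le_mul_right ((hmono k m).trans (hle k)) _
  have hlt1 : ∀ k m, V0.valuation (l ^ k * cf t0 G k (M k)) < V0.valuation (l ^ i * cf t0 G i (M i)) →
      V0.valuation ((l ^ i * cf t0 G i (M i))⁻¹ * l ^ k * cf t0 G k m) < 1 := by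
    intro k m hk
    rw [hval, ← inv_mul_cancel₀ hv0]
    have hpos : 0 < (V0.valuation (l ^ i * cf t0 G i (M i)))⁻¹ := by
      rw [zero_lt_iff]
      exact inv_ne_zero hv0
    exact mul_lt_mul_of_pos_left ((hmono k m).trans_lt hk) hpos
  refine ⟨l, hl, (l ^ i * cf t0 G i (M i))⁻¹, inv_ne_zero he, ?_, ⟨M i, ?_⟩, ⟨M j, ?_⟩, ?_, ?_⟩
  · intro k m
    exact (V0.valuation_le_one_iff _).mp (hle1 k m)
  · apply nw_rd1
    rw [hval, inv_mul_cancel₀ hv0]
  · apply nw_rd1
    have hj' : V0.valuation (l ^ j * cf t0 G j (M j)) = V0.valuation (l ^ i * cf t0 G i (M i)) := hj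
    rw [hval, hj', inv_mul_cancel₀ hv0]
  · intro k hk m
    exact nw_rd0 V0 φ0 _ (hlt1 k m (hlt k hk))
  · intro k hk m
    exact nw_rd0 V0 φ0 _ (hlt1 k m (hgt k hk))

end SZ
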