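import Pool.Agent.H71.SZ.Clo
import Pool.Agent.H71.SZ.Newton

/-! # SZ.EndsP : the end coefficients of the Newton polygon are the Chow forms of the fibres (about 150 lines)

`at_low`: at `π` (`tt K1 ↦ t0`): `chow_spc`: `e1 * coeff m (chow R S)` reduces to `coeff m (chow R c1)`; `algebraMap g * coeff m (chow R S) = ∑ i, cf t0 G i m * (tt - t0) ^ i`, divided by `(tt - t0) ^ a`: reduces to `cf t0 G a m`.  `rd_uniq`: `coeff m (chow R c1) = u * cf t0 G a m`
with `u ≠ 0` in `K1`.  `chow_spc` for `φ0`: `e2 * coeff m (chow R c1)` reduces to `coeff m (chow R c)`: so `At` with `e = e2 * u`, `u = 1`.  `at_top`: the same with `(tt - t0)⁻¹ ^ b`, `(tt - t0)⁻¹ ↦ 0` at `π` (`tt K1 ∉ π.V`).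
`at_uniq`: `e * cf i m` reduces to `u * coeff m (chow R c)`, `e' * cf i m` to `u' * coeff m (chow R c')`, both nonzero for some `m` (`chow_ne`): `rd_uniq`, `MvPolynomial.ext`, `chow_uniq`. -/

namespace SZ

open H68.BB Polynomial

variable {J : Type} {I : J → Type} {w : ∀ j, I j → ℕ} [Fintype J] [∀ j, Fintype (I j)] (R : Vr w)
  {K1 K : Type} [Field K1] [Field K] [IsAlgClosed K1] [IsAlgClosed K] {V0 : ValuationSubring K1} {φ0 : V0 →+* K} [IsLocalHom φ0]

private theorem ep_X (k : Type) [Field k] : algebraMap k[X] (Om k) X = tt k := by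
  rw [IsScalarTower.algebraMap_apply k[X] (RatFunc k) (Om k), RatFunc.algebraMap_X]
  rfl

private theorem ep_C (k : Type) [Field k] (c : k) : algebraMap k[X] (Om k) (C c) = algebraMap k (Om k) c := by
  rw [IsScalarTower.algebraMap_apply k[X] (RatFunc k) (Om k), RatFunc.algebraMap_C]
  rw [IsScalarTower.algebraMap_apply k (RatFunc k) (Om k)]
  rfl

private theorem ep_inj (k : Type) [Field k] : Function.Injective (algebraMap k[X] (Om k)) := by
  rw [IsScalarTower.algebraMap_eq k[X] (RatFunc k) (Om k)]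
  exact (algebraMap (RatFunc k) (Om k)).injective.comp (RatFunc.algebraMap_injective k)

private theorem ep_exp {k : Type} [Field k] {B : Type} (t0 : k) (G : MvPolynomial B k[X]) (m : B →₀ ℕ) {N : ℕ}
    (hN : (Polynomial.taylor t0 (MvPolynomial.coeff m G)).natDegree < N) :
    algebraMap k[X] (Om k) (MvPolynomial.coeff m G) =
      ∑ i ∈ Finset.range N, algebraMap k (Om k) (cf t0 G i m) * (tt k - algebraMap k (Om k) t0) ^ i := by
  conv_lhs => rw [← Polynomial.sum_taylor_eq (MvPolynomial.coeff m G) t0]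
  rw [Polynomial.sum_over_range' _ _ N hN]
  · rw [map_sum]
    refine Finset.sum_congr rfl fun i _ => ?_
    rw [map_mul, map_pow, map_sub, ep_X, ep_C, ep_C]
    rfl
  · intro n
    rw [Polynomial.C_0, zero_mul]

private theorem ep_sum {F L : Type} [Field F] [Field L] {V : ValuationSubring F} {φ : V →+* L} {ι : Type} (s : Finset ι)
    {x : ι → F} {a : ι → L} (h : ∀ i ∈ s, Rd V φ (x i) (a i)) :
    Rd V φ (∑ i ∈ s, x i) (∑ i ∈ s, a i) := by
  classical
  induction s using Finset.induction_on with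
  | empty => exact Rd.zero
  | insert i s hi ih =>
    rw [Finset.sum_insert hi, Finset.sum_insert hi]
    exact (h i (Finset.mem_insert_self i s)).add (ih fun j hj => h j (Finset.mem_insert_of_mem hj))

private theorem ep_cst {k : Type} [Field k] (π : Place k (Om k)) (c : k) : Rd π.V π.φ (algebraMap k (Om k) c) c :=
  π.const c

private theorem ep_ne {k : Type} [Field k] (t0 : k) : tt k - algebraMap k (Om k) t0 ≠ 0 :=
  sub_ne_zero.2 (tt_ne k t0)

/-- the lowest coefficient -/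
private theorem ep_low {k : Type} [Field k] {B : Type} {t0 : k} {G : MvPolynomial B k[X]} {a : ℕ}
    (ha' : ∀ i < a, ∀ m, cf t0 G i m = 0) (π : Place k (Om k)) (hπ : Rd π.V π.φ (tt k) t0) (m : B →₀ ℕ) :
    Rd π.V π.φ (((tt k - algebraMap k (Om k) t0) ^ a)⁻¹ * algebraMap k[X] (Om k) (MvPolynomial.coeff m G)) (cf t0 G a m) := by
  set τ := tt k - algebraMap k (Om k) t0 with hτ
  have hτ0 : τ ≠ 0 := ep_ne t0
  have hr : Rd π.V π.φ τ 0 := by
    have h1 := hπ.sub (ep_cst π t0)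
    rwa [sub_self] at h1
  rw [ep_exp t0 G m (N := (Polynomial.taylor t0 (MvPolynomial.coeff m G)).natDegree + a + 1) (by omega), Finset.mul_sum]
  have h2 : cf t0 G a m = ∑ i ∈ Finset.range ((Polynomial.taylor t0 (MvPolynomial.coeff m G)).natDegree + a + 1),
      if i = a then cf t0 G a m else 0 := by
    rw [Finset.sum_ite_eq', if_pos (Finset.mem_range.2 (by omega))]
  rw [h2]
  refine ep_sum _ fun i _ => ?_
  rcases lt_trichotomy i a with hi | hi | hi
  · rw [if_neg hi.ne, ha' i hi m, map_zero, zero_mul, mul_zero]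
    exact Rd.zero
  · subst hi
    rw [if_pos rfl, mul_comm, mul_assoc, mul_inv_cancel₀ (pow_ne_zero _ hτ0), mul_one]
    exact ep_cst π _
  · rw [if_neg hi.ne']
    have h3 : τ ^ i = τ ^ a * τ ^ (i - a) := by rw [← pow_add, Nat.add_sub_cancel' hi.le]
    have h4 : (τ ^ a)⁻¹ * (algebraMap k (Om k) (cf t0 G i m) * τ ^ i) = algebraMap k (Om k) (cf t0 G i m) * τ ^ (i - a) := by
      rw [h3]
      field_simp
    rw [h4]
    have h5 := (ep_cst π (cf t0 G i m)).mul (hr.pow (i - a))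
    rwa [zero_pow (Nat.sub_pos_of_lt hi).ne', mul_zero] at h5

/-- the highest coefficient -/
private theorem ep_top {k : Type} [Field k] {B : Type} {t0 : k} {G : MvPolynomial B k[X]} {b : ℕ}
    (hb' : ∀ i > b, ∀ m, cf t0 G i m = 0) (π : Place k (Om k)) (hπ : tt k ∉ π.V) (m : B →₀ ℕ) :
    Rd π.V π.φ (((tt k - algebraMap k (Om k) t0) ^ b)⁻¹ * algebraMap k[X] (Om k) (MvPolynomial.coeff m G)) (cf t0 G b m) := by
  have := Place.isLocal π
  set τ := tt k - algebraMap k (Om k) t0 with hτ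
  have hτ0 : τ ≠ 0 := ep_ne t0
  have hr : Rd π.V π.φ τ⁻¹ 0 := by
    refine Rd.inv_zero fun h => hπ ?_
    have h1 := π.V.add_mem _ _ h (ep_cst π t0).mem
    rwa [hτ, sub_add_cancel] at h1
  have hdeg : (Polynomial.taylor t0 (MvPolynomial.coeff m G)).natDegree < b + 1 := by
    rw [Nat.lt_succ_iff, Polynomial.natDegree_le_iff_coeff_eq_zero]
    intro i hi
    exact hb' i hi m
  rw [ep_exp t0 G m hdeg, Finset.mul_sum]
  have h2 : cf t0 G b m = ∑ i ∈ Finset.range (b + 1), if i = b then cf t0 G b m else 0 := by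
    rw [Finset.sum_ite_eq', if_pos (Finset.mem_range.2 (by omega))]
  rw [h2]
  refine ep_sum _ fun i hi => ?_
  rw [Finset.mem_range] at hi
  rcases lt_or_eq_of_le (Nat.lt_succ_iff.1 hi) with hi | hi
  · rw [if_neg hi.ne]
    have h3 : τ ^ b = τ ^ i * τ ^ (b - i) := by rw [← pow_add, Nat.add_sub_cancel' hi.le]
    have h4 : (τ ^ b)⁻¹ * (algebraMap k (Om k) (cf t0 G i m) * τ ^ i) =
        algebraMap k (Om k) (cf t0 G i m) * τ⁻¹ ^ (b - i) := by
      rw [h3, inv_pow]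
      field_simp
    rw [h4]
    have h5 := (ep_cst π (cf t0 G i m)).mul (hr.pow (b - i))
    rwa [zero_pow (Nat.sub_pos_of_lt hi).ne', mul_zero] at h5
  · subst hi
    rw [if_pos rfl, mul_comm, mul_assoc, mul_inv_cancel₀ (pow_ne_zero _ hτ0), mul_one]
    exact ep_cst π _

private theorem ep_coeff {F : Type} [Field F] {c : Multiset (Vc I F)} (h : ∀ P ∈ c, NZ P) :
    ∃ m, MvPolynomial.coeff m (chow R c) ≠ 0 := by
  by_contra hc
  push Not at hc
  apply chow_ne R h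
  ext1 m
  rw [hc m, MvPolynomial.coeff_zero]

private theorem ep_nz {F L : Type} [Field F] [Field L] {V : ValuationSubring F} {φ : V →+* L} {S : Multiset (Vc I F)}
    {c : Multiset (Vc I L)} (h : Multiset.Rel (Spc w V φ) S c) : ∀ P ∈ c, NZ P := by
  intro p hp
  obtain ⟨P, _, hP⟩ := Multiset.exists_mem_of_rel_of_mem (Multiset.rel_flip.2 h) hp
  exact Spc.nz hP

private theorem ep_main {S : Multiset (Vc I (Om K1))} {t0 : K1} {g : K1[X]} (hg : g ≠ 0) {G : MvPolynomial R.B K1[X]}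
    (hG : MvPolynomial.map (algebraMap K1[X] (Om K1)) G = MvPolynomial.C (algebraMap K1[X] (Om K1) g) * chow R S)
    {a : ℕ} (ha : ∃ m, cf t0 G a m ≠ 0) (π : Place K1 (Om K1))
    (hr : ∀ m, Rd π.V π.φ (((tt K1 - algebraMap K1 (Om K1) t0) ^ a)⁻¹ * algebraMap K1[X] (Om K1) (MvPolynomial.coeff m G))
      (cf t0 G a m))
    {c1 : Multiset (Vc I K1)} (h1 : Multiset.Rel (Spc w π.V π.φ) S c1) {c : Multiset (Vc I K)}
    (h : Multiset.Rel (Spc w V0 φ0) c1 c) : At R V0 φ0 t0 G a c := by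
  have := Place.isLocal π
  obtain ⟨e1, he1, h2⟩ := chow_spc R h1
  obtain ⟨e2, he2, h3⟩ := chow_spc R h
  have hτ0 := ep_ne t0
  have hg' : algebraMap K1[X] (Om K1) g ≠ 0 := fun h0 => hg (ep_inj K1 (h0.trans (map_zero _).symm))
  have h4 : ∀ m, Rd π.V π.φ ((((tt K1 - algebraMap K1 (Om K1) t0) ^ a)⁻¹ * algebraMap K1[X] (Om K1) g) *
      MvPolynomial.coeff m (chow R S)) (cf t0 G a m) := by
    intro m
    have h5 := hr m
    have h6 := congrArg (MvPolynomial.coeff m) hG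
    rw [MvPolynomial.coeff_map, MvPolynomial.coeff_C_mul] at h6
    rw [h6, ← mul_assoc] at h5
    exact h5
  obtain ⟨u, hu, h7⟩ := rd_uniq (V := π.V) (φ := π.φ) he1 (mul_ne_zero (inv_ne_zero (pow_ne_zero a hτ0)) hg') h2 h4
    (ep_coeff R (ep_nz h1)) ha
  refine ⟨e2 * u, 1, mul_ne_zero he2 hu, one_ne_zero, fun m => ?_⟩
  rw [mul_assoc, ← h7 m, one_mul]
  exact h3 m

theorem at_low {S : Multiset (Vc I (Om K1))} (hS : ∀ P ∈ S, NZ P) {t0 : K1} {g : K1[X]} (hg : g ≠ 0) {G : MvPolynomial R.B K1[X]}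
    (hG : MvPolynomial.map (algebraMap K1[X] (Om K1)) G = MvPolynomial.C (algebraMap K1[X] (Om K1) g) * chow R S)
    {a : ℕ} (ha : ∃ m, cf t0 G a m ≠ 0) (ha' : ∀ i < a, ∀ m, cf t0 G i m = 0) (π : Place K1 (Om K1)) (hπ : Rd π.V π.φ (tt K1) t0)
    {c1 : Multiset (Vc I K1)} (h1 : Multiset.Rel (Spc w π.V π.φ) S c1) {c : Multiset (Vc I K)}
    (h : Multiset.Rel (Spc w V0 φ0) c1 c) : At R V0 φ0 t0 G a c :=
  ep_main R hg hG ha π (fun m => ep_low ha' π hπ m) h1 h

theorem at_top {S : Multiset (Vc I (Om K1))} (hS : ∀ P ∈ S, NZ P) {t0 : K1} {g : K1[X]} (hg : g ≠ 0) {G : MvPolynomial R.B K1[X]}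
    (hG : MvPolynomial.map (algebraMap K1[X] (Om K1)) G = MvPolynomial.C (algebraMap K1[X] (Om K1) g) * chow R S)
    {b : ℕ} (hb : ∃ m, cf t0 G b m ≠ 0) (hb' : ∀ i > b, ∀ m, cf t0 G i m = 0) (π : Place K1 (Om K1)) (hπ : tt K1 ∉ π.V)
    {c1 : Multiset (Vc I K1)} (h1 : Multiset.Rel (Spc w π.V π.φ) S c1) {c : Multiset (Vc I K)}
    (h : Multiset.Rel (Spc w V0 φ0) c1 c) : At R V0 φ0 t0 G b c :=
  ep_main R hg hG hb π (fun m => ep_top hb' π hπ m) h1 h

theorem at_uniq {t0 : K1} {G : MvPolynomial R.B K1[X]} {i : ℕ} {c c' : Multiset (Vc I K)} (hc : ∀ P ∈ c, NZ P)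
    (hc' : ∀ P ∈ c', NZ P) (h : At R V0 φ0 t0 G i c) (h' : At R V0 φ0 t0 G i c') : Multiset.Rel (Prp w) c' c := by
  obtain ⟨e, u, he, hu, h1⟩ := h
  obtain ⟨e', u', he', hu', h1'⟩ := h'
  obtain ⟨m, hm⟩ := ep_coeff R hc
  obtain ⟨m', hm'⟩ := ep_coeff R hc'
  obtain ⟨v, hv, h2⟩ := rd_uniq he' he h1' h1 ⟨m', mul_ne_zero hu' hm'⟩ ⟨m, mul_ne_zero hu hm⟩
  refine chow_uniq R hc' hc (u := u'⁻¹ * (v * u)) (mul_ne_zero (inv_ne_zero hu') (mul_ne_zero hv hu)) ?_
  ext1 m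
  rw [MvPolynomial.coeff_C_mul, mul_assoc, mul_assoc, ← h2 m, ← mul_assoc, inv_mul_cancel₀ hu', one_mul]

end SZ
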