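import Pool.Agent.H71.SZ.Def

/-! # SZ.VrEx : the Veronese and Segre embedding of a product of weighted projective spaces (about 250 lines, no places)

(1) One block, weights `w : I → ℕ` positive.  `P0 := ∏ i, w i`, `D = P0 * d`, `W = P0 * m` with `d`, `m` large; `A` = all `α : I → Fin (W + 1)` with `∑ α i * w i = W`
(it contains the pure powers `W / w i` at `i`).  Suppose `P^α = μ P'^α` for all `α ∈ A`, `P, P' ≠ 0`, `μ ≠ 0`.  Choose `c` with `c ^ W = μ` and replace `P'` by `c ^ w i * P' i`: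
WLOG `μ = 1`.  The supports agree (pure powers); let `T` be the support, `r i = P i / P' i` for `i ∈ T`, `g = gcd_{i ∈ T} w i = ∑_{j ∈ T} u j * w j` (`u j ∈ ℤ`, Bezout), and
`ρ = ∏_{j ∈ T} r j ^ u j` (integer powers).  For `i ∈ T` the vector `δ = (w i / g) u - e_i ∈ ℤ^T` has weight `0`; `α' :=` (`D` at all `j ∈ T`, plus the rest `(W - D ∑_T w) / w i0` at one `i0 ∈ T`)
has weight `W` and entries `≥ D ≥ |δ j|`, so `α' + δ` is in `A` too and `r ^ δ = 1`: `r i = ρ ^ (w i / g)`.  Choose `c` with `c ^ g = ρ`: then `P i = c ^ w i * P' i` for `i ∈ T`, and both sides are `0` for `i ∉ T`.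
(`d` must bound all `|δ|` for all subsets `T` and all `i ∈ T`: a finite supremum.)
(2) Several blocks: `B := ∀ j, A j`, `ε b j i := (b j) i`, `W j`.  `nz`: choose a nonzero monomial in every block (a pure power).  `inj`: fix `b0` with `mon P b0 ≠ 0` (then `mon P' b0 ≠ 0`);
vary the block `j` only (`Function.update b0 j α`): `P_j^α = μ_j P'_j^α` with `μ_j ≠ 0`; apply (1) to every block. -/

namespace SZ

variable {J : Type} {I : J → Type} {w : ∀ j, I j → ℕ} [Fintype J] [∀ j, Fintype (I j)]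

/-- Bezout for a finite set of positive weights -/
private theorem vr_bez {A : Type} [DecidableEq A] (v : A → ℕ) (hv : ∀ i, 0 < v i) (T : Finset A) (hT : T.Nonempty) :
    ∃ (g : ℕ) (u : A → ℤ), 0 < g ∧ (∀ i ∈ T, g ∣ v i) ∧ ∑ j ∈ T, u j * (v j : ℤ) = g := by
  induction hT using Finset.Nonempty.cons_induction with
  | singleton a => exact ⟨v a, fun _ => 1, hv a, by simp, by simp⟩
  | cons a s ha hs ih =>
    obtain ⟨g, u, hg, hd, hsum⟩ := ih
    refine ⟨Nat.gcd (v a) g, fun j => if j = a then Nat.gcdA (v a) g else Nat.gcdB (v a) g * u j, Nat.gcd_pos_of_pos_left _ (hv a), ?_, ?_⟩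
    · intro i hi
      rcases Finset.mem_cons.1 hi with h | h
      · rw [h]; exact Nat.gcd_dvd_left _ _
      · exact (Nat.gcd_dvd_right _ _).trans (hd i h)
    · have e1 : ∑ x ∈ s, (if x = a then Nat.gcdA (v a) g else Nat.gcdB (v a) g * u x) * (v x : ℤ) = Nat.gcdB (v a) g * g := by
        rw [← hsum, Finset.mul_sum]
        refine Finset.sum_congr rfl fun j hj => ?_
        have hja : j ≠ a := fun h => ha (h ▸ hj)
        rw [if_neg hja]
        ring
      rw [Finset.sum_cons, e1, Nat.gcd_eq_gcd_ab (v a) g]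
      simp only [if_true]
      ring

/-- one block, scalar one -/
private theorem vr_block1 {A : Type} [Fintype A] [DecidableEq A] (v : A → ℕ) (hv : ∀ i, 0 < v i) :
    ∃ W : ℕ, 0 < W ∧ (∀ i, v i ∣ W) ∧ ∀ (F : Type) [Field F] [IsAlgClosed F] (P P' : A → F), P ≠ 0 →
      (∀ α : A → ℕ, ∑ i, α i * v i = W → ∏ i, P i ^ α i = ∏ i, P' i ^ α i) → ∃ c : F, c ≠ 0 ∧ ∀ i, P i = c ^ v i * P' i := by
  choose! g u hg hdvd hsum using fun (T : Finset A) (hT : T.Nonempty) => vr_bez v hv T hT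
  set δ : Finset A → A → A → ℤ := fun T i j => ((v i / g T : ℕ) : ℤ) * u T j - (if j = i then 1 else 0) with hδ
  set d : ℕ := ∑ T : Finset A, ∑ i, ∑ j, (δ T i j).natAbs with hd
  have hδd : ∀ T i j, (δ T i j).natAbs ≤ d := by
    intro T i j
    calc (δ T i j).natAbs ≤ ∑ j, (δ T i j).natAbs := Finset.single_le_sum (f := fun j => (δ T i j).natAbs) (fun _ _ => Nat.zero_le _) (Finset.mem_univ j)
      _ ≤ ∑ i, ∑ j, (δ T i j).natAbs := Finset.single_le_sum (f := fun i => ∑ j, (δ T i j).natAbs) (fun _ _ => Nat.zero_le _) (Finset.mem_univ i)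
      _ ≤ d := Finset.single_le_sum (f := fun T => ∑ i, ∑ j, (δ T i j).natAbs) (fun _ _ => Nat.zero_le _) (Finset.mem_univ T)
  set P0 : ℕ := ∏ i, v i with hP0
  have hP0pos : 0 < P0 := Finset.prod_pos fun i _ => hv i
  have hdP0 : ∀ i, v i ∣ P0 := fun i => Finset.dvd_prod_of_mem v (Finset.mem_univ i)
  set W : ℕ := P0 * (d * ∑ i, v i + 1) with hW
  have hWpos : 0 < W := Nat.mul_pos hP0pos (Nat.succ_pos _)
  have hdW : ∀ i, v i ∣ W := fun i => (hdP0 i).mul_right _
  refine ⟨W, hWpos, hdW, ?_⟩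
  intro F _ _ P P' hP h
  have : DecidablePred (fun i => P i ≠ 0) := Classical.decPred _
  -- supports agree
  have hpure : ∀ i, P i ^ (W / v i) = P' i ^ (W / v i) := by
    intro i
    have := h (Pi.single i (W / v i)) (by
      rw [Finset.sum_eq_single i]
      · rw [Pi.single_eq_same]; exact Nat.div_mul_cancel (hdW i)
      · intro j _ hj; rw [Pi.single_eq_of_ne hj, Nat.zero_mul]
      · intro hi; exact absurd (Finset.mem_univ i) hi)
    rw [Finset.prod_eq_single i, Finset.prod_eq_single i] at this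
    · simpa using this
    · intro j _ hj; rw [Pi.single_eq_of_ne hj, pow_zero]
    · intro hi; exact absurd (Finset.mem_univ i) hi
    · intro j _ hj; rw [Pi.single_eq_of_ne hj, pow_zero]
    · intro hi; exact absurd (Finset.mem_univ i) hi
  have hWi : ∀ i, W / v i ≠ 0 := fun i => (Nat.div_pos (Nat.le_of_dvd hWpos (hdW i)) (hv i)).ne'
  have hsupp : ∀ i, P i = 0 ↔ P' i = 0 := by
    intro i
    constructor
    · intro hi
      have := hpure i
      rw [hi, zero_pow (hWi i)] at this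
      exact (pow_eq_zero_iff (hWi i)).1 this.symm
    · intro hi
      have := hpure i
      rw [hi, zero_pow (hWi i)] at this
      exact (pow_eq_zero_iff (hWi i)).1 this
  set T : Finset A := Finset.univ.filter (fun i => P i ≠ 0) with hT
  have hTm : ∀ i, i ∈ T ↔ P i ≠ 0 := fun i => by simp [hT]
  have hTne : T.Nonempty := by
    obtain ⟨i, hi⟩ := Function.ne_iff.1 hP
    exact ⟨i, (hTm i).2 hi⟩
  set r : A → F := fun i => P i / P' i with hr
  have hrne : ∀ i ∈ T, r i ≠ 0 := by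
    intro i hi
    exact div_ne_zero ((hTm i).1 hi) (fun h0 => (hTm i).1 hi ((hsupp i).2 h0))
  -- products
  have hr1 : ∀ α : A → ℕ, (∀ i, i ∉ T → α i = 0) → ∑ i, α i * v i = W → ∏ i ∈ T, r i ^ α i = 1 := by
    intro α hα hαW
    have h1 := h α hαW
    have e1 : ∏ i, P i ^ α i = ∏ i ∈ T, P i ^ α i := by
      symm
      apply Finset.prod_subset (Finset.subset_univ T)
      intro i _ hi
      rw [hα i hi, pow_zero]
    have e2 : ∏ i, P' i ^ α i = ∏ i ∈ T, P' i ^ α i := by
      symm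
      apply Finset.prod_subset (Finset.subset_univ T)
      intro i _ hi
      rw [hα i hi, pow_zero]
    rw [e1, e2] at h1
    have hne : ∏ i ∈ T, P' i ^ α i ≠ 0 := by
      rw [Finset.prod_ne_zero_iff]
      intro i hi
      exact pow_ne_zero _ (fun h0 => (hTm i).1 hi ((hsupp i).2 h0))
    calc ∏ i ∈ T, r i ^ α i = ∏ i ∈ T, (P i ^ α i / P' i ^ α i) := by
          refine Finset.prod_congr rfl fun i _ => ?_
          rw [hr]; exact div_pow _ _ _
      _ = (∏ i ∈ T, P i ^ α i) / ∏ i ∈ T, P' i ^ α i := Finset.prod_div_distrib _ _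
      _ = 1 := by rw [h1, div_self hne]
  -- the reference vector
  obtain ⟨i0, hi0⟩ := hTne
  have hTne : T.Nonempty := ⟨i0, hi0⟩
  set D : ℕ := P0 * d with hD
  have hDS : D * ∑ i ∈ T, v i ≤ W := by
    have hs : ∑ i ∈ T, v i ≤ ∑ i, v i := Finset.sum_le_sum_of_subset (Finset.subset_univ T)
    calc D * ∑ i ∈ T, v i ≤ D * ∑ i, v i := Nat.mul_le_mul_left _ hs
      _ = P0 * (d * ∑ i, v i) := by rw [hD]; ring
      _ ≤ W := Nat.mul_le_mul_left _ (Nat.le_succ _)
  set rest : ℕ := (W - D * ∑ i ∈ T, v i) / v i0 with hrest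
  have hrestv : rest * v i0 = W - D * ∑ i ∈ T, v i := by
    apply Nat.div_mul_cancel
    apply Nat.dvd_sub (hdW i0)
    exact ((hdP0 i0).mul_right d).mul_right _
  set α' : A → ℕ := fun i => if i ∈ T then (D + if i = i0 then rest else 0) else 0 with hα'
  have hα'T : ∀ i, i ∉ T → α' i = 0 := fun i hi => by rw [hα']; exact if_neg hi
  have hα'D : ∀ i ∈ T, D ≤ α' i := fun i hi => by
    rw [hα']; simp only [if_pos hi]; exact Nat.le_add_right _ _
  have hα'W : ∑ i, α' i * v i = W := by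
    have e1 : ∑ i, α' i * v i = ∑ i ∈ T, α' i * v i := by
      symm
      apply Finset.sum_subset (Finset.subset_univ T)
      intro i _ hi
      rw [hα'T i hi, Nat.zero_mul]
    have e2 : ∑ i ∈ T, α' i * v i = ∑ i ∈ T, (D * v i + (if i = i0 then rest * v i0 else 0)) := by
      refine Finset.sum_congr rfl fun i hi => ?_
      rw [hα']
      simp only [if_pos hi]
      by_cases hii : i = i0
      · rw [if_pos hii, if_pos hii, hii, Nat.add_mul]
      · rw [if_neg hii, if_neg hii, Nat.add_zero, Nat.add_zero]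
    rw [e1, e2, Finset.sum_add_distrib, Finset.sum_ite_eq' T i0 (fun _ => rest * v i0), if_pos hi0, ← Finset.mul_sum, hrestv]
    exact Nat.add_sub_cancel' hDS
  -- integer vectors of weight zero
  have hz : ∀ η : A → ℤ, (∀ i ∈ T, (η i).natAbs ≤ D) → ∑ i ∈ T, η i * (v i : ℤ) = 0 → ∏ i ∈ T, r i ^ (η i) = 1 := by
    intro η hη hη0
    set β : A → ℕ := fun i => if i ∈ T then ((α' i : ℤ) + η i).toNat else 0 with hβ
    have hβT : ∀ i, i ∉ T → β i = 0 := fun i hi => by rw [hβ]; exact if_neg hi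
    have hβv : ∀ i ∈ T, (β i : ℤ) = α' i + η i := by
      intro i hi
      rw [hβ]
      simp only [if_pos hi]
      apply Int.toNat_of_nonneg
      have h1 := hη i hi
      have h2 := hα'D i hi
      omega
    have hβW : ∑ i, β i * v i = W := by
      have e1 : ∑ i, β i * v i = ∑ i ∈ T, β i * v i := by
        symm
        apply Finset.sum_subset (Finset.subset_univ T)
        intro i _ hi
        rw [hβT i hi, Nat.zero_mul]
      have e2 : ∑ i, α' i * v i = ∑ i ∈ T, α' i * v i := by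
        symm
        apply Finset.sum_subset (Finset.subset_univ T)
        intro i _ hi
        rw [hα'T i hi, Nat.zero_mul]
      have e3 : ((∑ i ∈ T, β i * v i : ℕ) : ℤ) = ((∑ i ∈ T, α' i * v i : ℕ) : ℤ) := by
        push_cast
        have : ∑ i ∈ T, (β i : ℤ) * (v i : ℤ) = ∑ i ∈ T, ((α' i : ℤ) * v i + η i * v i) := by
          refine Finset.sum_congr rfl fun i hi => ?_
          rw [hβv i hi]; ring
        rw [this, Finset.sum_add_distrib, hη0, add_zero]
      rw [e1, Int.ofNat_inj.1 e3, ← e2, hα'W]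
    have h1 := hr1 β hβT hβW
    have h2 := hr1 α' hα'T hα'W
    calc ∏ i ∈ T, r i ^ (η i) = ∏ i ∈ T, (r i ^ β i / r i ^ α' i) := by
          refine Finset.prod_congr rfl fun i hi => ?_
          rw [eq_div_iff (pow_ne_zero _ (hrne i hi)), ← zpow_natCast, ← zpow_natCast, ← zpow_add₀ (hrne i hi), hβv i hi, add_comm]
      _ = (∏ i ∈ T, r i ^ β i) / ∏ i ∈ T, r i ^ α' i := Finset.prod_div_distrib _ _
      _ = 1 := by rw [h1, h2, div_one]
  -- the scalar
  set ρ : F := ∏ j ∈ T, r j ^ (u T j) with hρ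
  have hρne : ρ ≠ 0 := by
    rw [hρ, Finset.prod_ne_zero_iff]
    intro j hj
    exact zpow_ne_zero _ (hrne j hj)
  have hri : ∀ i ∈ T, r i = ρ ^ (v i / g T) := by
    intro i hi
    have h1 := hz (δ T i) (fun j _ => (hδd T i j).trans (by rw [hD]; exact Nat.le_mul_of_pos_left _ hP0pos)) (by
      have e1 : ∑ j ∈ T, δ T i j * (v j : ℤ) = ((v i / g T : ℕ) : ℤ) * (∑ j ∈ T, u T j * (v j : ℤ)) - ∑ j ∈ T, (if j = i then (v i : ℤ) else 0) := by
        rw [Finset.mul_sum, ← Finset.sum_sub_distrib]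
        refine Finset.sum_congr rfl fun j _ => ?_
        rw [hδ]
        by_cases hji : j = i
        · subst hji; simp only [if_true]; ring
        · simp only [if_neg hji]; ring
      rw [e1, hsum T hTne, Finset.sum_ite_eq' T i (fun _ => (v i : ℤ)), if_pos hi]
      have := Nat.div_mul_cancel (hdvd T hTne i hi)
      rw [sub_eq_zero]
      exact_mod_cast this)
    have e2 : ∏ j ∈ T, r j ^ (δ T i j) = ρ ^ (v i / g T) * (r i)⁻¹ := by
      have e3 : ∏ j ∈ T, r j ^ (δ T i j) = ∏ j ∈ T, ((r j ^ (u T j)) ^ (v i / g T) * (if j = i then (r i)⁻¹ else 1)) := by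
        refine Finset.prod_congr rfl fun j hj => ?_
        rw [hδ]
        simp only
        rw [zpow_sub₀ (hrne j hj), mul_comm ((v i / g T : ℕ) : ℤ), zpow_mul, zpow_natCast, div_eq_mul_inv]
        by_cases hji : j = i
        · subst hji; simp only [if_true, zpow_one]
        · simp only [if_neg hji, zpow_zero, inv_one]
      rw [e3, Finset.prod_mul_distrib, Finset.prod_pow, Finset.prod_ite_eq' T i (fun _ => (r i)⁻¹), if_pos hi]
    rw [e2] at h1
    have h2 := eq_inv_of_mul_eq_one_left h1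
    rw [inv_inv] at h2
    exact h2.symm
  obtain ⟨c, hc⟩ := IsAlgClosed.exists_pow_nat_eq ρ (hg T hTne)
  have hcne : c ≠ 0 := by
    rintro rfl
    rw [zero_pow (hg T hTne).ne'] at hc
    exact hρne hc.symm
  refine ⟨c, hcne, fun i => ?_⟩
  by_cases hi : i ∈ T
  · have h1 := hri i hi
    have hP'i : P' i ≠ 0 := fun h0 => (hTm i).1 hi ((hsupp i).2 h0)
    rw [← hc, ← pow_mul, Nat.mul_div_cancel' (hdvd T hTne i hi)] at h1
    rw [← h1, hr]
    simp only
    rw [div_mul_cancel₀ _ hP'i]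
  · have h1 : P i = 0 := by
      by_contra h0
      exact hi ((hTm i).2 h0)
    rw [h1, (hsupp i).1 h1, mul_zero]

/-- one block -/
private theorem vr_block {A : Type} [Fintype A] (v : A → ℕ) (hv : ∀ i, 0 < v i) :
    ∃ W : ℕ, 0 < W ∧ (∀ i, v i ∣ W) ∧ ∀ (F : Type) [Field F] [IsAlgClosed F] (P P' : A → F) (μ : F), P ≠ 0 → μ ≠ 0 →
      (∀ α : A → ℕ, ∑ i, α i * v i = W → ∏ i, P i ^ α i = μ * ∏ i, P' i ^ α i) → ∃ c : F, c ≠ 0 ∧ ∀ i, P i = c ^ v i * P' i := by
  classical
  obtain ⟨W, hW, hd, h⟩ := vr_block1 v hv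
  refine ⟨W, hW, hd, ?_⟩
  intro F _ _ P P' μ hP hμ hα
  obtain ⟨c0, hc0⟩ := IsAlgClosed.exists_pow_nat_eq μ hW
  have hc0ne : c0 ≠ 0 := by
    rintro rfl
    rw [zero_pow hW.ne'] at hc0
    exact hμ hc0.symm
  obtain ⟨c, hc, hPc⟩ := h F P (fun i => c0 ^ v i * P' i) hP (fun α hαW => by
    rw [hα α hαW]
    have : ∏ i, (c0 ^ v i * P' i) ^ α i = c0 ^ (∑ i, α i * v i) * ∏ i, P' i ^ α i := by
      rw [← Finset.prod_pow_eq_pow_sum, ← Finset.prod_mul_distrib]
      refine Finset.prod_congr rfl fun i _ => ?_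
      rw [mul_pow, ← pow_mul, mul_comm (v i)]
    rw [this, hαW, hc0])
  refine ⟨c * c0, mul_ne_zero hc hc0ne, fun i => ?_⟩
  rw [hPc i, mul_pow, mul_assoc]

theorem vr_exists (hw : ∀ j i, 0 < w j i) : Nonempty (Vr w) := by
  classical
  choose W hW hd h using fun j => vr_block (w j) (hw j)
  -- a vector of weight `W j` as an element of the index set
  let A : J → Type := fun j => {α : I j → Fin (W j + 1) // ∑ i, (α i : ℕ) * w j i = W j}
  have mkA : ∀ j (α : I j → ℕ), ∑ i, α i * w j i = W j → ∃ a : A j, ∀ i, (a.1 i : ℕ) = α i := by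
    intro j α hα
    have hle : ∀ i, α i < W j + 1 := by
      intro i
      have h1 : α i * w j i ≤ ∑ i, α i * w j i := Finset.single_le_sum (f := fun i => α i * w j i) (fun _ _ => Nat.zero_le _) (Finset.mem_univ i)
      have h2 : α i ≤ α i * w j i := Nat.le_mul_of_pos_right _ (hw j i)
      omega
    exact ⟨⟨fun i => ⟨α i, hle i⟩, hα⟩, fun i => rfl⟩
  have pure : ∀ j (i : I j), ∃ a : A j, ∀ (F : Type) [Field F] (p : I j → F), p i ≠ 0 → ∏ i', p i' ^ (a.1 i' : ℕ) ≠ 0 := by
    intro j i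
    obtain ⟨a, ha⟩ := mkA j (Pi.single i (W j / w j i)) (by
      rw [Finset.sum_eq_single i]
      · rw [Pi.single_eq_same]; exact Nat.div_mul_cancel (hd j i)
      · intro k _ hk; rw [Pi.single_eq_of_ne hk, Nat.zero_mul]
      · intro hi; exact absurd (Finset.mem_univ i) hi)
    refine ⟨a, fun F _ p hp => ?_⟩
    rw [Finset.prod_ne_zero_iff]
    intro k _
    rw [ha k]
    by_cases hk : k = i
    · subst hk; exact pow_ne_zero _ hp
    · rw [Pi.single_eq_of_ne hk, pow_zero]; exact one_ne_zero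
  have hnz : ∀ (F : Type) [Field F] (P : Vc I F), NZ P → ∃ b : ∀ j, A j, ∏ j, ∏ i, P j i ^ ((b j).1 i : ℕ) ≠ 0 := by
    intro F _ P hP
    have h1 : ∀ j, ∃ a : A j, ∏ i, P j i ^ (a.1 i : ℕ) ≠ 0 := by
      intro j
      obtain ⟨i, hi⟩ := Function.ne_iff.1 (hP j)
      obtain ⟨a, ha⟩ := pure j i
      exact ⟨a, ha F (P j) hi⟩
    choose b hb using h1
    exact ⟨b, Finset.prod_ne_zero_iff.2 fun j _ => hb j⟩
  refine ⟨{ B := ∀ j, A j, fin := inferInstance, ε := fun b j i => ((b j).1 i : ℕ), W := W, wt := fun b j => (b j).2, nz := hnz, inj := ?_ }⟩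
  intro F _ _ P P' μ hP hP' hμ hb
  obtain ⟨b0, hb0⟩ := hnz F P hP
  have hb0' : ∏ j, ∏ i, P' j i ^ ((b0 j).1 i : ℕ) ≠ 0 := by
    intro h0
    have := hb b0
    rw [h0, mul_zero] at this
    exact hb0 this
  have key : ∀ j, ∃ c : F, c ≠ 0 ∧ ∀ i, P j i = c ^ w j i * P' j i := by
    intro j
    set R : F := ∏ k ∈ Finset.univ.erase j, ∏ i, P k i ^ ((b0 k).1 i : ℕ) with hR
    set R' : F := ∏ k ∈ Finset.univ.erase j, ∏ i, P' k i ^ ((b0 k).1 i : ℕ) with hR'
    have hRne : R ≠ 0 := by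
      rw [hR, Finset.prod_ne_zero_iff]
      intro k _
      exact (Finset.prod_ne_zero_iff.1 hb0) k (Finset.mem_univ k)
    have hR'ne : R' ≠ 0 := by
      rw [hR', Finset.prod_ne_zero_iff]
      intro k _
      exact (Finset.prod_ne_zero_iff.1 hb0') k (Finset.mem_univ k)
    refine h j F (P j) (P' j) (μ * R' / R) (hP j) (div_ne_zero (mul_ne_zero hμ hR'ne) hRne) ?_
    intro α hα
    obtain ⟨a, ha⟩ := mkA j α hα
    have h1 := hb (Function.update b0 j a)
    have split : ∀ Q : Vc I F, ∏ k, ∏ i, Q k i ^ (((Function.update b0 j a) k).1 i : ℕ) =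
        (∏ i, Q j i ^ α i) * ∏ k ∈ Finset.univ.erase j, ∏ i, Q k i ^ ((b0 k).1 i : ℕ) := by
      intro Q
      rw [← Finset.mul_prod_erase Finset.univ _ (Finset.mem_univ j)]
      congr 1
      · refine Finset.prod_congr rfl fun i _ => ?_
        rw [Function.update_self, ha i]
      · refine Finset.prod_congr rfl fun k hk => ?_
        rw [Function.update_of_ne (Finset.ne_of_mem_erase hk)]
    rw [split P, split P', ← hR, ← hR'] at h1
    rw [div_mul_eq_mul_div, eq_div_iff hRne, h1]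
    ring
  choose c hc hPc using key
  exact ⟨c, hc, funext fun j => funext fun i => hPc j i⟩

end SZ
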