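import Pool.Agent.H71.SZ.EdgeP
import Pool.Agent.H71.SZ.EndsP
import Pool.Agent.H71.SZ.VrEx

/-! # SZ.MainS : rational equivalence specialises -/

namespace SZ

open H68.BB Polynomial

variable {J : Type} {I : J → Type} {w : ∀ j, I j → ℕ} [Fintype J] [∀ j, Fintype (I j)]
  {K1 K : Type} [Field K1] [Field K] [IsAlgClosed K1] [IsAlgClosed K] {V0 : ValuationSubring K1} {φ0 : V0 →+* K}
  [IsLocalHom φ0] {On1 : Vc I (Om K1) → Prop} {On : Vc I (Om K) → Prop}

private theorem cy_map (sp : Vc I K1 → Vc I K) (c : Multiset (Vc I K1)) :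
    Finsupp.mapDomain sp (cy c) = cy (c.map sp) := by
  induction c using Multiset.induction_on with
  | empty => simp [cy]
  | cons P c ih =>
    unfold cy at ih ⊢
    rw [Multiset.map_cons, Multiset.sum_cons, Multiset.map_cons, Multiset.map_cons, Multiset.sum_cons, Finsupp.mapDomain_add, ih,
      Finsupp.mapDomain_single]

/-- the chain of edges -/
private theorem chain (R : Vr w) (hw : ∀ j i, 0 < w j i) {N : ℕ} (hN : OrbN w N) (hC : Clo w V0 φ0 On1 On)
    {S : Multiset (Vc I (Om K1))} (hS : ∀ P ∈ S, On1 P) {t0 : K1} {g : K1[X]} (hg : g ≠ 0) {G : MvPolynomial R.B K1[X]}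
    (hG : MvPolynomial.map (algebraMap K1[X] (Om K1)) G = MvPolynomial.C (algebraMap K1[X] (Om K1) g) * chow R S)
    {a b : ℕ} (hab : Relation.ReflTransGen (fun i j => ∃ l : K1, l ≠ 0 ∧ Edge V0 φ0 t0 G l i j) a b)
    {c : Multiset (Vc I K)} (hc : ∀ P ∈ c, NZ P ∧ On (mp (algebraMap K (Om K)) P)) (ha : At R V0 φ0 t0 G a c) :
    ∀ c' : Multiset (Vc I K), (∀ P ∈ c', NZ P ∧ On (mp (algebraMap K (Om K)) P)) → At R V0 φ0 t0 G b c' →
      N • (cy c - cy c') ∈ RatG w On := by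
  induction hab with
  | refl =>
    intro c' hc' hb
    have h1 := at_uniq R (fun P hP => (hc' P hP).1) (fun P hP => (hc P hP).1) hb ha
    exact (RatG w On).nsmul_mem (cy_mem hc' h1) N
  | tail _ hbc ih =>
    intro c' hc' hb
    obtain ⟨l, hl, hE⟩ := hbc
    obtain ⟨d, d', hd, hd', hAd, hAd', hr⟩ := edge_rel R hw hN hC hS hg hG hl hE
    have h1 := ih d hd hAd
    have h2 := at_uniq R (fun P hP => (hc' P hP).1) (fun P hP => (hd' P hP).1) hb hAd'
    have h3 := (RatG w On).nsmul_mem (cy_mem hc' h2) N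
    have h4 := (RatG w On).add_mem ((RatG w On).add_mem h1 hr) h3
    have e : N • (cy c - cy c') = N • (cy c - cy d) + N • (cy d - cy d') + N • (cy d' - cy c') := by
      rw [← smul_add, ← smul_add]
      congr 1
      abel
    rw [e]
    exact h4

private theorem rel_sp (hC : Clo w V0 φ0 On1 On) {sp : Vc I K1 → Vc I K} (hsp : ∀ P, NZ P → Spc w V0 φ0 P (sp P))
    {S : Multiset (Vc I (Om K1))} (hS : ∀ P ∈ S, On1 P) (π : Place K1 (Om K1)) {c : Multiset (Vc I K1)}
    (h : Multiset.Rel (Spc w π.V π.φ) S c) :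
    Multiset.Rel (Spc w V0 φ0) c (c.map sp) ∧ ∀ P ∈ c.map sp, NZ P ∧ On (mp (algebraMap K (Om K)) P) := by
  have hnz : ∀ p ∈ c, NZ p := by
    intro p hp
    obtain ⟨P, _, hPp⟩ := Multiset.exists_mem_of_rel_of_mem (Multiset.rel_flip.2 h) hp
    exact hPp.nz
  refine ⟨?_, ?_⟩
  · rw [Multiset.rel_map_right]
    exact Multiset.rel_refl_of_refl_on fun p hp => hsp p (hnz p hp)
  · intro q hq
    obtain ⟨p, hp, rfl⟩ := Multiset.mem_map.1 hq
    obtain ⟨P, hP, hPp⟩ := Multiset.exists_mem_of_rel_of_mem (Multiset.rel_flip.2 h) hp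
    have h1 := hsp p (hnz p hp)
    exact ⟨h1.nz, hC.cst π P p _ (hS P hP) hPp h1⟩

theorem spz [CharZero K1] (hw : ∀ j i, 0 < w j i) {N : ℕ} (hN : OrbN w N) (hC : Clo w V0 φ0 On1 On) {sp : Vc I K1 → Vc I K}
    (hsp : ∀ P, NZ P → Spc w V0 φ0 P (sp P)) {z : Cy I K1} (hz : z ∈ RatG w On1) : N • Finsupp.mapDomain sp z ∈ RatG w On := by
  unfold RatG at hz
  induction hz using AddSubgroup.closure_induction with
  | zero =>
    rw [Finsupp.mapDomain_zero, smul_zero]
    exact AddSubgroup.zero_mem _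
  | add x y _ _ hx hy =>
    rw [Finsupp.mapDomain_add, smul_add]
    exact AddSubgroup.add_mem _ hx hy
  | neg x _ hx =>
    have e : Finsupp.mapDomain sp (-x) = -Finsupp.mapDomain sp x :=
      map_neg (Finsupp.mapDomain.addMonoidHom sp : (Vc I K1 →₀ ℤ) →+ (Vc I K →₀ ℤ)) x
    rw [e, smul_neg]
    exact AddSubgroup.neg_mem _ hx
  | mem z hz =>
    obtain ⟨S, π, π', c, c', hS, hGs, h1, h2, rfl⟩ := hz
    have hSn : ∀ P ∈ S, NZ P := fun P hP => hC.nz1 P (hS P hP)
    obtain ⟨R⟩ := vr_exists (J := J) (I := I) (w := w) hw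
    obtain ⟨g, hg, G, hG0, hG⟩ := gal_poly R hSn hGs
    obtain ⟨πi, hπi⟩ := H71.K3.place_inf K1
    obtain ⟨ci, hci⟩ := rel_exists hw πi.V πi.φ hSn
    have key : ∀ (ρ : Place K1 (Om K1)) (d : Multiset (Vc I K1)), Multiset.Rel (Spc w ρ.V ρ.φ) S d →
        N • (cy (d.map sp) - cy (ci.map sp)) ∈ RatG w On := by
      intro ρ d hd
      obtain ⟨hd1, hd2⟩ := rel_sp hC hsp hS ρ hd
      obtain ⟨hi1, hi2⟩ := rel_sp hC hsp hS πi hci
      by_cases ht : tt K1 ∈ ρ.V
      · obtain ⟨a, b, ha, ha', hb, hb'⟩ := ends_exist (ρ.φ ⟨tt K1, ht⟩) hG0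
        have hA := at_low R hSn hg hG ha ha' ρ ⟨ht, rfl⟩ hd hd1
        have hB := at_top R hSn hg hG hb hb' πi hπi hci hi1
        exact chain R hw hN hC hS hg hG (newton V0 φ0 _ hG0 ha ha' hb hb') hd2 hA _ hi2 hB
      · obtain ⟨a, b, _, _, hb, hb'⟩ := ends_exist (0 : K1) hG0
        have hA := at_top R hSn hg hG hb hb' ρ ht hd hd1
        have hB := at_top R hSn hg hG hb hb' πi hπi hci hi1
        exact (RatG w On).nsmul_mem (cy_mem hi2 (at_uniq R (fun P hP => (hi2 P hP).1) (fun P hP => (hd2 P hP).1) hB hA)) N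
    have h3 := (RatG w On).sub_mem (key π c h1) (key π' c' h2)
    have e : Finsupp.mapDomain sp (cy c - cy c') = cy (c.map sp) - cy (c'.map sp) := by
      have e1 : Finsupp.mapDomain sp (cy c - cy c') = Finsupp.mapDomain sp (cy c) - Finsupp.mapDomain sp (cy c') :=
        map_sub (Finsupp.mapDomain.addMonoidHom sp : (Vc I K1 →₀ ℤ) →+ (Vc I K →₀ ℤ)) _ _
      rw [e1, cy_map, cy_map]
    rw [e]
    have e2 : N • (cy (c.map sp) - cy (c'.map sp)) =
        N • (cy (c.map sp) - cy (ci.map sp)) - N • (cy (c'.map sp) - cy (ci.map sp)) := by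
      rw [← smul_sub]
      congr 1
      abel
    rw [e2]
    exact h3

end SZ
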