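import Pool.Agent.H71.SZ.Def

/-! # SZ.LiftK : every algebraically closed field is the residue field of an algebraically closed valued field of characteristic zero (about 250 lines)

Characteristic zero: `K1 = Om K` and the place `tt K ↦ 0` (`H68.BB.place_exists K 0`), `Place.isLocal`, `x = tt K`.
Characteristic `p`: `W = WittVector p K` is a discrete valuation ring (`K` is perfect) of characteristic zero, `c = WittVector.constantCoeff : W → K` is surjective with kernel generated by `p`.  `K1 = AlgebraicClosure (FractionRing W)`.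
As in `Pool/Agent/H68/BB/Plc.lean`: `Ideal.image_subset_nonunits_valuationSubring` for the image of `W` in `K1` and the ideal generated by `p` gives `V0`; `r : V0 → κ` the residue map, `ι : K → κ` induced by `W → κ` (`p ↦ 0`);
every `b ∈ V0` has a nonzero polynomial over `W` which vanishes at `b` (`IsFractionRing.isAlgebraic_iff`); divide it by the highest power of `p` dividing all coefficients (`WfDvdMonoid.max_power_factor` for the prime `C p` of `W[X]`, as there with `X - C u`), reduce modulo `p`: `r b` is algebraic over `K`;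
so `ι` is bijective (`IsAlgClosed.ringHom_bijective_of_isIntegral`).  `x = p`. -/

namespace SZ

open H68.BB Polynomial

theorem lift_zero (K : Type) [Field K] [IsAlgClosed K] [CharZero K] :
    ∃ (K1 : Type) (_ : Field K1) (_ : IsAlgClosed K1) (_ : CharZero K1) (V0 : ValuationSubring K1) (φ0 : V0 →+* K),
      IsLocalHom φ0 ∧ Function.Surjective φ0 ∧ ∃ x : K1, x ≠ 0 ∧ Rd V0 φ0 x 0 := by
  obtain ⟨π, h, hφ⟩ := place_exists K (0 : K)
  have h0 : CharZero (Om K) := charZero_of_injective_algebraMap (algebraMap K (Om K)).injective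
  refine ⟨Om K, inferInstance, inferInstance, h0, π.V, π.φ, Place.isLocal π, fun c => ?_, tt K, ?_, h, hφ⟩
  · obtain ⟨h1, hc⟩ := π.const c
    exact ⟨_, hc⟩
  · have h1 := tt_ne K 0
    rwa [show cst (0 : K) = 0 from map_zero _] at h1

private theorem lift_gen {W K : Type} [CommRing W] [IsDomain W] [IsNoetherianRing W] [CharZero W] [Field K] [IsAlgClosed K]
    (c : W →+* K) (hc : Function.Surjective c) (q : W) (hq : Prime q) (hker : ∀ w, c w = 0 → q ∣ w) :
    ∃ (K1 : Type) (_ : Field K1) (_ : IsAlgClosed K1) (_ : CharZero K1) (V0 : ValuationSubring K1) (φ0 : V0 →+* K),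
      IsLocalHom φ0 ∧ Function.Surjective φ0 ∧ ∃ x : K1, x ≠ 0 ∧ Rd V0 φ0 x 0 := by
  classical
  let L := AlgebraicClosure (FractionRing W)
  let f : W →+* L := algebraMap W L
  have hf : Function.Injective f := by
    change Function.Injective (algebraMap W (AlgebraicClosure (FractionRing W)))
    rw [IsScalarTower.algebraMap_eq W (FractionRing W) (AlgebraicClosure (FractionRing W))]
    exact (algebraMap (FractionRing W) (AlgebraicClosure (FractionRing W))).injective.comp (IsFractionRing.injective W (FractionRing W))
  have hL : CharZero L := charZero_of_injective_algebraMap (R := W) hf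
  let e : W ≃+* f.range := RingEquiv.ofBijective f.rangeRestrict
    ⟨fun a b hab => hf (congrArg Subtype.val hab), f.rangeRestrict_surjective⟩
  let I : Ideal f.range := Ideal.comap (e.symm : f.range →+* W) (Ideal.span {q})
  have hI : I ≠ ⊤ := by
    refine Ideal.comap_ne_top _ ?_
    rw [Ne, Ideal.span_singleton_eq_top]
    exact hq.not_isUnit
  obtain ⟨B, hAB, hIB⟩ := Ideal.image_subset_nonunits_valuationSubring I hI
  have hmem : ∀ w : W, f w ∈ B := fun w => hAB ⟨w, rfl⟩
  let fB : W →+* B := f.codRestrict B.toSubring hmem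
  let κ := IsLocalRing.ResidueField B
  let r : B →+* κ := IsLocalRing.residue B
  have hrq : r (fB q) = 0 := by
    change IsLocalRing.residue B _ = 0
    rw [IsLocalRing.residue_eq_zero_iff]
    have h1 : f q ∈ (B.nonunits : Set L) := by
      apply hIB
      refine ⟨e q, ?_, rfl⟩
      change e q ∈ Ideal.comap _ _
      rw [Ideal.mem_comap]
      change e.symm (e q) ∈ _
      rw [RingEquiv.symm_apply_apply]
      exact Ideal.mem_span_singleton_self _
    obtain ⟨ha, h2⟩ := ValuationSubring.mem_nonunits_iff_exists_mem_maximalIdeal.mp h1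
    exact h2
  have hkk : RingHom.ker c ≤ RingHom.ker (r.comp fB) := by
    intro w hw
    rw [RingHom.mem_ker] at hw ⊢
    obtain ⟨v, rfl⟩ := hker w hw
    rw [map_mul]
    change r (fB q) * _ = 0
    rw [hrq, zero_mul]
  let ι : K →+* κ := (c.liftOfSurjective hc) ⟨r.comp fB, hkk⟩
  have hι : ι.comp c = r.comp fB := RingHom.liftOfSurjective_comp c hc ⟨r.comp fB, hkk⟩
  have hint : ι.IsIntegral := by
    intro b'
    obtain ⟨b, rfl⟩ := IsLocalRing.residue_surjective b'
    have hb : IsAlgebraic W (b : L) :=
      (IsFractionRing.isAlgebraic_iff W (FractionRing W) L).mpr (Algebra.IsAlgebraic.isAlgebraic _)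
    obtain ⟨G, hG, hGb⟩ := hb
    have hirr : Irreducible (C q : W[X]) := (Polynomial.prime_C_iff.mpr hq).irreducible
    obtain ⟨n, G', hnd, hGG⟩ := WfDvdMonoid.max_power_factor hG hirr
    have hG'b : aeval (b : L) G' = 0 := by
      rw [hGG, map_mul, map_pow, aeval_C, mul_eq_zero] at hGb
      rcases hGb with h | h
      · exfalso
        have h3 := eq_zero_of_pow_eq_zero h
        exact hq.ne_zero (hf (h3.trans (map_zero f).symm))
      · exact h
    have hne : G'.map c ≠ 0 := by
      intro h0
      apply hnd
      rw [C_dvd_iff_dvd_coeff]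
      intro i
      apply hker
      have h4 := congrArg (fun g => g.coeff i) h0
      simpa [coeff_map] using h4
    have hev2 : eval₂ (r.comp fB) (r b) G' = 0 := by
      have h5 : eval₂ fB b G' = 0 := by
        apply Subtype.val_injective
        have h6 : ((eval₂ fB b G' : B) : L) = eval₂ (B.subtype.comp fB) (B.subtype b) G' := by
          rw [← hom_eval₂]
          rfl
        rw [h6]
        exact hG'b
      rw [← hom_eval₂, h5, map_zero]
    have hev3 : eval₂ ι (r b) (G'.map c) = 0 := by
      rw [eval₂_map, hι]
      exact hev2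
    let _ : Algebra K κ := ι.toAlgebra
    have halg : IsAlgebraic K (r b) := ⟨G'.map c, hne, hev3⟩
    exact halg.isIntegral
  have hbij := IsAlgClosed.ringHom_bijective_of_isIntegral ι hint
  let E : K ≃+* κ := RingEquiv.ofBijective ι hbij
  have hsurj : Function.Surjective ((E.symm : κ →+* K).comp r) :=
    E.symm.surjective.comp IsLocalRing.residue_surjective
  have hloc : IsLocalHom ((E.symm : κ →+* K).comp r) := by
    have hmax : (RingHom.ker ((E.symm : κ →+* K).comp r)).IsMaximal := RingHom.ker_isMaximal_of_surjective _ hsurj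
    have hk := IsLocalRing.eq_maximalIdeal hmax
    refine ⟨fun a ha => ?_⟩
    by_contra hna
    have h1 : a ∈ IsLocalRing.maximalIdeal B := (IsLocalRing.mem_maximalIdeal a).mpr hna
    rw [← hk, RingHom.mem_ker] at h1
    exact ha.ne_zero h1
  refine ⟨L, inferInstance, inferInstance, hL, B, (E.symm : κ →+* K).comp r, hloc, hsurj, f q, ?_, hmem q, ?_⟩
  · intro h0
    exact hq.ne_zero (hf (h0.trans (map_zero f).symm))
  · change E.symm (r (fB q)) = 0
    rw [hrq, map_zero]

theorem lift_p (K : Type) [Field K] [IsAlgClosed K] (p : ℕ) [Fact p.Prime] [CharP K p] :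
    ∃ (K1 : Type) (_ : Field K1) (_ : IsAlgClosed K1) (_ : CharZero K1) (V0 : ValuationSubring K1) (φ0 : V0 →+* K),
      IsLocalHom φ0 ∧ Function.Surjective φ0 ∧ ∃ x : K1, x ≠ 0 ∧ Rd V0 φ0 x 0 := by
  have hpz : ((p : ℕ) : WittVector p K) ≠ 0 := WittVector.p_nonzero p K
  have hch : CharZero (WittVector p K) := by
    obtain ⟨q, hq⟩ := CharP.exists (WittVector p K)
    rcases CharP.char_is_prime_or_zero (WittVector p K) q with h | h
    · exfalso
      have h1 : ((q : ℕ) : WittVector p K) = 0 := CharP.cast_eq_zero _ q
      have h2 : ((q : ℕ) : K) = 0 := by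
        rw [← map_natCast (WittVector.constantCoeff : WittVector p K →+* K) q, h1, map_zero]
      have h3 : p ∣ q := (CharP.cast_eq_zero_iff K p q).1 h2
      have h4 : p = q := (Nat.prime_dvd_prime_iff_eq (Fact.out : p.Prime) h).1 h3
      rw [← h4] at h1
      exact hpz h1
    · subst h
      exact CharP.charP_to_charZero _
  refine lift_gen (WittVector.constantCoeff : WittVector p K →+* K) (WittVector.constantCoeff_surjective p)
    ((p : ℕ) : WittVector p K) (WittVector.irreducible p).prime ?_
  · intro w hw
    have h1 : w ∈ RingHom.ker (WittVector.constantCoeff : WittVector p K →+* K) := hw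
    rw [WittVector.ker_constantCoeff, Ideal.mem_span_singleton] at h1
    exact h1

theorem lift_exists (K : Type) [Field K] [IsAlgClosed K] :
    ∃ (K1 : Type) (_ : Field K1) (_ : IsAlgClosed K1) (_ : CharZero K1) (V0 : ValuationSubring K1) (φ0 : V0 →+* K),
      IsLocalHom φ0 ∧ Function.Surjective φ0 ∧ ∃ x : K1, x ≠ 0 ∧ Rd V0 φ0 x 0 := by
  obtain ⟨p, hp⟩ := CharP.exists K
  rcases CharP.char_is_prime_or_zero K p with h | h
  · have : Fact p.Prime := ⟨h⟩
    exact lift_p K p
  · subst h
    have : CharZero K := CharP.charP_to_charZero K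
    exact lift_zero K

end SZ
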