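import Pool.Agent.H71.SZ.Def
import Pool.Agent.H34.ES.Def

/-! # SZ.LiftW : lifting the Weierstrass equation and points to characteristic zero (about 200 lines)

`lift_form`: a homogeneous polynomial over `K` is the coefficientwise reduction of a homogeneous polynomial of the same degree over `K1` (sum over the support of monomials with lifted coefficients, `φ0` surjective).
`lift_ab`: lifts `A`, `B` of `a`, `b`.  Replace `B` by `B + x X_0^(6n)` if `B = 0` (`Rd V0 φ0 x 0`, `x ≠ 0`): `B ≠ 0`.  `K1` is algebraically closed and `6 n > 0`, so `B` has a zero `P0 = (p0 : p1) ≠ 0` (dehomogenise: `B(1, T)` is constant or has a root;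
if `B(1, T)` is a nonzero constant then `B = c X_0^(6n)` vanishes at `(0, 1)`; or: `MvPolynomial` of degree `6n > 0` in two variables).  If `A(P0) = 0` replace `A` by `A + x X_i^(4n)` with `p_i ≠ 0`: `A(P0) ≠ 0`.  Then `c A^3 = d B^2` gives `c = 0` (value at `P0`) and `d = 0`.
`lift_pt`: lift `β`, `x`; `y1 ^ 2 = x1 ^ 3 - 3 a1(β1) x1 - 2 b1(β1) =: r ∈ V0`, `φ0 r = y ^ 2`; `y1` is integral, `φ0 y1 = y` or `= - y`; take `y1` or `- y1`. -/

namespace SZ

open H68.BB MvPolynomial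

variable {K1 K : Type} [Field K1] [Field K] {V0 : ValuationSubring K1} {φ0 : V0 →+* K}

private theorem LiftW_sum {ι : Type} (s : Finset ι) {u : ι → K1} {v : ι → K} (h : ∀ i ∈ s, Rd V0 φ0 (u i) (v i)) :
    Rd V0 φ0 (∑ i ∈ s, u i) (∑ i ∈ s, v i) := by
  classical
  induction s using Finset.induction_on with
  | empty => simpa using (Rd.zero (V := V0) (φ := φ0))
  | insert a s ha ih =>
    rw [Finset.sum_insert ha, Finset.sum_insert ha]
    exact (h a (Finset.mem_insert_self _ _)).add (ih (fun i hi => h i (Finset.mem_insert_of_mem hi)))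

private theorem LiftW_prod {ι : Type} (s : Finset ι) {u : ι → K1} {v : ι → K} (h : ∀ i ∈ s, Rd V0 φ0 (u i) (v i)) :
    Rd V0 φ0 (∏ i ∈ s, u i) (∏ i ∈ s, v i) := by
  classical
  induction s using Finset.induction_on with
  | empty => simpa using (Rd.one (V := V0) (φ := φ0))
  | insert a s ha ih =>
    rw [Finset.prod_insert ha, Finset.prod_insert ha]
    exact (h a (Finset.mem_insert_self _ _)).mul (ih (fun i hi => h i (Finset.mem_insert_of_mem hi)))

theorem lift_form (hs : Function.Surjective φ0) {s d : ℕ} {f : MvPolynomial (Fin s) K} (hf : f.IsHomogeneous d) :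
    ∃ f1 : MvPolynomial (Fin s) K1, f1.IsHomogeneous d ∧ ∀ m, Rd V0 φ0 (coeff m f1) (coeff m f) := by
  classical
  choose g hg using hs
  refine ⟨∑ m ∈ f.support, monomial m ((g (coeff m f) : V0) : K1), ?_, ?_⟩
  · refine IsHomogeneous.sum _ _ _ (fun m hm => ?_)
    refine isHomogeneous_monomial _ ?_
    by_contra hne
    exact (mem_support_iff.1 hm) (hf.coeff_eq_zero hne)
  · intro m
    rw [coeff_sum]
    simp only [coeff_monomial]
    rw [Finset.sum_ite_eq']
    split_ifs with h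
    · exact ⟨(g (coeff m f)).2, hg _⟩
    · rw [notMem_support_iff.1 h]
      exact Rd.zero

/-- the values of a polynomial with reduction `f` at a vector with reduction `β` -/
theorem rd_eval {s : ℕ} {f1 : MvPolynomial (Fin s) K1} {f : MvPolynomial (Fin s) K} (h : ∀ m, Rd V0 φ0 (coeff m f1) (coeff m f))
    {β1 : Fin s → K1} {β : Fin s → K} (hβ : ∀ i, Rd V0 φ0 (β1 i) (β i)) : Rd V0 φ0 (ES.ev f1 β1) (ES.ev f β) := by
  classical
  have key : ∀ (F : Type) [Field F] (g : MvPolynomial (Fin s) F) (γ : Fin s → F) (T : Finset (Fin s →₀ ℕ)),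
      g.support ⊆ T → ES.ev g γ = ∑ m ∈ T, coeff m g * ∏ i, γ i ^ m i := by
    intro F _ g γ T hT
    unfold ES.ev
    rw [aeval_def, eval₂_eq']
    simp only [Algebra.algebraMap_self, RingHom.id_apply]
    refine Finset.sum_subset hT ?_
    intro m _ hm
    rw [notMem_support_iff.1 hm, zero_mul]
  rw [key K1 f1 β1 (f1.support ∪ f.support) Finset.subset_union_left,
    key K f β (f1.support ∪ f.support) Finset.subset_union_right]
  exact LiftW_sum _ (fun m _ => (h m).mul (LiftW_prod _ (fun i _ => (hβ i).pow _)))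

private theorem LiftW_ev_hom {F : Type} [Field F] {d : ℕ} {B : MvPolynomial (Fin 2) F} (hB : B.IsHomogeneous d) (u : Fin 2 → F) (z : F) :
    ES.ev B (fun i => z * u i) = z ^ d * ES.ev B u := by
  unfold ES.ev
  rw [aeval_def, aeval_def, eval₂_eq', eval₂_eq', Finset.mul_sum]
  refine Finset.sum_congr rfl (fun m hm => ?_)
  have h1 : m.degree = d := by
    by_contra hne
    exact (mem_support_iff.1 hm) (hB.coeff_eq_zero hne)
  have h2 : ∑ i, m i = d := by rw [← h1, Finsupp.degree_eq_sum]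
  have h3 : ∏ i, (z * u i) ^ m i = z ^ d * ∏ i, u i ^ m i := by
    simp only [mul_pow]
    rw [Finset.prod_mul_distrib, Finset.prod_pow_eq_pow_sum, h2]
  rw [h3]; ring

/-- a form of positive degree in two variables has a zero -/
private theorem LiftW_zero {F : Type} [Field F] [IsAlgClosed F] {x : F} (hx : x ≠ 0) (hx1 : x ≠ 1) {d : ℕ} (hd : 0 < d)
    {B : MvPolynomial (Fin 2) F} (hB : B.IsHomogeneous d) : ∃ p : Fin 2 → F, (∃ i, p i ≠ 0) ∧ ES.ev B p = 0 := by
  by_contra hcon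
  have hno : ∀ p : Fin 2 → F, (∃ i, p i ≠ 0) → ES.ev B p ≠ 0 := fun p hp h => hcon ⟨p, hp, h⟩
  -- the two dehomogenisations are constant
  have hg : ∀ v : F → Fin 2 → F, ∀ q : Fin 2 → Polynomial F, (∀ t i, (q i).eval t = v t i) → (∀ t, ∃ i, v t i ≠ 0) →
      ∀ t t', ES.ev B (v t) = ES.ev B (v t') := by
    intro v q hq hv
    have he : ∀ t, (aeval q B).eval t = ES.ev B (v t) := by
      intro t
      unfold ES.ev
      have h1 : ((Polynomial.aeval t).comp (aeval q) : MvPolynomial (Fin 2) F →ₐ[F] F) = aeval (v t) := by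
        ext i
        simp [← hq t i, Polynomial.coe_aeval_eq_eval]
      have h2 := congrArg (fun g : MvPolynomial (Fin 2) F →ₐ[F] F => g B) h1
      simpa [Polynomial.coe_aeval_eq_eval] using h2
    have hdeg : (aeval q B).degree = 0 := by
      by_contra hne
      obtain ⟨t, ht⟩ := IsAlgClosed.exists_root (aeval q B) hne
      exact hno (v t) (hv t) (by rw [← he t]; exact ht)
    intro t t'
    rw [← he, ← he, Polynomial.eq_C_of_degree_eq_zero hdeg]
    simp
  have h1 : ∀ t t' : F, ES.ev B ![1, t] = ES.ev B ![1, t'] := by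
    refine hg (fun t => ![1, t]) ![1, Polynomial.X] ?_ ?_
    · intro t i
      fin_cases i <;> simp
    · intro t; exact ⟨0, by simp⟩
  have h2 : ∀ t t' : F, ES.ev B ![t, 1] = ES.ev B ![t', 1] := by
    refine hg (fun t => ![t, 1]) ![Polynomial.X, 1] ?_ ?_
    · intro t i
      fin_cases i <;> simp
    · intro t; exact ⟨1, by simp⟩
  obtain ⟨z, hz⟩ := IsAlgClosed.exists_pow_nat_eq x hd
  have hz0 : z ≠ 0 := by
    rintro rfl
    rw [zero_pow hd.ne'] at hz
    exact hx hz.symm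
  have h3 : ES.ev B ![z, 1] = x * ES.ev B ![1, z⁻¹] := by
    rw [← hz, ← LiftW_ev_hom hB]
    congr 1
    funext i
    fin_cases i
    · simp
    · simp [hz0]
  have h4 : ES.ev B ![1, z⁻¹] = ES.ev B ![(1 : F), 1] := h1 _ _
  have h5 : ES.ev B ![z, 1] = ES.ev B ![(1 : F), 1] := h2 _ _
  have h6 : ES.ev B ![(1 : F), 1] ≠ 0 := hno _ ⟨0, by simp⟩
  rw [h4, h5] at h3
  have h7 : (x - 1) * ES.ev B ![(1 : F), 1] = 0 := by linear_combination -h3
  rcases mul_eq_zero.1 h7 with h8 | h8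
  · exact hx1 (sub_eq_zero.1 h8)
  · exact h6 h8

private theorem LiftW_coeff_add {x : K1} (hx0 : Rd V0 φ0 x 0) {d : ℕ} (i : Fin 2) {g1 : MvPolynomial (Fin 2) K1}
    {g : MvPolynomial (Fin 2) K} (h : ∀ m, Rd V0 φ0 (coeff m g1) (coeff m g)) (m : Fin 2 →₀ ℕ) :
    Rd V0 φ0 (coeff m (g1 + monomial (Finsupp.single i d) x)) (coeff m g) := by
  classical
  rw [coeff_add, coeff_monomial]
  have h0 : Rd V0 φ0 (if Finsupp.single i d = m then x else 0) 0 := by
    split_ifs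
    · exact hx0
    · exact Rd.zero
  have := (h m).add h0
  rwa [add_zero] at this

private theorem LiftW_hom_add {d : ℕ} (i : Fin 2) {x : K1} {g1 : MvPolynomial (Fin 2) K1} (h : g1.IsHomogeneous d) :
    (g1 + monomial (Finsupp.single i d) x).IsHomogeneous d := by
  refine h.add (isHomogeneous_monomial _ ?_)
  simp

theorem lift_ab [IsAlgClosed K1] (hs : Function.Surjective φ0) {x : K1} (hx : x ≠ 0) (hx0 : Rd V0 φ0 x 0) {n : ℕ} (hn : 0 < n)
    {a b : MvPolynomial (Fin 2) K} (ha : a.IsHomogeneous (4 * n)) (hb : b.IsHomogeneous (6 * n)) :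
    ∃ a1 b1 : MvPolynomial (Fin 2) K1, a1.IsHomogeneous (4 * n) ∧ b1.IsHomogeneous (6 * n) ∧
      (∀ m, Rd V0 φ0 (coeff m a1) (coeff m a)) ∧ (∀ m, Rd V0 φ0 (coeff m b1) (coeff m b)) ∧
      ∀ c d : K1, c • a1 ^ 3 = d • b1 ^ 2 → c = 0 ∧ d = 0 := by
  classical
  have hx1 : x ≠ 1 := by
    rintro rfl
    exact one_ne_zero (Rd.one.unique hx0)
  -- the lift of `b`
  obtain ⟨b1, hb1, hb2, hb3⟩ : ∃ b1 : MvPolynomial (Fin 2) K1, b1.IsHomogeneous (6 * n) ∧
      (∀ m, Rd V0 φ0 (coeff m b1) (coeff m b)) ∧ b1 ≠ 0 := by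
    obtain ⟨B, hB, hB1⟩ := lift_form (V0 := V0) (φ0 := φ0) hs hb
    by_cases hB0 : B = 0
    · refine ⟨B + monomial (Finsupp.single 0 (6 * n)) x, LiftW_hom_add 0 hB, LiftW_coeff_add hx0 0 hB1, ?_⟩
      rw [hB0, zero_add]
      intro h
      exact hx (monomial_eq_zero.1 h)
    · exact ⟨B, hB, hB1, hB0⟩
  obtain ⟨p, ⟨i, hi⟩, hp⟩ := LiftW_zero hx hx1 (by omega : 0 < 6 * n) hb1
  obtain ⟨a1, ha1, ha2, ha3⟩ : ∃ a1 : MvPolynomial (Fin 2) K1, a1.IsHomogeneous (4 * n) ∧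
      (∀ m, Rd V0 φ0 (coeff m a1) (coeff m a)) ∧ ES.ev a1 p ≠ 0 := by
    obtain ⟨A, hA, hA1⟩ := lift_form (V0 := V0) (φ0 := φ0) hs ha
    by_cases hA0 : ES.ev A p = 0
    · refine ⟨A + monomial (Finsupp.single i (4 * n)) x, LiftW_hom_add i hA, LiftW_coeff_add hx0 i hA1, ?_⟩
      unfold ES.ev at hA0 ⊢
      rw [map_add, hA0, zero_add, aeval_monomial, Finsupp.prod_single_index (by simp)]
      simp only [Algebra.algebraMap_self, RingHom.id_apply]
      exact mul_ne_zero hx (pow_ne_zero _ hi)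
    · exact ⟨A, hA, hA1, hA0⟩
  refine ⟨a1, b1, ha1, hb1, ha2, hb2, ?_⟩
  intro c d hcd
  have h1 : c * ES.ev a1 p ^ 3 = d * ES.ev b1 p ^ 2 := by
    have := congrArg (fun g => aeval p g) hcd
    simpa [ES.ev] using this
  rw [hp] at h1
  have hc : c = 0 := by
    have h2 : c * ES.ev a1 p ^ 3 = 0 := by rw [h1]; ring
    exact (mul_eq_zero.1 h2).resolve_right (pow_ne_zero _ ha3)
  refine ⟨hc, ?_⟩
  rw [hc, zero_smul] at hcd
  rcases smul_eq_zero.1 hcd.symm with h | h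
  · exact h
  · exact absurd (eq_zero_of_pow_eq_zero h) hb3

/-- the coordinates of `P` reduce to those of `p` -/
def RdP (V0 : ValuationSubring K1) (φ0 : V0 →+* K) {s : ℕ} (P : ES.Pt s K1) (p : ES.Pt s K) : Prop :=
  (∀ i, Rd V0 φ0 (P.β i) (p.β i)) ∧ Rd V0 φ0 P.x p.x ∧ Rd V0 φ0 P.y p.y

theorem lift_pt [IsAlgClosed K1] (hs : Function.Surjective φ0) {n : ℕ} {a b : MvPolynomial (Fin 2) K}
    {a1 b1 : MvPolynomial (Fin 2) K1} (ha : ∀ m, Rd V0 φ0 (coeff m a1) (coeff m a)) (hb : ∀ m, Rd V0 φ0 (coeff m b1) (coeff m b))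
    {p : ES.Pt 2 K} (hp : ES.OnW (ES.P1 n a b) p) : ∃ P : ES.Pt 2 K1, ES.OnW (ES.P1 n a1 b1) P ∧ RdP V0 φ0 P p := by
  obtain ⟨hnz, _, heq⟩ := hp
  have hl : ∀ k : K, ∃ u : K1, Rd V0 φ0 u k := by
    intro k
    obtain ⟨u, hu⟩ := hs k
    exact ⟨u, u.2, hu⟩
  choose β1 hβ1 using fun i => hl (p.β i)
  obtain ⟨x1, hx1⟩ := hl p.x
  have hr : Rd V0 φ0 (x1 ^ 3 - 3 * ES.ev a1 β1 * x1 - 2 * ES.ev b1 β1) (p.y ^ 2) := by
    rw [heq]
    exact (((hx1.pow 3).sub ((Rd.three.mul (rd_eval ha hβ1)).mul hx1)).sub (Rd.two.mul (rd_eval hb hβ1)))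
  obtain ⟨y1, hy1⟩ := IsAlgClosed.exists_pow_nat_eq (x1 ^ 3 - 3 * ES.ev a1 β1 * x1 - 2 * ES.ev b1 β1) (n := 2) (by norm_num)
  rw [← hy1] at hr
  have hy1m : y1 ∈ V0 := by
    rcases V0.mem_or_inv_mem y1 with h | h
    · exact h
    · by_cases h0 : y1 = 0
      · rw [h0]; exact V0.zero_mem
      · have : y1 = y1 ^ 2 * y1⁻¹ := by field_simp
        rw [this]
        exact V0.mul_mem _ _ hr.mem h
  have hy2 : Rd V0 φ0 y1 (φ0 ⟨y1, hy1m⟩) := Rd.of_mem hy1m
  have hsq : (φ0 ⟨y1, hy1m⟩) ^ 2 = p.y ^ 2 := (hy2.pow 2).unique hr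
  obtain ⟨y2, hy3, hy4⟩ : ∃ y2 : K1, y2 ^ 2 = y1 ^ 2 ∧ Rd V0 φ0 y2 p.y := by
    rcases sq_eq_sq_iff_eq_or_eq_neg.1 hsq with h | h
    · exact ⟨y1, rfl, h ▸ hy2⟩
    · refine ⟨-y1, by ring, ?_⟩
      have := hy2.neg
      rwa [h, neg_neg] at this
  refine ⟨⟨β1, x1, y2⟩, ⟨?_, ?_, ?_⟩, hβ1, hx1, hy4⟩
  · rcases hnz with h | h | h
    · left
      intro h0
      apply h
      funext i
      have h1 := hβ1 i
      have h2 : β1 i = 0 := congrFun h0 i
      rw [h2] at h1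
      exact h1.unique Rd.zero
    · right; left
      exact hx1.ne_zero h
    · right; right
      exact hy4.ne_zero h
  · intro f hf
    exact absurd hf (Set.notMem_empty f)
  · show y2 ^ 2 = x1 ^ 3 - 3 * ES.ev a1 β1 * x1 - 2 * ES.ev b1 β1
    rw [hy3, hy1]

end SZ
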