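import Pool.Agent.H71.SZ.Spc

/-! # SZ.Chow : Chow forms and specialisation (about 180 lines)

`chow_spc`: for two polynomials `f, g` over `F` whose multiples `e f`, `e' g` reduce coefficientwise to `f'`, `g'`, the multiple `e e' f g` reduces to
`f' g'` (`MvPolynomial.coeff_mul`, sums of `Rd`).  For one point: `e = ∏ j, c j ^ R.W j` (`mon_scl`), the coefficients of `lin R P` are `mon R P b` at `single b 1` and `0` elsewhere. -/

namespace SZ

open H68.BB Polynomial

variable {J : Type} {I : J → Type} {w : ∀ j, I j → ℕ} [Fintype J] [∀ j, Fintype (I j)] (R : Vr w)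

theorem mon_scl {F : Type} [Field F] (c : J → F) (P : Vc I F) (b : R.B) :
    mon R (scl w c P) b = (∏ j, c j ^ R.W j) * mon R P b := by
  unfold mon scl
  simp only [mul_pow, Finset.prod_mul_distrib]
  congr 1
  refine Finset.prod_congr rfl fun j _ => ?_
  rw [← R.wt b j, ← Finset.prod_pow_eq_pow_sum]
  refine Finset.prod_congr rfl fun i _ => ?_
  rw [← pow_mul, mul_comm]

theorem mon_mp {F G : Type} [Field F] [Field G] (f : F →+* G) (P : Vc I F) (b : R.B) : mon R (mp f P) b = f (mon R P b) := by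
  unfold mon mp
  simp only [map_prod, map_pow]

private theorem coeff_lin' {F : Type} [Field F] (P : Vc I F) (m : R.B →₀ ℕ) :
    MvPolynomial.coeff m (lin R P) = ∑ b, mon R P b * MvPolynomial.coeff m (MvPolynomial.X b : MvPolynomial R.B F) := by
  unfold lin
  rw [MvPolynomial.coeff_sum]
  simp only [MvPolynomial.coeff_C_mul]

theorem coeff_lin {F : Type} [Field F] (P : Vc I F) (b : R.B) :
    MvPolynomial.coeff (Finsupp.single b 1) (lin R P) = mon R P b := by
  classical
  rw [coeff_lin', Finset.sum_eq_single b]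
  · rw [MvPolynomial.coeff_X, if_pos rfl, mul_one]
  · intro b' _ hb'
    rw [MvPolynomial.coeff_X, if_neg, mul_zero]
    intro h
    exact hb' ((Finsupp.single_left_inj one_ne_zero).1 h)
  · intro h
    exact absurd (Finset.mem_univ b) h

theorem lin_ne {F : Type} [Field F] {P : Vc I F} (h : NZ P) : lin R P ≠ 0 := by
  obtain ⟨b, hb⟩ := R.nz F P h
  intro h0
  have h1 := coeff_lin R P b
  rw [h0, MvPolynomial.coeff_zero] at h1
  exact hb h1.symm

theorem chow_ne {F : Type} [Field F] {S : Multiset (Vc I F)} (h : ∀ P ∈ S, NZ P) : chow R S ≠ 0 := by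
  unfold chow
  refine Multiset.prod_ne_zero fun h0 => ?_
  obtain ⟨P, hP, h1⟩ := Multiset.mem_map.1 h0
  exact lin_ne R (h P hP) h1

private theorem lin_mp {F G : Type} [Field F] [Field G] (f : F →+* G) (P : Vc I F) :
    lin R (mp f P) = MvPolynomial.map f (lin R P) := by
  unfold lin
  rw [map_sum]
  refine Finset.sum_congr rfl fun b _ => ?_
  rw [map_mul, MvPolynomial.map_C, MvPolynomial.map_X, mon_mp]

theorem chow_mp {F G : Type} [Field F] [Field G] (f : F →+* G) (S : Multiset (Vc I F)) :
    chow R (S.map (mp f)) = MvPolynomial.map f (chow R S) := by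
  unfold chow
  rw [map_multiset_prod, Multiset.map_map, Multiset.map_map]
  congr 1
  refine Multiset.map_congr rfl fun P _ => ?_
  exact lin_mp R f P

section
variable {F L : Type} [Field F] [Field L] {V : ValuationSubring F} {φ : V →+* L}

private theorem rd_sum {ι : Type} (s : Finset ι) {x : ι → F} {a : ι → L} (h : ∀ i ∈ s, Rd V φ (x i) (a i)) :
    Rd V φ (∑ i ∈ s, x i) (∑ i ∈ s, a i) := by
  classical
  induction s using Finset.induction_on with
  | empty => exact Rd.zero
  | insert i s hi ih =>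
    rw [Finset.sum_insert hi, Finset.sum_insert hi]
    exact (h i (Finset.mem_insert_self i s)).add (ih fun j hj => h j (Finset.mem_insert_of_mem hj))

private theorem rd_prod {ι : Type} (s : Finset ι) {x : ι → F} {a : ι → L} (h : ∀ i ∈ s, Rd V φ (x i) (a i)) :
    Rd V φ (∏ i ∈ s, x i) (∏ i ∈ s, a i) := by
  classical
  induction s using Finset.induction_on with
  | empty => exact Rd.one
  | insert i s hi ih =>
    rw [Finset.prod_insert hi, Finset.prod_insert hi]
    exact (h i (Finset.mem_insert_self i s)).mul (ih fun j hj => h j (Finset.mem_insert_of_mem hj))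

private theorem rd_X {B : Type} (m : B →₀ ℕ) (b : B) :
    Rd V φ (MvPolynomial.coeff m (MvPolynomial.X b : MvPolynomial B F)) (MvPolynomial.coeff m (MvPolynomial.X b : MvPolynomial B L)) := by
  classical
  rw [MvPolynomial.coeff_X, MvPolynomial.coeff_X]
  split_ifs
  · exact Rd.one
  · exact Rd.zero

/-- one point -/
private theorem lin_spc {P : Vc I F} {p : Vc I L} (h : Spc w V φ P p) :
    ∃ e : F, e ≠ 0 ∧ ∀ m, Rd V φ (e * MvPolynomial.coeff m (lin R P)) (MvPolynomial.coeff m (lin R p)) := by
  choose _ c hc0 hc using h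
  refine ⟨∏ j, c j ^ R.W j, Finset.prod_ne_zero_iff.2 fun j _ => pow_ne_zero _ (hc0 j), fun m => ?_⟩
  rw [coeff_lin', coeff_lin', Finset.mul_sum]
  refine rd_sum _ fun b _ => ?_
  rw [← mul_assoc, ← mon_scl]
  refine Rd.mul ?_ (rd_X m b)
  exact rd_prod _ fun j _ => rd_prod _ fun i _ => (hc j i).pow _

end

theorem chow_spc {F L : Type} [Field F] [Field L] {V : ValuationSubring F} {φ : V →+* L} {S : Multiset (Vc I F)}
    {c : Multiset (Vc I L)} (h : Multiset.Rel (Spc w V φ) S c) :
    ∃ e : F, e ≠ 0 ∧ ∀ m, Rd V φ (e * MvPolynomial.coeff m (chow R S)) (MvPolynomial.coeff m (chow R c)) := by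
  classical
  induction h with
  | zero =>
    refine ⟨1, one_ne_zero, fun m => ?_⟩
    rw [one_mul]
    unfold chow
    rw [Multiset.map_zero, Multiset.map_zero, Multiset.prod_zero, Multiset.prod_zero, MvPolynomial.coeff_one, MvPolynomial.coeff_one]
    split_ifs
    · exact Rd.one
    · exact Rd.zero
  | @cons P p S c hP _ ih =>
    obtain ⟨e, he, hm⟩ := ih
    obtain ⟨e', he', hm'⟩ := lin_spc R hP
    refine ⟨e' * e, mul_ne_zero he' he, fun m => ?_⟩
    have h1 : chow R (P ::ₘ S) = lin R P * chow R S := by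
      unfold chow
      rw [Multiset.map_cons, Multiset.prod_cons]
    have h2 : chow R (p ::ₘ c) = lin R p * chow R c := by
      unfold chow
      rw [Multiset.map_cons, Multiset.prod_cons]
    rw [h1, h2, MvPolynomial.coeff_mul, MvPolynomial.coeff_mul, Finset.mul_sum]
    refine rd_sum _ fun x _ => ?_
    rw [mul_mul_mul_comm]
    exact (hm' x.1).mul (hm x.2)

/-- two reductions of proportional families are proportional -/
theorem rd_uniq {ι : Type} {F L : Type} [Field F] [Field L] {V : ValuationSubring F} {φ : V →+* L} [IsLocalHom φ]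
    {x : ι → F} {a b : ι → L} {e e' : F} (he : e ≠ 0) (he' : e' ≠ 0) (h : ∀ m, Rd V φ (e * x m) (a m))
    (h' : ∀ m, Rd V φ (e' * x m) (b m)) (ha : ∃ m, a m ≠ 0) (hb : ∃ m, b m ≠ 0) : ∃ u : L, u ≠ 0 ∧ ∀ m, a m = u * b m := by
  obtain ⟨m0, h0⟩ := ha
  obtain ⟨m1, h1⟩ := hb
  have hx0 : x m0 ≠ 0 := right_ne_zero_of_mul ((h m0).ne_zero h0)
  have hx1 : x m1 ≠ 0 := right_ne_zero_of_mul ((h' m1).ne_zero h1)
  have h2 : Rd V φ (e' / e) (b m0 / a m0) := by
    have h3 := (h' m0).div (h m0) h0
    rwa [mul_div_mul_right _ _ hx0] at h3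
  have h4 : Rd V φ (e / e') (a m1 / b m1) := by
    have h3 := (h m1).div (h' m1) h1
    rwa [mul_div_mul_right _ _ hx1] at h3
  have h5 : (b m0 / a m0) * (a m1 / b m1) = 1 := by
    have h6 := h2.mul h4
    have h7 : e' / e * (e / e') = 1 := by field_simp
    rw [h7] at h6
    exact h6.unique Rd.one
  refine ⟨a m1 / b m1, right_ne_zero_of_mul (by rw [h5]; exact one_ne_zero), fun m => ?_⟩
  have h8 := h4.mul (h' m)
  have h9 : e / e' * (e' * x m) = e * x m := by field_simp
  rw [h9] at h8
  exact (h m).unique h8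

end SZ
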