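import Pool.Agent.H71.SZ.Chow

/-! # SZ.GalP : the Chow form of a Galois stable multiset is defined over `K(t)` (about 100 lines)

`σ (coeff m (chow R S)) = coeff m (chow R (S.map (mp σ))) = coeff m (chow R S)` (`chow_mp`, `MvPolynomial.coeff_map`), so the coefficients are in `RatFunc K` (characteristic zero:
`InfiniteGalois.mem_bot_iff_fixed`, `IsAlgClosure.isGalois` or the instance for the algebraic closure of a perfect field).  A common denominator `g` of the finitely many coefficients
(`IsLocalization.exist_integer_multiples_of_finset (nonZeroDivisors K[X])`) gives `G`; `G ≠ 0` by `chow_ne`. -/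

namespace SZ

open H68.BB Polynomial

variable {J : Type} {I : J → Type} {w : ∀ j, I j → ℕ} [Fintype J] [∀ j, Fintype (I j)] (R : Vr w)

theorem gal_poly {K : Type} [Field K] [CharZero K] {S : Multiset (Vc I (Om K))} (hS : ∀ P ∈ S, NZ P) (h : Gst S) :
    ∃ g : K[X], g ≠ 0 ∧ ∃ G : MvPolynomial R.B K[X], G ≠ 0 ∧ MvPolynomial.map (algebraMap K[X] (Om K)) G =
      MvPolynomial.C (algebraMap K[X] (Om K) g) * chow R S := by
  classical
  let _ : IsGalois (RatFunc K) (Om K) := by
    unfold Om
    infer_instance
  have h1 : ∀ (σ : Om K ≃ₐ[RatFunc K] Om K) (m), σ (MvPolynomial.coeff m (chow R S)) =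
      MvPolynomial.coeff m (chow R S) := by
    intro σ m
    have h2 := chow_mp R (σ : Om K →+* Om K) S
    have h3 : S.map (mp (σ : Om K →+* Om K)) = S := h σ
    rw [h3] at h2
    have h4 := congrArg (MvPolynomial.coeff m) h2
    rw [MvPolynomial.coeff_map] at h4
    exact h4.symm
  have h2 : ∀ m, ∃ q : RatFunc K, algebraMap (RatFunc K) (Om K) q = MvPolynomial.coeff m (chow R S) := by
    intro m
    have h3 : MvPolynomial.coeff m (chow R S) ∈ (⊥ : IntermediateField (RatFunc K) (Om K)) :=
      (InfiniteGalois.mem_bot_iff_fixed _).2 fun σ => h1 σ m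
    exact IntermediateField.mem_bot.1 h3
  choose q hq using h2
  obtain ⟨b, hb⟩ := IsLocalization.exist_integer_multiples (nonZeroDivisors K[X]) (chow R S).support q
  have h3 : ∀ m, ∃ y : K[X], m ∈ (chow R S).support →
      algebraMap K[X] (Om K) y = algebraMap K[X] (Om K) (b : K[X]) * MvPolynomial.coeff m (chow R S) := by
    intro m
    by_cases hm : m ∈ (chow R S).support
    · obtain ⟨y, hy⟩ := hb m hm
      refine ⟨y, fun _ => ?_⟩
      rw [IsScalarTower.algebraMap_apply K[X] (RatFunc K) (Om K) y, hy, Algebra.smul_def, map_mul, hq,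
        ← IsScalarTower.algebraMap_apply K[X] (RatFunc K) (Om K)]
    · exact ⟨0, fun h => absurd h hm⟩
  choose g hg using h3
  have hb0 : (b : K[X]) ≠ 0 := nonZeroDivisors.ne_zero b.2
  have hinj : Function.Injective (algebraMap K[X] (Om K)) := by
    rw [IsScalarTower.algebraMap_eq K[X] (RatFunc K) (Om K)]
    exact (algebraMap (RatFunc K) (Om K)).injective.comp (RatFunc.algebraMap_injective K)
  have hb1 : algebraMap K[X] (Om K) (b : K[X]) ≠ 0 := fun h =>
    hb0 (hinj (by rw [h, map_zero]))
  have hG : MvPolynomial.map (algebraMap K[X] (Om K)) (∑ m ∈ (chow R S).support, MvPolynomial.monomial m (g m)) =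
      MvPolynomial.C (algebraMap K[X] (Om K) (b : K[X])) * chow R S := by
    refine MvPolynomial.ext _ _ fun m => ?_
    rw [MvPolynomial.coeff_map, MvPolynomial.coeff_sum, MvPolynomial.coeff_C_mul]
    simp only [MvPolynomial.coeff_monomial]
    by_cases hm : m ∈ (chow R S).support
    · rw [Finset.sum_ite_eq' , if_pos hm]
      exact hg m hm
    · rw [Finset.sum_ite_eq', if_neg hm, MvPolynomial.notMem_support_iff.1 hm, mul_zero, map_zero]
  refine ⟨b, hb0, _, ?_, hG⟩
  intro h0
  rw [h0, map_zero] at hG
  refine (mul_ne_zero ?_ (chow_ne R hS)) hG.symm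
  exact fun h => hb1 (MvPolynomial.C_eq_zero.1 h)

end SZ
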