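import Pool.Agent.H71.SZ.Spc

/-! # SZ.Orb : from projectively Galois stable multisets to Galois stable multisets (about 220 lines)

One block `j`: `M := ∏ i, w j i` (or any positive common multiple of the weights).  For `P` with `P j ≠ 0` let `i0` be an index with `P j i0 ≠ 0` chosen as a FUNCTION OF THE SET `{i | P j i ≠ 0}` (`Set.Nonempty.some`), and
`C P := (X ^ M - C ((P j i0)⁻¹ ^ (M / w j i0))).roots`, a multiset of `M` nonzero elements.  `O_j S := S.bind (fun P => (C P).map (fun x => scl w (Function.update 1 j x) P))`.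
For `P = scl w c P'`: `C P = (C P').map (fun x => x / c j)`, so the block `j` of the vectors in `O_j {P}` and `O_j {P'}` are the same, the other blocks differ by the scalars `c j'`; and `C (mp σ P) = (C P).map σ`.
Process all blocks one after the other (induction over a `Finset` of blocks or `Finset.univ.toList`): stable up to scaling in the blocks which are not yet processed, at the end stable.  Specialisation: all the vectors in `O_j {P}` are scalings of `P`, so they specialise to
the same point (`Spc.prp`): `Rel Spc (O_j S) (M • c)`.  `N = ∏ j, M j`. -/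

namespace SZ

open H68.BB Polynomial

variable {J : Type} {I : J → Type} [Fintype J] [∀ j, Fintype (I j)]

/-- `N` works in the passage from projectively stable to stable multisets -/
def OrbN (w : ∀ j, I j → ℕ) (N : ℕ) : Prop :=
  0 < N ∧ ∀ (K : Type) [Field K] [IsAlgClosed K] (S : Multiset (Vc I (Om K))), (∀ P ∈ S, NZ P) → Gpr w S →
    ∃ S' : Multiset (Vc I (Om K)), Gst S' ∧ (∀ P ∈ S', ∃ P' ∈ S, Prp w P P') ∧
      ∀ (π : Place K (Om K)) (c : Multiset (Vc I K)), Multiset.Rel (Spc w π.V π.φ) S c → Multiset.Rel (Spc w π.V π.φ) S' (N • c)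

section aux

variable {F : Type} [Field F]

private theorem some_eq {α : Type} {s s' : Set α} (hs : s = s') (h : s.Nonempty) (h' : s'.Nonempty) : h.some = h'.some := by
  subst hs
  rfl

/-- the constant whose roots of order `M` normalise the block `j` -/
private noncomputable def aa (w : ∀ j, I j → ℕ) (M : ℕ) (j : J) (P : Vc I F) : F :=
  open Classical in if h : {i | P j i ≠ 0}.Nonempty then (P j h.some)⁻¹ ^ (M / w j h.some) else 1

omit [Fintype J] [∀ j, Fintype (I j)] in
private theorem aa_ne (w : ∀ j, I j → ℕ) (M : ℕ) (j : J) (P : Vc I F) : aa w M j P ≠ 0 := by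
  unfold aa
  split_ifs with h
  · exact pow_ne_zero _ (inv_ne_zero h.some_mem)
  · exact one_ne_zero

omit [Fintype J] [∀ j, Fintype (I j)] in
private theorem aa_mp {w : ∀ j, I j → ℕ} {M : ℕ} {j : J} {P : Vc I F} (σ : F →+* F) :
    aa w M j (mp σ P) = σ (aa w M j P) := by
  have hs : {i | mp σ P j i ≠ 0} = {i | P j i ≠ 0} := by
    ext i
    exact (map_ne_zero σ)
  unfold aa
  by_cases h : {i | P j i ≠ 0}.Nonempty
  · have h' : {i | mp σ P j i ≠ 0}.Nonempty := hs ▸ h
    rw [dif_pos h, dif_pos h', some_eq hs h' h, map_pow, map_inv₀]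
    rfl
  · have h' : ¬ {i | mp σ P j i ≠ 0}.Nonempty := hs ▸ h
    rw [dif_neg h, dif_neg h', map_one]

omit [Fintype J] [∀ j, Fintype (I j)] in
private theorem aa_scl {w : ∀ j, I j → ℕ} {M : ℕ} {j : J} (hM : ∀ i, w j i ∣ M) {c : J → F} (hc : c j ≠ 0) {P : Vc I F}
    (hP : P j ≠ 0) : aa w M j P = c j ^ M * aa w M j (scl w c P) := by
  have hs : {i | scl w c P j i ≠ 0} = {i | P j i ≠ 0} := by
    ext i
    constructor
    · intro h h0
      apply h
      show c j ^ w j i * P j i = 0
      rw [h0, mul_zero]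
    · intro h
      exact mul_ne_zero (pow_ne_zero _ hc) h
  have h : {i | P j i ≠ 0}.Nonempty := by
    obtain ⟨i, hi⟩ := Function.ne_iff.1 hP
    exact ⟨i, hi⟩
  have h' : {i | scl w c P j i ≠ 0}.Nonempty := hs ▸ h
  unfold aa
  rw [dif_pos h, dif_pos h', some_eq hs h' h]
  show _ = c j ^ M * (c j ^ w j h.some * P j h.some)⁻¹ ^ (M / w j h.some)
  obtain ⟨m, hm⟩ := hM h.some
  by_cases hw : w j h.some = 0
  · have hM0 : M = 0 := by rw [hm, hw, zero_mul]
    rw [hM0]
    simp
  · have h1 : M / w j h.some = m := by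
      rw [hm]
      exact Nat.mul_div_cancel_left m (Nat.pos_of_ne_zero hw)
    rw [h1, mul_inv, mul_pow, ← mul_assoc, inv_pow (c j ^ w j h.some), ← pow_mul, ← hm, mul_inv_cancel₀ (pow_ne_zero _ hc), one_mul]

variable [IsAlgClosed F]

private theorem card_nth {M : ℕ} (a : F) : (X ^ M - C a : F[X]).roots.card = M := by
  rcases Nat.eq_zero_or_pos M with h | h
  · rw [h, pow_zero, ← C_1, ← C_sub, roots_C, Multiset.card_zero]
  · have h1 := (IsAlgClosed.splits (X ^ M - C a : F[X])).natDegree_eq_card_roots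
    rw [natDegree_X_pow_sub_C] at h1
    exact h1.symm

private theorem nth_scale {M : ℕ} (hM : 0 < M) (a : F) {c : F} (hc : c ≠ 0) :
    (X ^ M - C a : F[X]).roots.map (fun x => c * x) = (X ^ M - C (c ^ M * a) : F[X]).roots := by
  have hs := prod_multiset_X_sub_C_of_monic_of_roots_card_eq (monic_X_pow_sub_C a hM.ne')
    (by rw [natDegree_X_pow_sub_C]; exact card_nth a)
  have hcard := card_nth (M := M) a
  set s := (X ^ M - C a : F[X]).roots with hsdef
  have key : ((s.map (fun x => c * x)).map (fun x => X - C x)).prod = (X ^ M - C (c ^ M * a) : F[X]) := by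
    apply Polynomial.funext
    intro y
    have h1 := congrArg (eval (c⁻¹ * y)) hs
    rw [eval_multiset_prod, Multiset.map_map] at h1
    rw [eval_multiset_prod, Multiset.map_map, Multiset.map_map]
    have h2 : ∀ x, ((eval y ∘ fun x => X - C x) ∘ fun x => c * x) x = c * (eval (c⁻¹ * y) ∘ fun x => X - C x) x := by
      intro x
      simp only [Function.comp_apply, eval_sub, eval_X, eval_C]
      rw [mul_sub, ← mul_assoc, mul_inv_cancel₀ hc, one_mul]
    rw [Multiset.map_congr rfl (fun x _ => h2 x), Multiset.prod_map_mul, h1, Multiset.map_const', Multiset.prod_replicate, hcard]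
    simp only [eval_sub, eval_pow, eval_X, eval_C]
    rw [mul_sub, mul_pow, ← mul_assoc, ← mul_pow, mul_inv_cancel₀ hc, one_pow, one_mul]
  rw [← key, roots_multiset_prod_X_sub_C]

/-- the normalising scalars -/
private noncomputable def cc (w : ∀ j, I j → ℕ) (M : ℕ) (j : J) (P : Vc I F) : Multiset F := (X ^ M - C (aa w M j P) : F[X]).roots

/-- the orbit of a vector -/
private noncomputable def oo [DecidableEq J] (w : ∀ j, I j → ℕ) (M : ℕ) (j : J) (P : Vc I F) : Multiset (Vc I F) :=
  (cc w M j P).map (fun x => scl w (Function.update 1 j x) P)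

omit [Fintype J] [∀ j, Fintype (I j)] [IsAlgClosed F] in
private theorem cc_ne {w : ∀ j, I j → ℕ} {M : ℕ} (hM : 0 < M) {j : J} {P : Vc I F} {x : F} (hx : x ∈ cc w M j P) : x ≠ 0 := by
  rintro rfl
  unfold cc at hx
  have h1 := (mem_roots'.1 hx).2
  rw [IsRoot.def, eval_sub, eval_pow, eval_X, eval_C, zero_pow hM.ne', zero_sub, neg_eq_zero] at h1
  exact aa_ne w M j P h1

omit [Fintype J] [∀ j, Fintype (I j)] in
private theorem cc_mp {w : ∀ j, I j → ℕ} {M : ℕ} {j : J} {P : Vc I F} (σ : F →+* F) :
    cc w M j (mp σ P) = (cc w M j P).map σ := by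
  unfold cc
  rw [aa_mp]
  have h1 : (X ^ M - C (σ (aa w M j P)) : F[X]) = (X ^ M - C (aa w M j P) : F[X]).map σ := by
    rw [Polynomial.map_sub, Polynomial.map_pow, map_X, map_C]
  rw [h1]
  exact ((IsAlgClosed.splits (X ^ M - C (aa w M j P) : F[X])).roots_map σ)

omit [Fintype J] [∀ j, Fintype (I j)] in
private theorem oo_mp [DecidableEq J] {w : ∀ j, I j → ℕ} {M : ℕ} {j : J} {P : Vc I F} (σ : F →+* F) :
    (oo w M j P).map (mp σ) = oo w M j (mp σ P) := by
  unfold oo
  rw [cc_mp, Multiset.map_map, Multiset.map_map]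
  refine Multiset.map_congr rfl fun x _ => ?_
  funext j' i
  show σ (Function.update (1 : J → F) j x j' ^ w j' i * P j' i) = Function.update (1 : J → F) j (σ x) j' ^ w j' i * σ (P j' i)
  rw [map_mul, map_pow]
  by_cases h : j' = j
  · subst h
    rw [Function.update_self, Function.update_self]
  · rw [Function.update_of_ne h, Function.update_of_ne h, Pi.one_apply, map_one]

omit [Fintype J] [∀ j, Fintype (I j)] in
private theorem oo_prp [DecidableEq J] {w : ∀ j, I j → ℕ} {M : ℕ} (hM : 0 < M) {j : J} {P Q : Vc I F} (hQ : Q ∈ oo w M j P) :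
    Prp w Q P := by
  unfold oo at hQ
  obtain ⟨x, hx, rfl⟩ := Multiset.mem_map.1 hQ
  refine ⟨_, fun j' => ?_, rfl⟩
  by_cases h : j' = j
  · subst h
    rw [Function.update_self]
    exact cc_ne hM hx
  · rw [Function.update_of_ne h]
    exact one_ne_zero

omit [Fintype J] [∀ j, Fintype (I j)] in
private theorem oo_card [DecidableEq J] {w : ∀ j, I j → ℕ} {M : ℕ} {j : J} {P : Vc I F} : (oo w M j P).card = M := by
  unfold oo cc
  rw [Multiset.card_map, card_nth]

/-- scalings of the blocks which are not in `D` -/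
private def PD (w : ∀ j, I j → ℕ) (D : Finset J) (P P' : Vc I F) : Prop :=
  ∃ c : J → F, (∀ j, c j ≠ 0) ∧ (∀ j ∈ D, c j = 1) ∧ P = scl w c P'

omit [Fintype J] [∀ j, Fintype (I j)] in
private theorem oo_rel [DecidableEq J] {w : ∀ j, I j → ℕ} {M : ℕ} (hM0 : 0 < M) {j : J} (hM : ∀ i, w j i ∣ M) {D : Finset J}
    {P P' : Vc I F} (h : PD w D P P') (hP' : NZ P') : Multiset.Rel (PD w (insert j D)) (oo w M j P) (oo w M j P') := by
  obtain ⟨c, hc, hcD, rfl⟩ := h
  have h1 : cc w M j P' = (cc w M j (scl w c P')).map (fun x => c j * x) := by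
    unfold cc
    rw [nth_scale hM0 _ (hc j), ← aa_scl hM (hc j) (hP' j)]
  have h2 : oo w M j P' = (cc w M j (scl w c P')).map (fun x => scl w (Function.update 1 j (c j * x)) P') := by
    unfold oo
    rw [h1, Multiset.map_map]
    rfl
  rw [h2]
  unfold oo
  rw [Multiset.rel_map]
  refine Multiset.rel_refl_of_refl_on fun x _ => ?_
  refine ⟨Function.update c j 1, fun j' => ?_, fun j' hj' => ?_, ?_⟩
  · by_cases h : j' = j
    · subst h
      rw [Function.update_self]
      exact one_ne_zero
    · rw [Function.update_of_ne h]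
      exact hc j'
  · by_cases h : j' = j
    · subst h
      rw [Function.update_self]
    · rw [Function.update_of_ne h]
      exact hcD j' ((Finset.mem_insert.1 hj').resolve_left h)
  · funext j' i
    show Function.update (1 : J → F) j x j' ^ w j' i * (c j' ^ w j' i * P' j' i) =
      Function.update c j 1 j' ^ w j' i * (Function.update (1 : J → F) j (c j * x) j' ^ w j' i * P' j' i)
    by_cases h : j' = j
    · subst h
      rw [Function.update_self, Function.update_self, Function.update_self, one_pow, one_mul, mul_pow]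
      ring
    · rw [Function.update_of_ne h, Function.update_of_ne h, Function.update_of_ne h, Pi.one_apply, one_pow, one_mul, one_mul]

omit [Fintype J] [∀ j, Fintype (I j)] [IsAlgClosed F] in
private theorem scl_one (w : ∀ j, I j → ℕ) (P : Vc I F) : scl w (fun _ => (1 : F)) P = P := by
  funext j i
  show (1 : F) ^ w j i * P j i = P j i
  rw [one_pow, one_mul]

private theorem bind_replicate {α : Type} (c : Multiset α) (M : ℕ) : c.bind (fun p => Multiset.replicate M p) = M • c := by
  induction c using Multiset.induction_on with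
  | empty => rw [Multiset.zero_bind, smul_zero]
  | cons a c ih => rw [Multiset.cons_bind, ih, ← Multiset.singleton_add, smul_add, Multiset.nsmul_singleton]

end aux

private theorem orb_D [DecidableEq J] {w : ∀ j, I j → ℕ} (hw : ∀ j i, 0 < w j i) (D : Finset J) :
    ∃ N : ℕ, 0 < N ∧ ∀ (K : Type) [Field K] [IsAlgClosed K] (S : Multiset (Vc I (Om K))), (∀ P ∈ S, NZ P) → Gpr w S →
      ∃ S' : Multiset (Vc I (Om K)), (∀ σ : Om K ≃ₐ[RatFunc K] Om K, Multiset.Rel (PD w D) (S'.map (mp σ)) S') ∧
        (∀ P ∈ S', NZ P ∧ ∃ P' ∈ S, Prp w P P') ∧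
        ∀ (π : Place K (Om K)) (c : Multiset (Vc I K)), Multiset.Rel (Spc w π.V π.φ) S c →
          Multiset.Rel (Spc w π.V π.φ) S' (N • c) := by
  induction D using Finset.induction_on with
  | empty =>
    refine ⟨1, one_pos, fun K _ _ S hS hG => ⟨S, fun σ => ?_, fun P hP => ⟨hS P hP, P, hP, Prp.refl P⟩, fun π c h => ?_⟩⟩
    · refine (hG σ).mono fun P _ P' _ h => ?_
      obtain ⟨c, hc, h1⟩ := h
      exact ⟨c, hc, fun j hj => absurd hj (Finset.notMem_empty j), h1⟩
    · rwa [one_smul]
  | insert j D hj ih =>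
    obtain ⟨N, hN, ih⟩ := ih
    have hM0 : 0 < ∏ i, w j i := Finset.prod_pos fun i _ => hw j i
    have hM : ∀ i, w j i ∣ ∏ i, w j i := fun i => Finset.dvd_prod_of_mem _ (Finset.mem_univ i)
    generalize (∏ i, w j i) = M at hM0 hM
    refine ⟨M * N, Nat.mul_pos hM0 hN, fun K _ _ S hS hG => ?_⟩
    obtain ⟨S', hS1, hS2, hS3⟩ := ih K S hS hG
    refine ⟨S'.bind (oo w M j), fun σ => ?_, fun P hP => ?_, fun π c h => ?_⟩
    · have h1 : (S'.bind (oo w M j)).map (mp σ) = (S'.map (mp σ)).bind (oo w M j) := by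
        rw [Multiset.map_bind, Multiset.bind_map]
        refine Multiset.bind_congr fun P _ => ?_
        exact oo_mp ((σ : Om K →+* Om K))
      rw [h1]
      have h2 : Multiset.Rel (fun P P' => PD w D P P' ∧ NZ P') (S'.map (mp σ)) S' :=
        (hS1 σ).mono fun P _ P' hP' h => ⟨h, (hS2 P' hP').1⟩
      exact Multiset.rel_bind (fun P P' h => oo_rel hM0 hM h.1 h.2) h2
    · obtain ⟨P1, hP1, hP2⟩ := Multiset.mem_bind.1 hP
      have h1 := oo_prp hM0 hP2
      obtain ⟨h2, P', hP', h3⟩ := hS2 P1 hP1
      exact ⟨h1.nz h2, P', hP', h1.trans h3⟩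
    · have h1 := hS3 π c h
      rw [mul_smul, ← bind_replicate]
      refine Multiset.rel_bind (fun P p hp => ?_) h1
      have h2 : Multiset.replicate M p = (oo w M j P).map (fun _ => p) := by
        rw [Multiset.map_const', oo_card]
      rw [h2, Multiset.rel_map_right]
      exact Multiset.rel_refl_of_refl_on fun Q hQ => hp.prp (oo_prp hM0 hQ)

theorem orb_exists {w : ∀ j, I j → ℕ} (hw : ∀ j i, 0 < w j i) : ∃ N, OrbN w N := by
  classical
  obtain ⟨N, hN, h⟩ := orb_D hw Finset.univ
  refine ⟨N, hN, fun K _ _ S hS hG => ?_⟩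
  obtain ⟨S', hS1, hS2, hS3⟩ := h K S hS hG
  refine ⟨S', fun σ => ?_, fun P hP => (hS2 P hP).2, hS3⟩
  have h1 : Multiset.Rel Eq (S'.map (mp σ)) S' := by
    refine (hS1 σ).mono fun P _ P' _ h => ?_
    obtain ⟨c, _, hc, rfl⟩ := h
    have h2 : c = fun _ => 1 := funext fun j => hc j (Finset.mem_univ j)
    rw [h2, scl_one]
  exact Multiset.rel_eq.1 h1

end SZ
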