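import Pool.Agent.H71.SZ.Uniq
import Pool.Agent.H71.SZ.GalP
import Pool.Agent.H71.SZ.Orb

/-! # SZ.Clo : the hypotheses on the two varieties (no sorry) -/

namespace SZ

open H68.BB Polynomial

variable {J : Type} {I : J → Type}

/-- `On1` (points over `Om K1`) and `On` (points over `Om K`) are closed, `On` is the specialisation of `On1` -/
structure Clo {K1 K : Type} [Field K1] [Field K] (w : ∀ j, I j → ℕ) (V0 : ValuationSubring K1) (φ0 : V0 →+* K)
    (On1 : Vc I (Om K1) → Prop) (On : Vc I (Om K) → Prop) : Prop where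
  nz1 : ∀ P, On1 P → NZ P
  ext : ∀ (E : ExtP V0 φ0) (P : Vc I (Om K1)) (p : Vc I (Om K)), On1 P → Spc w E.V E.ψ P p → On p
  spc : ∀ (π : Place K (Om K)) (P : Vc I (Om K)) (p : Vc I K), On P → Spc w π.V π.φ P p → On (mp (algebraMap K (Om K)) p)
  prp : ∀ P P' : Vc I (Om K), On P → Prp w P' P → On P'
  cst : ∀ (π : Place K1 (Om K1)) (P : Vc I (Om K1)) (p : Vc I K1) (q : Vc I K), On1 P → Spc w π.V π.φ P p → Spc w V0 φ0 p q →
    On (mp (algebraMap K (Om K)) q)

end SZ
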