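import Pool.Agent.H68.BB.Plc
import Pool.Agent.H68.BB.Red

/-! # SZ.Def : cycles of vectors of weighted homogeneous coordinates, specialisation (definitions only, no sorry)

`J` a finite set of blocks, `I j` the finite set of coordinates of the block `j`, `w j i > 0` their weights.  A point of the product of
the weighted projective spaces over a field `F` is given by a vector `P : Vc I F` all of whose blocks are nonzero.

`K1` is an algebraically closed field of characteristic zero, `V0` a valuation subring of `K1`, `φ0 : V0 → K` a local homomorphism to an algebraically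
closed field of any characteristic.  The main theorem (`SZ.Main`): rational equivalence over `K1` specialises to rational equivalence over `K`
(up to a positive factor `N` which only depends on the weights). -/

namespace SZ

open H68.BB Polynomial

section
variable {J : Type} {I : J → Type}

/-- vectors of blocks of coordinates -/
abbrev Vc (I : J → Type) (F : Type) : Type := ∀ j, I j → F

/-- all blocks are nonzero -/
def NZ {F : Type} [Zero F] (P : Vc I F) : Prop := ∀ j, P j ≠ 0

/-- apply a map to the coordinates -/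
def mp {F G : Type} (f : F → G) (P : Vc I F) : Vc I G := fun j i => f (P j i)

/-- scale the block `j` by `c j` -/
def scl {F : Type} [Field F] (w : ∀ j, I j → ℕ) (c : J → F) (P : Vc I F) : Vc I F := fun j i => c j ^ w j i * P j i

/-- `P` is obtained from `P'` by scaling the blocks -/
def Prp {F : Type} [Field F] (w : ∀ j, I j → ℕ) (P P' : Vc I F) : Prop := ∃ c : J → F, (∀ j, c j ≠ 0) ∧ P = scl w c P'

/-- specialisation at a valuation subring `V` of `F` with a homomorphism `φ` to the field `L` -/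
def Spc {F L : Type} [Field F] [Field L] (w : ∀ j, I j → ℕ) (V : ValuationSubring F) (φ : V →+* L) (P : Vc I F) (p : Vc I L) :
    Prop :=
  ∀ j, p j ≠ 0 ∧ ∃ c : F, c ≠ 0 ∧ ∀ i, Rd V φ (c ^ w j i * P j i) (p j i)

/-- zero-cycles -/
abbrev Cy (I : J → Type) (K : Type) : Type := Vc I K →₀ ℤ

/-- the zero-cycle of a multiset -/
noncomputable def cy {K : Type} (S : Multiset (Vc I K)) : Cy I K := (S.map (fun P => (Finsupp.single P 1 : Cy I K))).sum

/-- stable under the automorphisms of `Ω = Om K` over `K(t)` -/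
def Gst {K : Type} [Field K] (S : Multiset (Vc I (Om K))) : Prop :=
  ∀ σ : Om K ≃ₐ[RatFunc K] Om K, S.map (mp σ) = S

/-- stable up to scaling -/
def Gpr {K : Type} [Field K] (w : ∀ j, I j → ℕ) (S : Multiset (Vc I (Om K))) : Prop :=
  ∀ σ : Om K ≃ₐ[RatFunc K] Om K, Multiset.Rel (Prp w) (S.map (mp σ)) S

/-- differences of two fibres of effective cycles on which `On` holds -/
noncomputable def RatG {K : Type} [Field K] (w : ∀ j, I j → ℕ) (On : Vc I (Om K) → Prop) : AddSubgroup (Cy I K) :=
  AddSubgroup.closure {z | ∃ (S : Multiset (Vc I (Om K))) (π π' : Place K (Om K)) (c c' : Multiset (Vc I K)),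
    (∀ P ∈ S, On P) ∧ Gst S ∧ Multiset.Rel (Spc w π.V π.φ) S c ∧ Multiset.Rel (Spc w π'.V π'.φ) S c' ∧ z = cy c - cy c'}

/-- an equivariant projective embedding: the monomials `∏ P j i ^ ε b j i` -/
structure Vr (w : ∀ j, I j → ℕ) [Fintype J] [∀ j, Fintype (I j)] where
  B : Type
  fin : Fintype B
  ε : B → ∀ j, I j → ℕ
  W : J → ℕ
  wt : ∀ b j, ∑ i, ε b j i * w j i = W j
  nz : ∀ (F : Type) [Field F] (P : Vc I F), NZ P → ∃ b, ∏ j, ∏ i, P j i ^ ε b j i ≠ 0
  inj : ∀ (F : Type) [Field F] [IsAlgClosed F] (P P' : Vc I F) (μ : F), NZ P → NZ P' → μ ≠ 0 →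
    (∀ b, ∏ j, ∏ i, P j i ^ ε b j i = μ * ∏ j, ∏ i, P' j i ^ ε b j i) → Prp w P P'

attribute [instance] Vr.fin

variable [Fintype J] [∀ j, Fintype (I j)] {w : ∀ j, I j → ℕ}

/-- the value of the monomial `b` -/
def mon (R : Vr w) {F : Type} [Field F] (P : Vc I F) (b : R.B) : F := ∏ j, ∏ i, P j i ^ R.ε b j i

/-- the linear form of a point -/
noncomputable def lin (R : Vr w) {F : Type} [Field F] (P : Vc I F) : MvPolynomial R.B F :=
  ∑ b, MvPolynomial.C (mon R P b) * MvPolynomial.X b

/-- the Chow form of a multiset of points -/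
noncomputable def chow (R : Vr w) {F : Type} [Field F] (S : Multiset (Vc I F)) : MvPolynomial R.B F := (S.map (lin R)).prod

end

section
variable {K1 K : Type} [Field K1] [Field K]

/-- a place of `Om K1` with values in `Om K` which extends `φ0` -/
structure ExtP (V0 : ValuationSubring K1) (φ0 : V0 →+* K) where
  V : ValuationSubring (Om K1)
  ψ : V →+* Om K
  loc : IsLocalHom ψ
  ext : ∀ a : V0, Rd V ψ (algebraMap K1 (Om K1) a) (algebraMap K (Om K) (φ0 a))

/-- the coefficient of `(t - t0)^i` of the coefficient `m` of the form `G` over `K1[t]` -/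
noncomputable def cf {B : Type} (t0 : K1) (G : MvPolynomial B K1[X]) (i : ℕ) (m : B →₀ ℕ) : K1 :=
  (Polynomial.taylor t0 (MvPolynomial.coeff m G)).coeff i

/-- an edge of the Newton polygon: after scaling `t - t0` by `l` the normalised coefficients of `(t - t0)^i'` reduce to zero for `i' < i` and
`i' > j`, and some of the coefficients of `(t - t0)^i` and of `(t - t0)^j` does not -/
def Edge {B : Type} (V0 : ValuationSubring K1) (φ0 : V0 →+* K) (t0 : K1) (G : MvPolynomial B K1[X]) (l : K1) (i j : ℕ) : Prop :=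
  ∃ e : K1, e ≠ 0 ∧ (∀ i' m, e * l ^ i' * cf t0 G i' m ∈ V0) ∧
    (∃ m a, a ≠ 0 ∧ Rd V0 φ0 (e * l ^ i * cf t0 G i m) a) ∧ (∃ m a, a ≠ 0 ∧ Rd V0 φ0 (e * l ^ j * cf t0 G j m) a) ∧
    (∀ i' < i, ∀ m, Rd V0 φ0 (e * l ^ i' * cf t0 G i' m) 0) ∧ (∀ i' > j, ∀ m, Rd V0 φ0 (e * l ^ i' * cf t0 G i' m) 0)

/-- the reduction of the coefficient `i` is the Chow form of `c` up to a scalar -/
def At {J : Type} {I : J → Type} [Fintype J] [∀ j, Fintype (I j)] {w : ∀ j, I j → ℕ} (R : Vr w)
    (V0 : ValuationSubring K1) (φ0 : V0 →+* K) (t0 : K1) (G : MvPolynomial R.B K1[X]) (i : ℕ) (c : Multiset (Vc I K)) : Prop :=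
  ∃ (e : K1) (u : K), e ≠ 0 ∧ u ≠ 0 ∧ ∀ m, Rd V0 φ0 (e * cf t0 G i m) (u * MvPolynomial.coeff m (chow R c))

end

end SZ
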