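import Pool.Agent.H71.SZ.Def

/-! # SZ.Gauss : Gauss places of `Om K1` with values in `Om K` (about 250 lines)

`T := (tt K1 - t0) / l` is transcendental over `K1` and `Om K1` is algebraic over `K1(T)`.  `A` = the image of `V0[X] → Om K1`, `X ↦ T` (injective).  The homomorphism `χ : V0[X] → Om K`, `X ↦ tt K`,
`a ↦ φ0 a`, has the prime kernel `{f | all coefficients are in the kernel of φ0}` (`tt K` is transcendental over `K`).  `LocalSubring.exists_le_valuationSubring` / `Ideal.image_subset_nonunits_valuationSubring` for the localisation of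
`A` at this prime (as in `H68/BB/Plc.lean`) gives a valuation subring `V ⊇ A` of `Om K1` whose nonunits meet `A` in the kernel of `χ` (elements `f` with `χ f ≠ 0` must become units: use the local subring `LocalSubring.ofPrime`).
Residue field `κ` of `V`, `r : V → κ`.  Every `b ∈ V` has `r b` algebraic over the image of `V0[X]`: there is a nonzero `H ∈ K1[X][Y]` with `H(T, b) = 0`; divide `H` by a coefficient (in `K1`) of maximal valuation: all
coefficients are in `V0`, one is `1`; so `H mod` is nonzero and kills `r b`.  `κ` is then algebraic over the subring `R0 := χ.range` (a domain) of `Om K`, where `R0 → κ` is the injective map induced by `r` (kernels agree): `IsAlgClosed.lift`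
gives `κ → Om K` over `R0`; `ψ := lift ∘ r`, it is local since `r` is local and field homomorphisms are injective.  See also `Pool/Agent/H79/CN/PlHom.lean` and `Pool/Agent/H19/ES/Place.lean` for similar extensions of homomorphisms to places. -/

namespace SZ

open H68.BB Polynomial

private theorem gs_algMap_X (k : Type) [Field k] : algebraMap k[X] (Om k) X = tt k := by
  rw [IsScalarTower.algebraMap_apply k[X] (RatFunc k) (Om k), RatFunc.algebraMap_X]
  rfl

private theorem gs_algMap_C (k : Type) [Field k] (c : k) :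
    algebraMap k[X] (Om k) (C c) = algebraMap k (Om k) c := by
  rw [IsScalarTower.algebraMap_apply k[X] (RatFunc k) (Om k), RatFunc.algebraMap_C]
  rw [IsScalarTower.algebraMap_apply k (RatFunc k) (Om k)]
  rfl

private theorem gs_algMap_inj (k : Type) [Field k] : Function.Injective (algebraMap k[X] (Om k)) := by
  rw [IsScalarTower.algebraMap_eq k[X] (RatFunc k) (Om k)]
  exact (algebraMap (RatFunc k) (Om k)).injective.comp (RatFunc.algebraMap_injective k)

/-- a valuation subring which dominates the localisation at the kernel of `χ` -/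
private theorem gs_val {A L M : Type} [CommRing A] [Field L] [Field M] (f : A →+* L)
    (χ : A →+* M) (hf : Function.Injective f) :
    ∃ V : ValuationSubring L, ∃ h : ∀ a, f a ∈ V, ∀ a, χ a = 0 ↔ ¬ IsUnit (⟨f a, h a⟩ : V) := by
  classical
  let e : A ≃+* f.range := RingEquiv.ofBijective f.rangeRestrict
    ⟨fun a b hab => hf (congrArg Subtype.val hab), f.rangeRestrict_surjective⟩
  let P : Ideal f.range := RingHom.ker (χ.comp (e.symm : f.range →+* A))
  have hPp : P.IsPrime := RingHom.ker_isPrime _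
  obtain ⟨V, hV, hloc⟩ := (LocalSubring.ofPrime f.range P).exists_le_valuationSubring
  have h1 := LocalSubring.le_ofPrime f.range P
  have hmem : ∀ a, f a ∈ V := fun a => hV (h1 ⟨a, rfl⟩)
  refine ⟨V, hmem, fun a => ?_⟩
  have key : IsUnit (algebraMap f.range (LocalSubring.ofPrime f.range P).toSubring (e a)) ↔
      e a ∈ P.primeCompl :=
    IsLocalization.AtPrime.isUnit_to_map_iff (LocalSubring.ofPrime f.range P).toSubring P (e a)
  have hP : e a ∈ P ↔ χ a = 0 := by
    change χ (e.symm (e a)) = 0 ↔ _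
    rw [RingEquiv.symm_apply_apply]
  have hU : IsUnit (⟨f a, hmem a⟩ : V) ↔
      IsUnit (algebraMap f.range (LocalSubring.ofPrime f.range P).toSubring (e a)) := by
    have h2 := @isUnit_map_iff _ _ _ _ _ _ _ (Subring.inclusion hV) hloc
      (algebraMap f.range (LocalSubring.ofPrime f.range P).toSubring (e a))
    rw [← h2]
    rfl
  rw [hU, key, ← hP]
  exact not_not.symm

/-- extension of homomorphisms to algebraic extensions of a domain -/
private theorem gs_lift {Q κ M : Type} [CommRing Q] [Field κ] [Field M] [IsAlgClosed M] (j : Q →+* κ) (j' : Q →+* M)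
    (hj : Function.Injective j) (hj' : Function.Injective j')
    (halg : ∀ b : κ, ∃ G : Q[X], G ≠ 0 ∧ eval₂ j b G = 0) :
    ∃ Λ : κ →+* M, ∀ q, Λ (j q) = j' q := by
  have hdom : IsDomain Q := hj'.isDomain j'
  let _ : Algebra Q κ := j.toAlgebra
  let _ : Algebra Q M := j'.toAlgebra
  have ht1 : Module.IsTorsionFree Q κ := Module.isTorsionFree_iff_algebraMap_injective.mpr hj
  have ht2 : Module.IsTorsionFree Q M := Module.isTorsionFree_iff_algebraMap_injective.mpr hj'
  have h : Algebra.IsAlgebraic Q κ := ⟨fun b => halg b⟩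
  let Λ : κ →ₐ[Q] M := IsAlgClosed.lift
  exact ⟨Λ, fun q => Λ.commutes q⟩

private theorem gs_lift2 {A κ M : Type} [CommRing A] [Field κ] [Field M] [IsAlgClosed M] (ρ : A →+* κ) (χ : A →+* M)
    (hk : ∀ a, ρ a = 0 ↔ χ a = 0)
    (halg : ∀ b : κ, ∃ G : A[X], (∃ i, χ (G.coeff i) ≠ 0) ∧ eval₂ ρ b G = 0) :
    ∃ Λ : κ →+* M, ∀ a, Λ (ρ a) = χ a := by
  have hle : RingHom.ker χ.rangeRestrict ≤ RingHom.ker ρ := by
    intro a ha
    rw [RingHom.mem_ker] at ha ⊢
    exact (hk a).mpr (congrArg Subtype.val ha)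
  let j : χ.range →+* κ := χ.rangeRestrict.liftOfSurjective χ.rangeRestrict_surjective ⟨ρ, hle⟩
  have hjc : j.comp χ.rangeRestrict = ρ := RingHom.liftOfRightInverse_comp _ _ _ _
  have hja : ∀ a, j (χ.rangeRestrict a) = ρ a := fun a => RingHom.congr_fun hjc a
  have hj : Function.Injective j := by
    rw [injective_iff_map_eq_zero]
    intro x hx
    obtain ⟨a, rfl⟩ := χ.rangeRestrict_surjective x
    rw [hja] at hx
    exact Subtype.ext ((hk a).mp hx)
  obtain ⟨Λ, hΛ⟩ := gs_lift j χ.range.subtype hj Subtype.val_injective (by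
    intro b
    obtain ⟨G, ⟨i, hi⟩, hG⟩ := halg b
    refine ⟨G.map χ.rangeRestrict, ?_, ?_⟩
    · intro h0
      apply hi
      have h1 := congrArg (fun P : χ.range[X] => P.coeff i) h0
      simp only [coeff_map, coeff_zero] at h1
      exact congrArg Subtype.val h1
    · rw [eval₂_map, hjc]
      exact hG)
  refine ⟨Λ, fun a => ?_⟩
  rw [← hja, hΛ]
  rfl

/-- divide by a coefficient of maximal valuation -/
private theorem gs_norm {K1 : Type} [Field K1] (V0 : ValuationSubring K1) (H : K1[X][X]) (hH : H ≠ 0) :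
    ∃ (c : K1) (H' : V0[X][X]), H'.map (mapRingHom V0.subtype) = C (C c) * H ∧
      ∃ i m, (H'.coeff i).coeff m = 1 := by
  classical
  let s : Finset (ℕ × ℕ) := H.support.biUnion fun i => (H.coeff i).support.image fun m => (i, m)
  have hs : ∀ i m, (H.coeff i).coeff m ≠ 0 → (i, m) ∈ s := by
    intro i m h
    rw [Finset.mem_biUnion]
    refine ⟨i, ?_, Finset.mem_image.mpr ⟨m, ?_, rfl⟩⟩
    · rw [mem_support_iff]
      intro h0
      rw [h0, coeff_zero] at h
      exact h rfl
    · rw [mem_support_iff]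
      exact h
  have hs' : ∀ p ∈ s, (H.coeff p.1).coeff p.2 ≠ 0 := by
    intro p hp
    rw [Finset.mem_biUnion] at hp
    obtain ⟨i, _, hp⟩ := hp
    rw [Finset.mem_image] at hp
    obtain ⟨m, hm, rfl⟩ := hp
    exact mem_support_iff.mp hm
  have hne : s.Nonempty := by
    by_contra hcon
    apply hH
    ext i m
    by_contra h
    rw [coeff_zero, coeff_zero] at h
    exact hcon ⟨_, hs i m h⟩
  obtain ⟨p, hp, hmax⟩ := Finset.exists_max_image s
    (fun p => V0.valuation ((H.coeff p.1).coeff p.2)) hne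
  set d : K1 := (H.coeff p.1).coeff p.2 with hd
  have hd0 : d ≠ 0 := hs' p hp
  have hle : ∀ i m, d⁻¹ * (H.coeff i).coeff m ∈ V0 := by
    intro i m
    by_cases h : (H.coeff i).coeff m = 0
    · rw [h, mul_zero]
      exact V0.zero_mem
    · rw [← ValuationSubring.valuation_le_one_iff, map_mul, map_inv₀]
      have h1 := hmax (i, m) (hs i m h)
      have h2 : V0.valuation d ≠ 0 := (Valuation.ne_zero_iff _).mpr hd0
      calc (V0.valuation d)⁻¹ * V0.valuation ((H.coeff i).coeff m)
          ≤ (V0.valuation d)⁻¹ * V0.valuation d := mul_le_mul_right h1 _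
        _ = 1 := inv_mul_cancel₀ h2
  have hl : C (C d⁻¹) * H ∈ lifts (mapRingHom V0.subtype) := by
    rw [lifts_iff_coeff_lifts]
    intro i
    have h1 : (C (C d⁻¹) * H).coeff i ∈ lifts V0.subtype := by
      rw [lifts_iff_coeff_lifts]
      intro m
      rw [coeff_C_mul, coeff_C_mul]
      exact ⟨⟨_, hle i m⟩, rfl⟩
    obtain ⟨g, hg⟩ := (mem_lifts _).mp h1
    exact ⟨g, hg⟩
  obtain ⟨H', hH'⟩ := (mem_lifts _).mp hl
  refine ⟨d⁻¹, H', hH', p.1, p.2, ?_⟩
  apply Subtype.val_injective
  have h1 := congrArg (fun G : K1[X][X] => (G.coeff p.1).coeff p.2) hH'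
  simp only [coeff_map, coe_mapRingHom, coeff_C_mul] at h1
  change V0.subtype ((H'.coeff p.1).coeff p.2) = 1
  rw [h1]
  exact inv_mul_cancel₀ hd0

theorem gauss_exists {K1 K : Type} [Field K1] [Field K] (V0 : ValuationSubring K1) (φ0 : V0 →+* K) [IsLocalHom φ0] (t0 l : K1)
    (hl : l ≠ 0) :
    ∃ E : ExtP V0 φ0, Rd E.V E.ψ ((tt K1 - algebraMap K1 (Om K1) t0) / algebraMap K1 (Om K1) l) (tt K) := by
  classical
  let q : K1[X] := C l⁻¹ * (X - C t0)
  let q' : K1[X] := C l * X + C t0
  have hCC : (C l : K1[X]) * C l⁻¹ = 1 := by rw [← C_mul, mul_inv_cancel₀ hl, C_1]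
  have hqq : q.comp q' = X := by
    simp only [q, q', mul_comp, sub_comp, C_comp, X_comp]
    linear_combination X * hCC
  have hqq' : q'.comp q = X := by
    simp only [q, q', mul_comp, add_comp, C_comp, X_comp]
    linear_combination (X - C t0) * hCC
  let T : Om K1 := (tt K1 - algebraMap K1 (Om K1) t0) / algebraMap K1 (Om K1) l
  let gK : K1[X] →+* Om K1 := (algebraMap K1[X] (Om K1)).comp (compRingHom q)
  have hgX : gK X = T := by
    change algebraMap K1[X] (Om K1) (X.comp q) = T
    rw [X_comp, map_mul, map_sub, gs_algMap_X, gs_algMap_C, gs_algMap_C, map_inv₀, mul_comm, ← div_eq_mul_inv]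
  have hgC : ∀ a, gK (C a) = algebraMap K1 (Om K1) a := by
    intro a
    change algebraMap K1[X] (Om K1) ((C a).comp q) = _
    rw [C_comp, gs_algMap_C]
  have hginj : Function.Injective gK := by
    refine (gs_algMap_inj K1).comp (Function.LeftInverse.injective (g := fun p => p.comp q') ?_)
    intro p
    change (p.comp q).comp q' = p
    rw [comp_assoc, hqq, comp_X]
  have hcinj : Function.Injective (compRingHom q' : K1[X] →+* K1[X]) := by
    refine Function.LeftInverse.injective (g := fun p => p.comp q) ?_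
    intro p
    change (p.comp q').comp q = p
    rw [comp_assoc, hqq', comp_X]
  have hgc : gK.comp (compRingHom q') = algebraMap K1[X] (Om K1) := by
    refine RingHom.ext fun p => ?_
    change algebraMap K1[X] (Om K1) ((p.comp q').comp q) = _
    rw [comp_assoc, hqq', comp_X]
  let f : V0[X] →+* Om K1 := gK.comp (mapRingHom V0.subtype)
  have hf : Function.Injective f :=
    hginj.comp (map_injective _ Subtype.val_injective)
  let χ : V0[X] →+* Om K := (algebraMap K[X] (Om K)).comp (mapRingHom φ0)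
  obtain ⟨V, hmem, hunit⟩ := gs_val f χ hf
  let fV : V0[X] →+* V := f.codRestrict V.toSubring hmem
  let κ := IsLocalRing.ResidueField V
  let r : V →+* κ := IsLocalRing.residue V
  have hker : ∀ p, r (fV p) = 0 ↔ χ p = 0 := by
    intro p
    rw [hunit p]
    exact (IsLocalRing.residue_eq_zero_iff _).trans (IsLocalRing.mem_maximalIdeal _)
  have halg : ∀ b' : κ, ∃ G : V0[X][X], (∃ i, χ (G.coeff i) ≠ 0) ∧ eval₂ (r.comp fV) b' G = 0 := by
    intro b'
    obtain ⟨b, rfl⟩ := IsLocalRing.residue_surjective b'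
    have hb : IsAlgebraic K1[X] (b : Om K1) :=
      (IsFractionRing.isAlgebraic_iff K1[X] (RatFunc K1) (Om K1)).mpr
        (Algebra.IsAlgebraic.isAlgebraic _)
    obtain ⟨G, hG, hGb⟩ := hb
    have hH0 : G.map (compRingHom q') ≠ 0 := by
      intro h0
      exact hG (map_injective _ hcinj (h0.trans (Polynomial.map_zero _).symm))
    obtain ⟨c, H', hH', i, m, him⟩ := gs_norm V0 _ hH0
    have h1 : eval₂ f (b : Om K1) H' = 0 := by
      have h2 : eval₂ f (b : Om K1) H' = eval₂ gK (b : Om K1) (H'.map (mapRingHom V0.subtype)) := by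
        rw [eval₂_map]
      rw [h2, hH', eval₂_mul, eval₂_map, hgc]
      have h3 : eval₂ (algebraMap K1[X] (Om K1)) (b : Om K1) G = 0 := hGb
      rw [h3, mul_zero]
    have h4 : eval₂ fV b H' = 0 := by
      apply Subtype.val_injective
      have h6 : ((eval₂ fV b H' : V) : Om K1) = eval₂ (V.subtype.comp fV) (V.subtype b) H' := by
        rw [← hom_eval₂]
        rfl
      rw [h6]
      exact h1
    have h5 : eval₂ (r.comp fV) (r b) H' = 0 := by
      rw [← hom_eval₂, h4, map_zero]
    refine ⟨H', ⟨i, ?_⟩, h5⟩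
    intro h8
    have h9 : (H'.coeff i).map φ0 = 0 := by
      apply gs_algMap_inj K
      rw [map_zero]
      exact h8
    have h10 := congrArg (fun G : K[X] => G.coeff m) h9
    simp only [coeff_map, coeff_zero] at h10
    rw [him, map_one] at h10
    exact one_ne_zero h10
  obtain ⟨Λ, hΛj⟩ := gs_lift2 (r.comp fV) χ hker halg
  have hΛ : ∀ p : V0[X], Λ (r (fV p)) = χ p := hΛj
  have hloc : IsLocalHom (Λ.comp r) := by
    refine ⟨fun a ha => ?_⟩
    have h1 : Λ (r a) ≠ 0 := ha.ne_zero
    have h2 : r a ≠ 0 := fun h => h1 (by rw [h, map_zero])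
    by_contra hna
    exact h2 ((IsLocalRing.residue_eq_zero_iff _).mpr ((IsLocalRing.mem_maximalIdeal _).mpr hna))
  have hfC : ∀ a : V0, f (C a) = algebraMap K1 (Om K1) a := by
    intro a
    change gK ((C a).map V0.subtype) = _
    rw [map_C, hgC]
    rfl
  have hfX : f X = T := by
    change gK (X.map V0.subtype) = _
    rw [map_X, hgX]
  refine ⟨⟨V, Λ.comp r, hloc, fun a => ⟨?_, ?_⟩⟩, ⟨?_, ?_⟩⟩
  · rw [← hfC]
    exact hmem _
  · change Λ (r ⟨algebraMap K1 (Om K1) a, _⟩) = _
    have h1 : (⟨algebraMap K1 (Om K1) a, by rw [← hfC]; exact hmem _⟩ : V) = fV (C a) := Subtype.ext (hfC a).symm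
    rw [h1, hΛ]
    change algebraMap K[X] (Om K) ((C a).map φ0) = _
    rw [map_C, gs_algMap_C]
  · change T ∈ V
    rw [← hfX]
    exact hmem _
  · change Λ (r ⟨T, _⟩) = _
    have h1 : (⟨T, by rw [← hfX]; exact hmem _⟩ : V) = fV X := Subtype.ext hfX.symm
    rw [h1, hΛ]
    change algebraMap K[X] (Om K) (X.map φ0) = _
    rw [map_X, gs_algMap_X]

end SZ
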