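import Pool.Agent.H71.SZ.Clo
import Pool.Agent.H71.SZ.Gauss
import Pool.Agent.H71.K3.PlInf

/-! # SZ.EdgeP : an edge of the Newton polygon gives a rational equivalence (about 250 lines)

`E` = the place of `gauss_exists V0 φ0 t0 l hl`.  Choose `S'` with `Rel (Spc w E.V E.ψ) S S'` (`rel_exists`), all on `On` (`hC.ext`).  `chow_spc`: `e1 * coeff m (chow R S)` reduces to
`coeff m (chow R S')`.  On the other side `algebraMap g * coeff m (chow R S) = algebraMap K1[X] (Om K1) (coeff m G) = ∑ i, cf t0 G i m * (tt - t0)^i = ∑ i, (l ^ i * cf t0 G i m) * T ^ i`, `T = (tt - t0) / l` (`Polynomial.taylor`, `eval_add..`), and with `e` of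
`Edge`: `e * algebraMap g * coeff m (chow R S)` reduces to `∑ i, φ0 (e * l ^ i * cf t0 G i m) * (tt K) ^ i =: algebraMap K[X] (Om K) (gg m)`, `gg m ∈ K[X]`, where all `gg m` are divisible by `X ^ i`, have degree `≤ j`, and some `gg m` has a nonzero
coefficient at `i` (at `j`).  `rd_uniq`: `coeff m (chow R S') = u * algebraMap (gg m)`, `u ≠ 0`.  So `chow R (S'.map (mp σ)) = C (σ u / u) * chow R S'` for every `σ` (`chow_mp`), `chow_uniq`: `Gpr w S'`.  `hN.2`: `S''` with `Gst`.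
`π0` a place of `Om K` with `tt K ↦ 0` (`H68.BB.place_exists K 0`), `c` with `Rel (Spc w π0.V π0.φ) S' c`: `chow_spc` and `(tt K)⁻¹ ^ i * algebraMap (gg m) ↦ (gg m).coeff i` at `π0`: `rd_uniq` gives `At .. i c`.
The same with `H71.K3.place_inf` (or the name in `Pool/Agent/H71/K3/PlInf.lean`) and `(tt K)⁻¹ ^ j * algebraMap (gg m) ↦ (gg m).coeff j`: `At .. j c'`.  `cy (N • c) = N • cy c`, and `S''` specialises to `N • c`, `N • c'`; all points of `S''` are on `On` (`hC.prp`). -/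

namespace SZ

open H68.BB Polynomial

/-! ### polynomials in `Om k` -/

private theorem ed_X (k : Type) [Field k] : algebraMap k[X] (Om k) X = tt k := by
  rw [IsScalarTower.algebraMap_apply k[X] (RatFunc k) (Om k), RatFunc.algebraMap_X]
  rfl

private theorem ed_C (k : Type) [Field k] (c : k) : algebraMap k[X] (Om k) (C c) = algebraMap k (Om k) c := by
  rw [IsScalarTower.algebraMap_apply k[X] (RatFunc k) (Om k), RatFunc.algebraMap_C]
  rw [IsScalarTower.algebraMap_apply k (RatFunc k) (Om k)]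
  rfl

private theorem ed_inj (k : Type) [Field k] : Function.Injective (algebraMap k[X] (Om k)) := by
  rw [IsScalarTower.algebraMap_eq k[X] (RatFunc k) (Om k)]
  exact (algebraMap (RatFunc k) (Om k)).injective.comp (RatFunc.algebraMap_injective k)

private theorem ed_tt (k : Type) [Field k] : tt k ≠ 0 := by
  have h := tt_ne k 0
  rwa [cst, map_zero] at h

/-- expansion at `0` -/
private theorem ed_sum {k : Type} [Field k] (p : k[X]) {n : ℕ} (hn : p.natDegree < n) :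
    algebraMap k[X] (Om k) p = ∑ i ∈ Finset.range n, algebraMap k (Om k) (p.coeff i) * tt k ^ i := by
  conv_lhs => rw [p.as_sum_range_C_mul_X_pow' hn]
  rw [map_sum]
  refine Finset.sum_congr rfl fun i _ => ?_
  rw [map_mul, map_pow, ed_X, ed_C]

/-- expansion at `t0` -/
private theorem ed_taylor {k : Type} [Field k] (t0 : k) (p : k[X]) {n : ℕ} (hn : p.natDegree < n) :
    algebraMap k[X] (Om k) p = ∑ i ∈ Finset.range n,
      algebraMap k (Om k) ((taylor t0 p).coeff i) * (tt k - algebraMap k (Om k) t0) ^ i := by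
  have h1 := sum_taylor_eq p t0
  have h2 : (taylor t0 p).natDegree < n := by rwa [natDegree_taylor]
  rw [Polynomial.sum_over_range' _ (fun i => by simp) n h2] at h1
  conv_lhs => rw [← h1]
  rw [map_sum]
  refine Finset.sum_congr rfl fun i _ => ?_
  rw [map_mul, map_pow, map_sub, ed_X, ed_C, ed_C]

section rd
variable {F L : Type} [Field F] [Field L] {V : ValuationSubring F} {φ : V →+* L}

private theorem ed_rd_sum {ι : Type} (s : Finset ι) {x : ι → F} {a : ι → L} (h : ∀ i ∈ s, Rd V φ (x i) (a i)) :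
    Rd V φ (∑ i ∈ s, x i) (∑ i ∈ s, a i) := by
  classical
  induction s using Finset.induction_on with
  | empty => exact Rd.zero
  | insert i s hi ih =>
    rw [Finset.sum_insert hi, Finset.sum_insert hi]
    exact (h i (Finset.mem_insert_self i s)).add (ih fun j hj => h j (Finset.mem_insert_of_mem hj))

end rd

private theorem ed_cst {K : Type} [Field K] (π : Place K (Om K)) (c : K) : Rd π.V π.φ (algebraMap K (Om K) c) c :=
  π.const c

/-- the lowest coefficient at a place over `0` -/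
private theorem ed_low {K : Type} [Field K] (π : Place K (Om K)) (h0 : Rd π.V π.φ (tt K) 0) (p : K[X]) (i : ℕ)
    (hp : ∀ i' < i, p.coeff i' = 0) :
    Rd π.V π.φ ((tt K)⁻¹ ^ i * algebraMap K[X] (Om K) p) (p.coeff i) := by
  obtain ⟨q, hq⟩ := X_pow_dvd_iff.2 hp
  have h1 : algebraMap K[X] (Om K) p = tt K ^ i * algebraMap K[X] (Om K) q := by
    rw [hq, map_mul, map_pow, ed_X]
  have h2 : (tt K)⁻¹ ^ i * algebraMap K[X] (Om K) p = algebraMap K[X] (Om K) q := by
    rw [h1, ← mul_assoc, ← mul_pow, inv_mul_cancel₀ (ed_tt K), one_pow, one_mul]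
  have h3 : p.coeff i = q.coeff 0 := by
    rw [hq, mul_comm, coeff_mul_X_pow', if_pos le_rfl, Nat.sub_self]
  rw [h2, h3, ed_sum q (Nat.lt_succ_self _)]
  have h4 := ed_rd_sum (V := π.V) (φ := π.φ) (Finset.range q.natDegree.succ)
    (x := fun n => algebraMap K (Om K) (q.coeff n) * tt K ^ n) (a := fun n => q.coeff n * 0 ^ n)
    (fun n _ => (ed_cst π _).mul (h0.pow n))
  have h5 : ∑ n ∈ Finset.range q.natDegree.succ, q.coeff n * 0 ^ n = q.coeff 0 := by
    rw [Finset.sum_eq_single 0]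
    · rw [pow_zero, mul_one]
    · intro b _ hb
      rw [zero_pow hb, mul_zero]
    · intro h
      exact absurd (Finset.mem_range.2 (Nat.succ_pos _)) h
  rw [h5] at h4
  exact h4

/-- the highest coefficient at a place over infinity -/
private theorem ed_high {K : Type} [Field K] (π : Place K (Om K)) (h0 : Rd π.V π.φ (tt K)⁻¹ 0) (p : K[X]) (j : ℕ)
    (hp : p.natDegree ≤ j) :
    Rd π.V π.φ ((tt K)⁻¹ ^ j * algebraMap K[X] (Om K) p) (p.coeff j) := by
  rw [ed_sum p (Nat.lt_succ_of_le hp), Finset.mul_sum]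
  have h4 := ed_rd_sum (V := π.V) (φ := π.φ) (Finset.range j.succ)
    (x := fun n => (tt K)⁻¹ ^ j * (algebraMap K (Om K) (p.coeff n) * tt K ^ n)) (a := fun n => p.coeff n * 0 ^ (j - n))
    (fun n hn => by
      have hnj : n ≤ j := Nat.lt_succ_iff.1 (Finset.mem_range.1 hn)
      have h5 : (tt K)⁻¹ ^ j * (algebraMap K (Om K) (p.coeff n) * tt K ^ n) =
          algebraMap K (Om K) (p.coeff n) * (tt K)⁻¹ ^ (j - n) := by
        have h6 : (tt K)⁻¹ ^ j = (tt K)⁻¹ ^ (j - n) * (tt K)⁻¹ ^ n := by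
          rw [← pow_add, Nat.sub_add_cancel hnj]
        have h7 : (tt K)⁻¹ ^ n * tt K ^ n = 1 := by
          rw [← mul_pow, inv_mul_cancel₀ (ed_tt K), one_pow]
        rw [h6]
        calc (tt K)⁻¹ ^ (j - n) * (tt K)⁻¹ ^ n * (algebraMap K (Om K) (p.coeff n) * tt K ^ n)
            = algebraMap K (Om K) (p.coeff n) * (tt K)⁻¹ ^ (j - n) * ((tt K)⁻¹ ^ n * tt K ^ n) := by ring
          _ = _ := by rw [h7, mul_one]
      rw [h5]
      exact (ed_cst π _).mul (h0.pow _))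
  have h5 : ∑ n ∈ Finset.range j.succ, p.coeff n * 0 ^ (j - n) = p.coeff j := by
    rw [Finset.sum_eq_single j]
    · rw [Nat.sub_self, pow_zero, mul_one]
    · intro b hb hbj
      have hb' : b < j := lt_of_le_of_ne (Nat.lt_succ_iff.1 (Finset.mem_range.1 hb)) hbj
      rw [zero_pow (by omega), mul_zero]
    · intro h
      exact absurd (Finset.mem_range.2 (Nat.lt_succ_self _)) h
  rw [h5] at h4
  exact h4

variable {J : Type} {I : J → Type} {w : ∀ j, I j → ℕ} [Fintype J] [∀ j, Fintype (I j)] (R : Vr w)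
  {K1 K : Type} [Field K1] [Field K] [IsAlgClosed K1] [IsAlgClosed K] {V0 : ValuationSubring K1} {φ0 : V0 →+* K} [IsLocalHom φ0]
  {On1 : Vc I (Om K1) → Prop} {On : Vc I (Om K) → Prop}

omit [Fintype J] [∀ j, Fintype (I j)] in
private theorem ed_cy_nsmul (N : ℕ) (c : Multiset (Vc I K)) : cy (N • c) = N • cy c := by
  unfold cy
  rw [Multiset.map_nsmul, Multiset.sum_nsmul]

/-- a multiset whose Chow form is proportional to polynomials is stable up to scaling -/
private theorem ed_gpr {S' : Multiset (Vc I (Om K))} (hS' : ∀ P ∈ S', NZ P) {u : Om K} (hu : u ≠ 0)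
    {gg : (R.B →₀ ℕ) → K[X]} (h : ∀ m, MvPolynomial.coeff m (chow R S') = u * algebraMap K[X] (Om K) (gg m)) :
    Gpr w S' := by
  intro σ
  have hσu : σ u ≠ 0 := (map_ne_zero_iff _ σ.injective).2 hu
  have hfix : ∀ p : K[X], σ (algebraMap K[X] (Om K) p) = algebraMap K[X] (Om K) p := by
    intro p
    rw [IsScalarTower.algebraMap_apply K[X] (RatFunc K) (Om K)]
    exact σ.commutes _
  refine chow_uniq R ?_ hS' (div_ne_zero hσu hu) ?_
  · intro P hP
    obtain ⟨P', hP', rfl⟩ := Multiset.mem_map.1 hP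
    intro j hj
    apply hS' P' hP' j
    funext i
    have h1 : σ (P' j i) = 0 := congrFun hj i
    exact (map_eq_zero_iff _ σ.injective).1 h1
  · have h2 := chow_mp R (σ : Om K →+* Om K) S'
    refine (show chow R (S'.map (mp σ)) = MvPolynomial.map (σ : Om K →+* Om K) (chow R S') from h2).trans ?_
    refine MvPolynomial.ext _ _ fun m => ?_
    rw [MvPolynomial.coeff_map, MvPolynomial.coeff_C_mul, h m]
    change σ (u * algebraMap K[X] (Om K) (gg m)) = σ u / u * (u * algebraMap K[X] (Om K) (gg m))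
    rw [map_mul, hfix]
    field_simp

/-- one end of the edge -/
private theorem ed_end (hw : ∀ j i, 0 < w j i) {S' : Multiset (Vc I (Om K))} (hS' : ∀ P ∈ S', NZ P) (hon : ∀ P ∈ S', On P)
    (hspc : ∀ (π : Place K (Om K)) (P : Vc I (Om K)) (p : Vc I K), On P → Spc w π.V π.φ P p →
      On (mp (algebraMap K (Om K)) p))
    {u : Om K} (hu : u ≠ 0) {gg : (R.B →₀ ℕ) → K[X]}
    (h : ∀ m, MvPolynomial.coeff m (chow R S') = u * algebraMap K[X] (Om K) (gg m))
    {t0 : K1} {G : MvPolynomial R.B K1[X]} {i : ℕ} {e : K1} (he : e ≠ 0)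
    (hgg : ∀ m, Rd V0 φ0 (e * cf t0 G i m) ((gg m).coeff i)) (π : Place K (Om K)) {v : Om K} (hv : v ≠ 0)
    (hπ : ∀ m, Rd π.V π.φ (v * algebraMap K[X] (Om K) (gg m)) ((gg m).coeff i)) (hne : ∃ m, (gg m).coeff i ≠ 0) :
    ∃ c : Multiset (Vc I K), (∀ P ∈ c, NZ P ∧ On (mp (algebraMap K (Om K)) P)) ∧ At R V0 φ0 t0 G i c ∧
      Multiset.Rel (Spc w π.V π.φ) S' c := by
  have hloc : IsLocalHom π.φ := π.isLocal
  obtain ⟨c, hc⟩ := rel_exists hw π.V π.φ hS'
  have hcm : ∀ p ∈ c, NZ p ∧ On (mp (algebraMap K (Om K)) p) := by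
    intro p hp
    obtain ⟨P, hP, hPp⟩ := Multiset.exists_mem_of_rel_of_mem (Multiset.rel_flip.2 hc) hp
    exact ⟨Spc.nz hPp, hspc π P p (hon P hP) hPp⟩
  refine ⟨c, hcm, ?_, hc⟩
  obtain ⟨e2, he2, h2⟩ := chow_spc R hc
  have h3 : ∀ m, Rd π.V π.φ (v * u⁻¹ * MvPolynomial.coeff m (chow R S')) ((gg m).coeff i) := by
    intro m
    have h4 : v * u⁻¹ * MvPolynomial.coeff m (chow R S') = v * algebraMap K[X] (Om K) (gg m) := by
      rw [h m]
      field_simp
    rw [h4]
    exact hπ m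
  have h5 : ∃ m, MvPolynomial.coeff m (chow R c) ≠ 0 := MvPolynomial.ne_zero_iff.1 (chow_ne R fun P hP => (hcm P hP).1)
  obtain ⟨x, hx, h6⟩ := rd_uniq (mul_ne_zero hv (inv_ne_zero hu)) he2 h3 h2 hne h5
  exact ⟨e, x, he, hx, fun m => by rw [← h6 m]; exact hgg m⟩

theorem edge_rel (hw : ∀ j i, 0 < w j i) {N : ℕ} (hN : OrbN w N) (hC : Clo w V0 φ0 On1 On) {S : Multiset (Vc I (Om K1))}
    (hS : ∀ P ∈ S, On1 P) {t0 : K1} {g : K1[X]} (hg : g ≠ 0) {G : MvPolynomial R.B K1[X]}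
    (hG : MvPolynomial.map (algebraMap K1[X] (Om K1)) G = MvPolynomial.C (algebraMap K1[X] (Om K1) g) * chow R S)
    {l : K1} (hl : l ≠ 0) {i j : ℕ} (hE : Edge V0 φ0 t0 G l i j) :
    ∃ c c' : Multiset (Vc I K), (∀ P ∈ c, NZ P ∧ On (mp (algebraMap K (Om K)) P)) ∧
      (∀ P ∈ c', NZ P ∧ On (mp (algebraMap K (Om K)) P)) ∧ At R V0 φ0 t0 G i c ∧ At R V0 φ0 t0 G j c' ∧
      N • (cy c - cy c') ∈ RatG w On := by
  classical
  obtain ⟨E, hT⟩ := gauss_exists V0 φ0 t0 l hl
  have hEl : IsLocalHom E.ψ := E.loc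
  obtain ⟨S', hrel⟩ := rel_exists hw E.V E.ψ (fun P hP => hC.nz1 P (hS P hP))
  have hS'm : ∀ p ∈ S', NZ p ∧ On p := by
    intro p hp
    obtain ⟨P, hP, hPp⟩ := Multiset.exists_mem_of_rel_of_mem (Multiset.rel_flip.2 hrel) hp
    exact ⟨Spc.nz hPp, hC.ext E P p (hS P hP) hPp⟩
  have hS' : ∀ p ∈ S', NZ p := fun p hp => (hS'm p hp).1
  obtain ⟨e1, he1, h1⟩ := chow_spc R hrel
  obtain ⟨e, he, hmem, ⟨m1, a1, ha1, hr1⟩, ⟨m2, a2, ha2, hr2⟩, hlow, hhigh⟩ := hE
  -- the reduced coefficients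
  let ρ : ℕ → (R.B →₀ ℕ) → K := fun i' m => φ0 ⟨e * l ^ i' * cf t0 G i' m, hmem i' m⟩
  have hρ : ∀ i' m, Rd V0 φ0 (e * l ^ i' * cf t0 G i' m) (ρ i' m) := fun i' m => ⟨hmem i' m, rfl⟩
  have hcf0 : ∀ i' m, (MvPolynomial.coeff m G).natDegree < i' → cf t0 G i' m = 0 := by
    intro i' m h
    unfold cf
    refine coeff_eq_zero_of_natDegree_lt ?_
    rwa [natDegree_taylor]
  have hρ0 : ∀ i' m, (MvPolynomial.coeff m G).natDegree < i' → ρ i' m = 0 := by
    intro i' m h
    have h2 := hρ i' m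
    rw [hcf0 i' m h, mul_zero] at h2
    exact h2.unique Rd.zero
  let gg : (R.B →₀ ℕ) → K[X] := fun m =>
    ∑ i' ∈ Finset.range ((MvPolynomial.coeff m G).natDegree + 1), monomial i' (ρ i' m)
  have hgg : ∀ m i', (gg m).coeff i' = ρ i' m := by
    intro m i'
    change (∑ i' ∈ Finset.range ((MvPolynomial.coeff m G).natDegree + 1), monomial i' (ρ i' m)).coeff i' = _
    rw [finset_sum_coeff]
    simp only [coeff_monomial]
    rw [Finset.sum_ite_eq']
    split_ifs with h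
    · rfl
    · rw [hρ0 i' m]
      rw [Finset.mem_range] at h
      omega
  -- reduction of the coefficients of `G`
  have h2 : ∀ m, Rd E.V E.ψ (algebraMap K1 (Om K1) e * algebraMap K1[X] (Om K1) (MvPolynomial.coeff m G))
      (algebraMap K[X] (Om K) (gg m)) := by
    intro m
    have hdeg : (gg m).natDegree < (MvPolynomial.coeff m G).natDegree + 1 := by
      refine Nat.lt_succ_of_le (natDegree_le_iff_coeff_eq_zero.2 fun i' hi' => ?_)
      rw [hgg, hρ0 i' m hi']
    rw [ed_taylor t0 (MvPolynomial.coeff m G) (Nat.lt_succ_self _), Finset.mul_sum, ed_sum (gg m) hdeg]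
    refine ed_rd_sum _ fun i' _ => ?_
    have hlA : algebraMap K1 (Om K1) l ≠ 0 := (map_ne_zero_iff _ (algebraMap K1 (Om K1)).injective).2 hl
    have h3 : algebraMap K1 (Om K1) e * (algebraMap K1 (Om K1) ((taylor t0 (MvPolynomial.coeff m G)).coeff i') *
        (tt K1 - algebraMap K1 (Om K1) t0) ^ i') =
        algebraMap K1 (Om K1) (e * l ^ i' * cf t0 G i' m) *
          ((tt K1 - algebraMap K1 (Om K1) t0) / algebraMap K1 (Om K1) l) ^ i' := by
      rw [map_mul, map_mul, map_pow, div_pow]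
      change _ = algebraMap K1 (Om K1) e * algebraMap K1 (Om K1) l ^ i' *
        algebraMap K1 (Om K1) ((taylor t0 (MvPolynomial.coeff m G)).coeff i') * _
      field_simp
    rw [h3, hgg]
    exact (E.ext ⟨_, hmem i' m⟩).mul (hT.pow i')
  have hγ : algebraMap K1[X] (Om K1) g ≠ 0 := (map_ne_zero_iff _ (ed_inj K1)).2 hg
  have hG' : ∀ m, algebraMap K1[X] (Om K1) (MvPolynomial.coeff m G) =
      algebraMap K1[X] (Om K1) g * MvPolynomial.coeff m (chow R S) := by
    intro m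
    have h3 := congrArg (MvPolynomial.coeff m) hG
    rwa [MvPolynomial.coeff_map, MvPolynomial.coeff_C_mul] at h3
  have h3 : ∀ m, Rd E.V E.ψ (algebraMap K1 (Om K1) e * algebraMap K1[X] (Om K1) g * MvPolynomial.coeff m (chow R S))
      (algebraMap K[X] (Om K) (gg m)) := by
    intro m
    rw [mul_assoc, ← hG' m]
    exact h2 m
  have hi1 : (gg m1).coeff i ≠ 0 := by
    rw [hgg, (hρ i m1).unique hr1]
    exact ha1
  have hj2 : (gg m2).coeff j ≠ 0 := by
    rw [hgg, (hρ j m2).unique hr2]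
    exact ha2
  have hlo : ∀ m, ∀ i' < i, (gg m).coeff i' = 0 := by
    intro m i' hi'
    rw [hgg]
    exact (hρ i' m).unique (hlow i' hi' m)
  have hhi : ∀ m, (gg m).natDegree ≤ j := by
    intro m
    refine natDegree_le_iff_coeff_eq_zero.2 fun i' hi' => ?_
    rw [hgg]
    exact (hρ i' m).unique (hhigh i' hi' m)
  have heA : algebraMap K1 (Om K1) e ≠ 0 := (map_ne_zero_iff _ (algebraMap K1 (Om K1)).injective).2 he
  have hb : ∃ m, algebraMap K[X] (Om K) (gg m) ≠ 0 := by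
    refine ⟨m1, (map_ne_zero_iff _ (ed_inj K)).2 ?_⟩
    intro h0
    rw [h0, coeff_zero] at hi1
    exact hi1 rfl
  obtain ⟨u, hu, h4⟩ := rd_uniq he1 (mul_ne_zero heA hγ) h1 h3
    (MvPolynomial.ne_zero_iff.1 (chow_ne R hS')) hb
  have hGpr : Gpr w S' := ed_gpr R hS' hu h4
  obtain ⟨S'', hGst, hS''p, hS''r⟩ := hN.2 K S' hS' hGpr
  -- the two places
  obtain ⟨π0, ht0, ht1⟩ := place_exists K 0
  obtain ⟨π1, ht2⟩ := H71.K3.place_inf K
  have hloc1 : IsLocalHom π1.φ := π1.isLocal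
  have hinv : Rd π1.V π1.φ (tt K)⁻¹ 0 := Rd.inv_zero ht2
  have hcoef : ∀ i' m, Rd V0 φ0 (e * l ^ i' * cf t0 G i' m) ((gg m).coeff i') := by
    intro i' m
    rw [hgg]
    exact hρ i' m
  obtain ⟨c, hc1, hc2, hc3⟩ := ed_end (V0 := V0) (φ0 := φ0) R hw hS' (fun P hP => (hS'm P hP).2) hC.spc hu h4
    (t0 := t0) (G := G) (i := i) (mul_ne_zero he (pow_ne_zero i hl)) (fun m => hcoef i m) π0
    (v := (tt K)⁻¹ ^ i) (pow_ne_zero i (inv_ne_zero (ed_tt K))) (fun m => ed_low π0 ⟨ht0, ht1⟩ (gg m) i (hlo m))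
    ⟨m1, hi1⟩
  obtain ⟨c', hc1', hc2', hc3'⟩ := ed_end (V0 := V0) (φ0 := φ0) R hw hS' (fun P hP => (hS'm P hP).2) hC.spc hu h4
    (t0 := t0) (G := G) (i := j) (mul_ne_zero he (pow_ne_zero j hl)) (fun m => hcoef j m) π1
    (v := (tt K)⁻¹ ^ j) (pow_ne_zero j (inv_ne_zero (ed_tt K))) (fun m => ed_high π1 hinv (gg m) j (hhi m))
    ⟨m2, hj2⟩
  refine ⟨c, c', hc1, hc1', hc2, hc2', ?_⟩
  refine AddSubgroup.subset_closure ⟨S'', π0, π1, N • c, N • c', ?_, hGst, hS''r π0 c hc3, hS''r π1 c' hc3', ?_⟩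
  · intro P hP
    obtain ⟨P', hP', hPP⟩ := hS''p P hP
    exact hC.prp P' P (hS'm P' hP').2 hPP
  · rw [ed_cy_nsmul, ed_cy_nsmul, smul_sub]

end SZ
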