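import Pool.Agent.H71.SZ.MainS
import Pool.Agent.H71.SZ.LiftW
import Pool.Agent.H34.ES.Spc

/-! # SZ.GlueES : specialisation of `ES.RatEq` (about 200 lines)

Blocks `J = Fin k`, `I _ = Fin s ⊕ Fin 2`, weights `wx`.  `tov` is a bijection from `k`-tuples of points to `Vc`.  `rat_tov`: `z ∈ ES.RatEq k W → mapDomain tov z ∈ RatG wx (OnV W)` and back (`AddSubgroup.closure_induction`, map the multisets by `tov`; `Spc` of `tov P`
is `ES.SpT`, the condition `p j ≠ 0` is `ES.Pt.NZ`).  `Clo`: as `ES.Sp_onW`, `ES.OnW_smul`, `ES.OnW_cst` in `Pool/Agent/H34/ES/Spc.lean`, now for general places and reductions of the coefficients. -/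

namespace SZ

open H68.BB

variable {s k : ℕ}

/-- the weights of the coordinates of `k` points -/
def wx (v : Fin s → ℕ) (n : ℕ) : ∀ _ : Fin k, Fin s ⊕ Fin 2 → ℕ := fun _ => Sum.elim v ![2 * n, 3 * n]

/-- the coordinate vector of `k` points -/
def tov {F : Type} (P : Fin k → ES.Pt s F) : Vc (fun _ : Fin k => Fin s ⊕ Fin 2) F :=
  fun j => Sum.elim (P j).β ![(P j).x, (P j).y]

/-- the points with given coordinate vector -/
def ofv {F : Type} (P : Vc (fun _ : Fin k => Fin s ⊕ Fin 2) F) : Fin k → ES.Pt s F :=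
  fun j => ⟨fun i => P j (.inl i), P j (.inr 0), P j (.inr 1)⟩

/-- all points are on `W` -/
def OnV {K F : Type} [Field K] [Field F] [Algebra K F] (W : ES.Wm K s) (P : Vc (fun _ : Fin k => Fin s ⊕ Fin 2) F) : Prop :=
  ∀ j, ES.OnW W (ofv P j)

variable {K1 K : Type} [Field K1] [Field K] {V0 : ValuationSubring K1} {φ0 : V0 →+* K}

/-- `W1` reduces to `W` -/
structure RdW (V0 : ValuationSubring K1) (φ0 : V0 →+* K) (W1 : ES.Wm K1 s) (W : ES.Wm K s) : Prop where
  v : W1.v = W.v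
  n : W1.n = W.n
  I : ∀ f ∈ W.I, ∃ f1 ∈ W1.I, ∀ m, Rd V0 φ0 (MvPolynomial.coeff m f1) (MvPolynomial.coeff m f)
  a : ∀ m, Rd V0 φ0 (MvPolynomial.coeff m W1.a) (MvPolynomial.coeff m W.a)
  b : ∀ m, Rd V0 φ0 (MvPolynomial.coeff m W1.b) (MvPolynomial.coeff m W.b)

/-! private lemmas -/

private theorem ge_tov_ofv {F : Type} (P : Vc (fun _ : Fin k => Fin s ⊕ Fin 2) F) : tov (ofv P) = P := by
  funext j i
  rcases i with i | i
  · rfl
  · fin_cases i <;> rfl

private theorem ge_ofv_tov {F : Type} (P : Fin k → ES.Pt s F) : ofv (tov P) = P := rfl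

private theorem ge_inj {F : Type} : Function.Injective (tov : (Fin k → ES.Pt s F) → _) :=
  Function.LeftInverse.injective (g := ofv) ge_ofv_tov

private theorem ge_ne {F : Type} [Zero F] (P : Fin k → ES.Pt s F) (j : Fin k) : tov P j ≠ 0 ↔ (P j).NZ := by
  constructor
  · intro h
    by_contra hc
    unfold ES.Pt.NZ at hc
    push Not at hc
    obtain ⟨h1, h2, h3⟩ := hc
    apply h
    funext i
    rcases i with i | i
    · exact congrFun h1 i
    · fin_cases i
      · exact h2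
      · exact h3
  · rintro (h | h | h) h0
    · exact h (funext fun i => congrFun h0 (.inl i))
    · exact h (congrFun h0 (.inr 0))
    · exact h (congrFun h0 (.inr 1))

private theorem ge_spc {W : ES.Wm K s} {π : Place K (Om K)} {P : Fin k → ES.Pt s (Om K)} {p : Fin k → ES.Pt s K} :
    Spc (wx (k := k) W.v W.n) π.V π.φ (tov P) (tov p) ↔ ES.SpT W π P p := by
  refine forall_congr' fun j => ?_
  unfold ES.Sp
  refine and_congr (ge_ne p j) (exists_congr fun c => and_congr_right fun _ => ?_)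
  constructor
  · intro h
    exact ⟨fun i => h (.inl i), h (.inr 0), h (.inr 1)⟩
  · rintro ⟨h1, h2, h3⟩ i
    rcases i with i | i
    · exact h1 i
    · fin_cases i
      · exact h2
      · exact h3

private theorem ge_mp {F G : Type} (f : F → G) (P : Fin k → ES.Pt s F) : mp f (tov P) = tov (fun i => (P i).map f) := by
  funext j i
  rcases i with i | i
  · rfl
  · fin_cases i <;> rfl

private theorem ge_cy (C : Multiset (Fin k → ES.Pt s K)) :
    Finsupp.mapDomain tov (ES.cyc C) = cy (C.map (tov : (Fin k → ES.Pt s K) → _)) := by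
  unfold ES.cyc cy
  have h := map_multiset_sum (Finsupp.mapDomain.addMonoidHom (M := ℤ) (tov : (Fin k → ES.Pt s K) → _)) (C.map ES.pt)
  rw [Multiset.map_map] at h
  rw [Multiset.map_map]
  refine h.trans (congrArg Multiset.sum (Multiset.map_congr rfl fun P _ => ?_))
  change Finsupp.mapDomain tov (ES.pt P) = Finsupp.single (tov P) 1
  unfold ES.pt
  rw [Finsupp.mapDomain_single]

private theorem ge_to {W : ES.Wm K s} {z : ES.Cyc k s K} (hz : z ∈ ES.RatEq k W) :
    Finsupp.mapDomain tov z ∈ RatG (wx (k := k) W.v W.n) (OnV W) := by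
  unfold ES.RatEq at hz
  induction hz using AddSubgroup.closure_induction with
  | mem z hz =>
    obtain ⟨S, π, π', c, c', hS, hG, h1, h2, rfl⟩ := hz
    refine AddSubgroup.subset_closure ⟨S.map tov, π, π', c.map tov, c'.map tov, ?_, ?_, ?_, ?_, ?_⟩
    · intro P hP
      obtain ⟨Q, hQ, rfl⟩ := Multiset.mem_map.1 hP
      exact hS Q hQ
    · intro σ
      conv_rhs => rw [← hG σ]
      rw [Multiset.map_map, Multiset.map_map]
      exact Multiset.map_congr rfl fun P _ => ge_mp _ P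
    · rw [Multiset.rel_map]
      exact Multiset.Rel.mono h1 fun P _ p _ h => ge_spc.2 h
    · rw [Multiset.rel_map]
      exact Multiset.Rel.mono h2 fun P _ p _ h => ge_spc.2 h
    · have e := map_sub (Finsupp.mapDomain.addMonoidHom (M := ℤ) (tov : (Fin k → ES.Pt s K) → _)) (ES.cyc c) (ES.cyc c')
      refine e.trans ?_
      change Finsupp.mapDomain tov (ES.cyc c) - Finsupp.mapDomain tov (ES.cyc c') = _
      rw [ge_cy, ge_cy]
  | zero => rw [Finsupp.mapDomain_zero]; exact AddSubgroup.zero_mem _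
  | add x y _ _ hx hy => rw [Finsupp.mapDomain_add]; exact AddSubgroup.add_mem _ hx hy
  | neg x _ hx =>
    have e := map_neg (Finsupp.mapDomain.addMonoidHom (M := ℤ) (tov : (Fin k → ES.Pt s K) → _)) x
    have e' : Finsupp.mapDomain (tov : (Fin k → ES.Pt s K) → _) (-x) = -Finsupp.mapDomain tov x := e
    rw [e']
    exact AddSubgroup.neg_mem _ hx

private theorem ge_from {W : ES.Wm K s} {z : Cy (fun _ : Fin k => Fin s ⊕ Fin 2) K}
    (hz : z ∈ RatG (wx (k := k) W.v W.n) (OnV W)) : Finsupp.mapDomain ofv z ∈ ES.RatEq k W := by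
  unfold RatG at hz
  induction hz using AddSubgroup.closure_induction with
  | mem z hz =>
    obtain ⟨S, π, π', c, c', hS, hG, h1, h2, rfl⟩ := hz
    have hcc : ∀ C : Multiset (Vc (fun _ : Fin k => Fin s ⊕ Fin 2) K), (C.map ofv).map tov = C := by
      intro C
      rw [Multiset.map_map]
      conv_rhs => rw [← Multiset.map_id C]
      exact Multiset.map_congr rfl fun P _ => ge_tov_ofv P
    have hcy : ∀ C : Multiset (Vc (fun _ : Fin k => Fin s ⊕ Fin 2) K), Finsupp.mapDomain ofv (cy C) = ES.cyc (C.map ofv) := by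
      intro C
      conv_lhs => rw [← hcc C]
      rw [← ge_cy, ← Finsupp.mapDomain_comp]
      exact Finsupp.mapDomain_id
    refine AddSubgroup.subset_closure ⟨S.map ofv, π, π', c.map ofv, c'.map ofv, ?_, ?_, ?_, ?_, ?_⟩
    · intro P hP
      obtain ⟨Q, hQ, rfl⟩ := Multiset.mem_map.1 hP
      exact hS Q hQ
    · intro σ
      conv_rhs => rw [← hG σ]
      rw [Multiset.map_map, Multiset.map_map]
      exact Multiset.map_congr rfl fun P _ => rfl
    · rw [Multiset.rel_map]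
      exact Multiset.Rel.mono h1 fun P _ p _ h => ge_spc.1 (by rw [ge_tov_ofv, ge_tov_ofv]; exact h)
    · rw [Multiset.rel_map]
      exact Multiset.Rel.mono h2 fun P _ p _ h => ge_spc.1 (by rw [ge_tov_ofv, ge_tov_ofv]; exact h)
    · have e := map_sub (Finsupp.mapDomain.addMonoidHom (M := ℤ)
        (ofv : Vc (fun _ : Fin k => Fin s ⊕ Fin 2) K → _)) (cy c) (cy c')
      refine e.trans ?_
      change Finsupp.mapDomain ofv (cy c) - Finsupp.mapDomain ofv (cy c') = _
      rw [hcy, hcy]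
  | zero => rw [Finsupp.mapDomain_zero]; exact AddSubgroup.zero_mem _
  | add x y _ _ hx hy => rw [Finsupp.mapDomain_add]; exact AddSubgroup.add_mem _ hx hy
  | neg x _ hx =>
    have e := map_neg (Finsupp.mapDomain.addMonoidHom (M := ℤ)
      (ofv : Vc (fun _ : Fin k => Fin s ⊕ Fin 2) K → _)) x
    have e' : Finsupp.mapDomain (ofv : Vc (fun _ : Fin k => Fin s ⊕ Fin 2) K → _) (-x) = -Finsupp.mapDomain ofv x := e
    rw [e']
    exact AddSubgroup.neg_mem _ hx

theorem rat_tov {W : ES.Wm K s} {z : ES.Cyc k s K} :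
    z ∈ ES.RatEq k W ↔ Finsupp.mapDomain tov z ∈ RatG (wx (k := k) W.v W.n) (OnV W) := by
  constructor
  · exact ge_to
  · intro h
    have h1 := ge_from h
    rw [← Finsupp.mapDomain_comp] at h1
    have e : Finsupp.mapDomain ((ofv : Vc (fun _ : Fin k => Fin s ⊕ Fin 2) K → _) ∘ tov) z = z := Finsupp.mapDomain_id
    rwa [e] at h1

private theorem ge_rd_sum {F1 F : Type} [Field F1] [Field F] {V : ValuationSubring F1} {ψ : V →+* F} {ι : Type} (T : Finset ι)
    (x : ι → F1) (a : ι → F) (h : ∀ i ∈ T, Rd V ψ (x i) (a i)) : Rd V ψ (∑ i ∈ T, x i) (∑ i ∈ T, a i) := by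
  classical
  induction T using Finset.induction_on with
  | empty => rw [Finset.sum_empty, Finset.sum_empty]; exact Rd.zero
  | insert i T hi ih =>
    rw [Finset.sum_insert hi, Finset.sum_insert hi]
    exact (h i (Finset.mem_insert_self _ _)).add (ih fun j hj => h j (Finset.mem_insert_of_mem hj))

private theorem ge_rd_prod {F1 F : Type} [Field F1] [Field F] {V : ValuationSubring F1} {ψ : V →+* F} {ι : Type} (T : Finset ι)
    (x : ι → F1) (a : ι → F) (h : ∀ i ∈ T, Rd V ψ (x i) (a i)) : Rd V ψ (∏ i ∈ T, x i) (∏ i ∈ T, a i) := by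
  classical
  induction T using Finset.induction_on with
  | empty => rw [Finset.prod_empty, Finset.prod_empty]; exact Rd.one
  | insert i T hi ih =>
    rw [Finset.prod_insert hi, Finset.prod_insert hi]
    exact (h i (Finset.mem_insert_self _ _)).mul (ih fun j hj => h j (Finset.mem_insert_of_mem hj))

private theorem ge_ev {F : Type} [Field F] [Algebra K F] (f : MvPolynomial (Fin s) K) (β : Fin s → F)
    (T : Finset (Fin s →₀ ℕ)) (hT : f.support ⊆ T) :
    ES.ev f β = ∑ d ∈ T, algebraMap K F (MvPolynomial.coeff d f) * ∏ i, β i ^ d i := by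
  unfold ES.ev
  rw [MvPolynomial.aeval_def, MvPolynomial.eval₂_eq']
  refine Finset.sum_subset hT fun d _ hd => ?_
  rw [MvPolynomial.notMem_support_iff.1 hd, map_zero, zero_mul]

private theorem ge_rd_ev {F1 F : Type} [Field F1] [Field F] [Algebra K1 F1] [Algebra K F] {V : ValuationSubring F1}
    {ψ : V →+* F} (hco : ∀ a a', Rd V0 φ0 a a' → Rd V ψ (algebraMap K1 F1 a) (algebraMap K F a'))
    {f1 : MvPolynomial (Fin s) K1} {f : MvPolynomial (Fin s) K}
    (h : ∀ m, Rd V0 φ0 (MvPolynomial.coeff m f1) (MvPolynomial.coeff m f)) {β1 : Fin s → F1} {β : Fin s → F}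
    (hβ : ∀ i, Rd V ψ (β1 i) (β i)) : Rd V ψ (ES.ev f1 β1) (ES.ev f β) := by
  classical
  rw [ge_ev f1 β1 (f1.support ∪ f.support) Finset.subset_union_left,
    ge_ev f β (f1.support ∪ f.support) Finset.subset_union_right]
  refine ge_rd_sum _ _ _ fun d _ => (hco _ _ (h d)).mul (ge_rd_prod _ _ _ fun i _ => (hβ i).pow _)

/-- the specialisation of a point of `W1` is on `W` -/
private theorem ge_on {F1 F : Type} [Field F1] [Field F] [Algebra K1 F1] [Algebra K F] {V : ValuationSubring F1}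
    {ψ : V →+* F} (hco : ∀ a a', Rd V0 φ0 a a' → Rd V ψ (algebraMap K1 F1 a) (algebraMap K F a'))
    {W1 : ES.Wm K1 s} {W : ES.Wm K s} (h1 : W1.Ok) (hr : RdW V0 φ0 W1 W)
    {P : Vc (fun _ : Fin k => Fin s ⊕ Fin 2) F1} {p : Vc (fun _ : Fin k => Fin s ⊕ Fin 2) F}
    (hP : OnV W1 P) (hp : Spc (wx (k := k) W.v W.n) V ψ P p) : OnV W p := by
  intro j
  obtain ⟨hpj, c, hc, hrd⟩ := hp j
  have hPj := hP j
  have h0 : ∀ i, Rd V ψ (c ^ W1.v i * (ofv P j).β i) ((ofv p j).β i) := fun i => by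
    rw [hr.v]
    exact hrd (.inl i)
  have h2 : Rd V ψ (c ^ (2 * W1.n) * (ofv P j).x) (ofv p j).x := by
    rw [hr.n]
    exact hrd (.inr 0)
  have h3 : Rd V ψ (c ^ (3 * W1.n) * (ofv P j).y) (ofv p j).y := by
    rw [hr.n]
    exact hrd (.inr 1)
  refine ⟨?_, ?_, ?_⟩
  · refine (ge_ne (ofv p) j).1 ?_
    rw [ge_tov_ofv]
    exact hpj
  · intro f hf
    obtain ⟨f1, hf1, hff⟩ := hr.I f hf
    obtain ⟨m, hm, hh⟩ := h1.I f1 hf1
    have h4 := ge_rd_ev hco hff h0
    rw [ES.ev_scale hh, hPj.2.1 f1 hf1, mul_zero] at h4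
    exact h4.unique Rd.zero
  · have ha' := ge_rd_ev hco hr.a h0
    have hb' := ge_rd_ev hco hr.b h0
    rw [ES.ev_scale h1.a] at ha'
    rw [ES.ev_scale h1.b] at hb'
    have h33 : Rd V ψ (3 : F1) 3 := Rd.three
    have h22 : Rd V ψ (2 : F1) 2 := Rd.two
    have h4 := ((h2.pow 3).sub ((h33.mul ha').mul h2)).sub (h22.mul hb')
    have h5 := h3.pow 2
    have h6 : (c ^ (3 * W1.n) * (ofv P j).y) ^ 2 = (c ^ (2 * W1.n) * (ofv P j).x) ^ 3 -
        3 * (c ^ (4 * W1.n) * ES.ev W1.a (ofv P j).β) * (c ^ (2 * W1.n) * (ofv P j).x) -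
        2 * (c ^ (6 * W1.n) * ES.ev W1.b (ofv P j).β) := by
      linear_combination c ^ (6 * W1.n) * hPj.2.2
    rw [h6] at h5
    exact h5.unique h4

private theorem ge_nz {F : Type} [Field F] [Algebra K F] {W : ES.Wm K s} {P : Vc (fun _ : Fin k => Fin s ⊕ Fin 2) F}
    (h : OnV W P) : NZ P := by
  intro j
  have h1 := (ge_ne (ofv P) j).2 (h j).1
  rwa [ge_tov_ofv] at h1

theorem clo_es [IsAlgClosed K] [IsLocalHom φ0] {W1 : ES.Wm K1 s} {W : ES.Wm K s} (h1 : W1.Ok) (h : W.Ok) (hr : RdW V0 φ0 W1 W) :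
    Clo (wx (k := k) W.v W.n) V0 φ0 (OnV W1) (OnV W) := by
  refine ⟨fun P hP => ge_nz hP, ?_, ?_, ?_, ?_⟩
  · intro E P p hP hp
    refine ge_on (fun a a' ha => ?_) h1 hr hP hp
    obtain ⟨hm, rfl⟩ := ha
    exact E.ext ⟨a, hm⟩
  · intro π P p hP hp j
    have h2 : ES.Sp W π (ofv P j) (ofv p j) :=
      ge_spc.1 (by rw [ge_tov_ofv, ge_tov_ofv]; exact hp) j
    exact ES.OnW_cst (ES.Sp_onW h (hP j) h2)
  · rintro P P' hP ⟨c, hc, rfl⟩ j
    exact ES.OnW_smul h (hP j) (hc j)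
  · intro π P p q hP hp hq j
    have hp1 : OnV W1 p := by
      intro j
      have h2 : ES.Sp W1 π (ofv P j) (ofv p j) :=
        ge_spc.1 (by rw [ge_tov_ofv, ge_tov_ofv, hr.v, hr.n]; exact hp) j
      exact ES.Sp_onW h1 (hP j) h2
    have hq1 : OnV W q := ge_on (F1 := K1) (F := K) (V := V0) (ψ := φ0) (fun a a' ha => ha) h1 hr hp1 hq
    exact ES.OnW_cst (hq1 j)

theorem es_spz [IsAlgClosed K1] [IsAlgClosed K] [CharZero K1] [IsLocalHom φ0] {W1 : ES.Wm K1 s} {W : ES.Wm K s} (h1 : W1.Ok)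
    (h : W.Ok) (hr : RdW V0 φ0 W1 W) :
    ∃ N : ℕ, 0 < N ∧ ∀ (ι : Type) (T : Finset ι) (n : ι → ℤ) (P : ι → Fin k → ES.Pt s K1) (p : ι → Fin k → ES.Pt s K),
      (∀ i ∈ T, ∀ j, ES.OnW W (p i j) ∧ RdP V0 φ0 (P i j) (p i j)) → ∑ i ∈ T, n i • ES.pt (P i) ∈ ES.RatEq k W1 →
      N • ∑ i ∈ T, n i • ES.pt (p i) ∈ ES.RatEq k W := by
  classical
  have hw : ∀ (j : Fin k) (i : Fin s ⊕ Fin 2), 0 < wx (k := k) W.v W.n j i := by
    intro j i
    have hn := h.n
    rcases i with i | i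
    · exact h.v i
    · fin_cases i
      · change 0 < 2 * W.n
        omega
      · change 0 < 3 * W.n
        omega
  obtain ⟨N, hN⟩ := orb_exists hw
  refine ⟨N, hN.1, ?_⟩
  intro ι T n P p hPp hz
  have hC := clo_es (k := k) h1 h hr
  let sp : Vc (fun _ : Fin k => Fin s ⊕ Fin 2) K1 → Vc (fun _ : Fin k => Fin s ⊕ Fin 2) K := fun Q =>
    if hQ : ∃ q : Vc (fun _ : Fin k => Fin s ⊕ Fin 2) K, NZ q ∧ ∀ j i, Rd V0 φ0 (Q j i) (q j i) then hQ.choose
    else if hQ : ∃ q, Spc (wx (k := k) W.v W.n) V0 φ0 Q q then hQ.choose else 0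
  have hsp : ∀ Q, NZ Q → Spc (wx (k := k) W.v W.n) V0 φ0 Q (sp Q) := by
    intro Q hQ
    by_cases h2 : ∃ q : Vc (fun _ : Fin k => Fin s ⊕ Fin 2) K, NZ q ∧ ∀ j i, Rd V0 φ0 (Q j i) (q j i)
    · have e : sp Q = h2.choose := dif_pos h2
      rw [e]
      exact Spc.of_rd h2.choose_spec.1 h2.choose_spec.2
    · have h3 : ∃ q, Spc (wx (k := k) W.v W.n) V0 φ0 Q q := spc_exists hw V0 φ0 hQ
      have e : sp Q = h3.choose := (dif_neg h2).trans (dif_pos h3)
      rw [e]
      exact h3.choose_spec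
  have hspP : ∀ i ∈ T, sp (tov (P i)) = tov (p i) := by
    intro i hi
    have hrd : ∀ j x, Rd V0 φ0 (tov (P i) j x) (tov (p i) j x) := by
      intro j x
      obtain ⟨-, h2, h3, h4⟩ := hPp i hi j
      rcases x with x | x
      · exact h2 x
      · fin_cases x
        · exact h3
        · exact h4
    have h2 : ∃ q : Vc (fun _ : Fin k => Fin s ⊕ Fin 2) K, NZ q ∧ ∀ j x, Rd V0 φ0 (tov (P i) j x) (q j x) :=
      ⟨tov (p i), fun j => (ge_ne (p i) j).2 (hPp i hi j).1.1, hrd⟩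
    have e : sp (tov (P i)) = h2.choose := dif_pos h2
    rw [e]
    funext j x
    exact (h2.choose_spec.2 j x).unique (hrd j x)
  have hz2 := rat_tov.1 hz
  rw [hr.v, hr.n] at hz2
  have h5 := spz hw hN hC hsp hz2
  rw [rat_tov]
  have e1 : ∀ (F : Type) [Field F] (Q : ι → Fin k → ES.Pt s F), Finsupp.mapDomain tov (∑ i ∈ T, n i • ES.pt (Q i)) =
      ∑ i ∈ T, n i • (Finsupp.single (tov (Q i)) 1 : Cy (fun _ : Fin k => Fin s ⊕ Fin 2) F) := by
    intro F _ Q
    have e := map_sum (Finsupp.mapDomain.addMonoidHom (M := ℤ) (tov : (Fin k → ES.Pt s F) → _)) (fun i => n i • ES.pt (Q i)) T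
    refine e.trans (Finset.sum_congr rfl fun i _ => ?_)
    rw [map_zsmul]
    congr 1
    change Finsupp.mapDomain tov (ES.pt (Q i)) = _
    unfold ES.pt
    rw [Finsupp.mapDomain_single]
  have e2 : Finsupp.mapDomain sp (∑ i ∈ T, n i • (Finsupp.single (tov (P i)) 1 : Cy (fun _ : Fin k => Fin s ⊕ Fin 2) K1)) =
      ∑ i ∈ T, n i • (Finsupp.single (tov (p i)) 1 : Cy (fun _ : Fin k => Fin s ⊕ Fin 2) K) := by
    have e := map_sum (Finsupp.mapDomain.addMonoidHom (M := ℤ) sp)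
      (fun i => n i • (Finsupp.single (tov (P i)) 1 : Cy (fun _ : Fin k => Fin s ⊕ Fin 2) K1)) T
    refine e.trans (Finset.sum_congr rfl fun i hi => ?_)
    rw [map_zsmul]
    congr 1
    change Finsupp.mapDomain sp (Finsupp.single (tov (P i)) 1) = _
    rw [Finsupp.mapDomain_single, hspP i hi]
  rw [e1 K1 P, e2] at h5
  have e3 := map_nsmul (Finsupp.mapDomain.addMonoidHom (M := ℤ) (tov : (Fin k → ES.Pt s K) → _)) N
    (∑ i ∈ T, n i • ES.pt (p i))
  have e4 : Finsupp.mapDomain tov (N • ∑ i ∈ T, n i • ES.pt (p i)) =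
      N • Finsupp.mapDomain tov (∑ i ∈ T, n i • ES.pt (p i)) := e3
  rw [e4, e1 K p]
  exact h5

end SZ
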