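import Pool.Agent.H71.SZ.GlueES
import Pool.Agent.H8.FX.Def
import Pool.Agent.H8.FX.Bas

/-! # SZ.GlueFX : specialisation of `FX.RatX` (about 300 lines)

As `Pool/Agent/H71/SZ/GlueES.lean` (definitions `tov`, `ofv`, `OnV`, `rat_tov`, `clo_es`, `es_spz`).  Blocks `J = Fin k × Option (Fin c)`, all of them with the coordinates `Fin s ⊕ Fin 2`: the block `(i, none)` is the
base point `(β, 0, 0)` of the row `i` (weights `v, 1, 1`), the block `(i, some j)` is its point of the surface `j` (weights `v, 2 n_j, 3 n_j`).  `toX` is injective, `ofX` is a left inverse which forgets the two zeros;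
`OnXV` says that the rows `ofX P` are on `X` and that the last two coordinates of the blocks `(i, none)` are zero (a closed condition: `Rd.unique`, `Rd.zero`).
`to_rat`: a generator `(S, π, π', C, C')` of `RatX` is mapped by `toX` to a generator of `RatG` (`SpX` is `Spc` of `toX`).  `of_rat`: a generator of `RatG` is mapped by `ofX` to a generator of `RatX` (the elements of `c`, `c'` are specialisations of elements of `S`).
`Clo`: the condition `Over` (`β' = 0` or `β' = d^v β`) is closed: if `β'` is not zero, after scaling both are integral with nonzero reductions, so the ratio of the scalars is a unit (as in `spc_uniq`); compare `SpR_onX` in `Pool/Agent/H8/FX/Bas.lean`. -/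

namespace SZ

open H68.BB FX

variable {s c k : ℕ}

/-- the weights -/
def wX (v : Fin s → ℕ) (n : Fin c → ℕ) : ∀ _ : Fin k × Option (Fin c), Fin s ⊕ Fin 2 → ℕ :=
  fun b => b.2.elim (Sum.elim v ![1, 1]) fun j => Sum.elim v ![2 * n j, 3 * n j]

/-- the coordinate vector of `k` rows -/
def toX {F : Type} [Zero F] (R : Fin k → Row s c F) : Vc (fun _ : Fin k × Option (Fin c) => Fin s ⊕ Fin 2) F :=
  fun b => b.2.elim (Sum.elim (R b.1).β ![0, 0]) fun j => Sum.elim ((R b.1).P j).β ![((R b.1).P j).x, ((R b.1).P j).y]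

/-- the rows with given coordinate vector -/
def ofX {F : Type} (P : Vc (fun _ : Fin k × Option (Fin c) => Fin s ⊕ Fin 2) F) : Fin k → Row s c F :=
  fun i => ⟨fun l => P (i, none) (.inl l), fun j => ⟨fun l => P (i, some j) (.inl l), P (i, some j) (.inr 0), P (i, some j) (.inr 1)⟩⟩

/-- all rows are on `X` -/
def OnXV {K F : Type} [Field K] [Field F] [Algebra K F] (X : XD K s c) (P : Vc (fun _ : Fin k × Option (Fin c) => Fin s ⊕ Fin 2) F) :
    Prop :=
  ∀ i, OnX X (ofX P i) ∧ P (i, none) (.inr 0) = 0 ∧ P (i, none) (.inr 1) = 0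

variable {K1 K : Type} [Field K1] [Field K] {V0 : ValuationSubring K1} {φ0 : V0 →+* K}

/-- `X1` reduces to `X` -/
structure RdX (V0 : ValuationSubring K1) (φ0 : V0 →+* K) (X1 : XD K1 s c) (X : XD K s c) : Prop where
  v : X1.v = X.v
  n : X1.n = X.n
  I : ∀ f ∈ X.I, ∃ f1 ∈ X1.I, ∀ m, Rd V0 φ0 (MvPolynomial.coeff m f1) (MvPolynomial.coeff m f)
  a : ∀ j m, Rd V0 φ0 (MvPolynomial.coeff m (X1.a j)) (MvPolynomial.coeff m (X.a j))
  b : ∀ j m, Rd V0 φ0 (MvPolynomial.coeff m (X1.b j)) (MvPolynomial.coeff m (X.b j))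

/-- the coordinates of a row reduce -/
def RdR (V0 : ValuationSubring K1) (φ0 : V0 →+* K) (R : Row s c K1) (r : Row s c K) : Prop :=
  (∀ l, Rd V0 φ0 (R.β l) (r.β l)) ∧ ∀ j, RdP V0 φ0 (R.P j) (r.P j)

/-! private lemmas -/

private theorem gf_of_to {F : Type} [Zero F] (R : Fin k → Row s c F) : ofX (toX R) = R := rfl

private theorem gf_to_of {F : Type} [Zero F] {P : Vc (fun _ : Fin k × Option (Fin c) => Fin s ⊕ Fin 2) F}
    (h : ∀ i, P (i, none) (.inr 0) = 0 ∧ P (i, none) (.inr 1) = 0) : toX (ofX P) = P := by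
  funext b l
  obtain ⟨i, j⟩ := b
  rcases j with _ | j
  · rcases l with l | l
    · rfl
    · fin_cases l
      · exact (h i).1.symm
      · exact (h i).2.symm
  · rcases l with l | l
    · rfl
    · fin_cases l <;> rfl

private theorem gf_ne0 {F : Type} [Zero F] (R : Fin k → Row s c F) (i : Fin k) : toX R (i, none) ≠ 0 ↔ (R i).β ≠ 0 := by
  constructor
  · intro h h0
    apply h
    funext l
    rcases l with l | l
    · exact congrFun h0 l
    · fin_cases l <;> rfl
  · intro h h0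
    exact h (funext fun l => congrFun h0 (.inl l))

private theorem gf_ne1 {F : Type} [Zero F] (P : Vc (fun _ : Fin k × Option (Fin c) => Fin s ⊕ Fin 2) F) (i : Fin k) (j : Fin c) :
    P (i, some j) ≠ 0 ↔ ((ofX P i).P j).NZ := by
  constructor
  · intro h
    by_contra hc
    unfold ES.Pt.NZ at hc
    push Not at hc
    obtain ⟨h1, h2, h3⟩ := hc
    apply h
    funext l
    rcases l with l | l
    · exact congrFun h1 l
    · fin_cases l
      · exact h2
      · exact h3
  · rintro (h | h | h) h0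
    · exact h (funext fun l => congrFun h0 (.inl l))
    · exact h (congrFun h0 (.inr 0))
    · exact h (congrFun h0 (.inr 1))

private theorem gf_spc {X : XD K s c} {π : Place K (Om K)} {R : Fin k → Row s c (Om K)} {r : Fin k → Row s c K}
    (h : SpX X π R r) : Spc (wX (k := k) X.v X.n) π.V π.φ (toX R) (toX r) := by
  intro b
  obtain ⟨i, j⟩ := b
  rcases j with _ | j
  · obtain ⟨h1, d, hd, h2⟩ := (h i).β
    refine ⟨(gf_ne0 r i).2 h1, d, hd, fun l => ?_⟩
    rcases l with l | l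
    · exact h2 l
    · have h3 : Rd π.V π.φ (d ^ 1 * (0 : Om K)) (0 : K) := by
        rw [mul_zero]
        exact Rd.zero
      fin_cases l
      · exact h3
      · exact h3
  · obtain ⟨h1, d, hd, h2, h3, h4⟩ := (h i).P j
    refine ⟨(gf_ne1 (toX r) i j).2 h1, d, hd, fun l => ?_⟩
    rcases l with l | l
    · exact h2 l
    · fin_cases l
      · exact h3
      · exact h4

/-- the last two coordinates of the specialisation of a block `(i, none)` are zero -/
private theorem gf_zero {F1 F : Type} [Field F1] [Field F] {V : ValuationSubring F1} {ψ : V →+* F} {v : Fin s → ℕ} {n : Fin c → ℕ}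
    {P : Vc (fun _ : Fin k × Option (Fin c) => Fin s ⊕ Fin 2) F1} {p : Vc (fun _ : Fin k × Option (Fin c) => Fin s ⊕ Fin 2) F}
    (hp : Spc (wX (k := k) v n) V ψ P p) (i : Fin k) (l : Fin 2) (h : P (i, none) (.inr l) = 0) : p (i, none) (.inr l) = 0 := by
  obtain ⟨-, d, hd, h2⟩ := hp (i, none)
  have h3 := h2 (.inr l)
  rw [h, mul_zero] at h3
  exact h3.unique Rd.zero

private theorem gf_spX {X : XD K s c} {π : Place K (Om K)} {P : Vc (fun _ : Fin k × Option (Fin c) => Fin s ⊕ Fin 2) (Om K)}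
    {p : Vc (fun _ : Fin k × Option (Fin c) => Fin s ⊕ Fin 2) K}
    (hz : ∀ i, P (i, none) (.inr 0) = 0 ∧ P (i, none) (.inr 1) = 0)
    (h : Spc (wX (k := k) X.v X.n) π.V π.φ P p) : SpX X π (ofX P) (ofX p) := by
  have hpz : toX (ofX p) = p := gf_to_of fun i => ⟨gf_zero h i 0 (hz i).1, gf_zero h i 1 (hz i).2⟩
  intro i
  refine ⟨?_, fun j => ?_⟩
  · obtain ⟨h1, d, hd, h2⟩ := h (i, none)
    refine ⟨(gf_ne0 (ofX p) i).1 (by rw [hpz]; exact h1), d, hd, fun l => h2 (.inl l)⟩
  · obtain ⟨h1, d, hd, h2⟩ := h (i, some j)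
    exact ⟨(gf_ne1 p i j).1 h1, d, hd, fun l => h2 (.inl l), h2 (.inr 0), h2 (.inr 1)⟩

private theorem gf_mp {F G : Type} [Zero F] [Zero G] (f : F → G) (hf : f 0 = 0) (R : Fin k → Row s c F) :
    mp f (toX R) = toX (fun i => (R i).map f) := by
  funext b l
  obtain ⟨i, j⟩ := b
  rcases j with _ | j
  · rcases l with l | l
    · rfl
    · fin_cases l
      · exact hf
      · exact hf
  · rcases l with l | l
    · rfl
    · fin_cases l <;> rfl

private theorem gf_hom {α β ι : Type} (f : α → β) (T : Finset ι) (n : ι → ℤ) (x : ι → α) :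
    Finsupp.mapDomain f (∑ i ∈ T, n i • (Finsupp.single (x i) 1 : α →₀ ℤ)) =
      ∑ i ∈ T, n i • (Finsupp.single (f (x i)) 1 : β →₀ ℤ) := by
  have e := map_sum (Finsupp.mapDomain.addMonoidHom (M := ℤ) f) (fun i => n i • (Finsupp.single (x i) 1 : α →₀ ℤ)) T
  refine e.trans (Finset.sum_congr rfl fun i _ => ?_)
  rw [map_zsmul]
  congr 1
  change Finsupp.mapDomain f (Finsupp.single (x i) 1) = _
  rw [Finsupp.mapDomain_single]

private theorem gf_sub {α β : Type} (f : α → β) (x y : α →₀ ℤ) :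
    Finsupp.mapDomain f (x - y) = Finsupp.mapDomain f x - Finsupp.mapDomain f y :=
  map_sub (Finsupp.mapDomain.addMonoidHom (M := ℤ) f) x y

private theorem gf_neg {α β : Type} (f : α → β) (x : α →₀ ℤ) :
    Finsupp.mapDomain f (-x) = -Finsupp.mapDomain f x :=
  map_neg (Finsupp.mapDomain.addMonoidHom (M := ℤ) f) x

private theorem gf_nsmul {α β : Type} (f : α → β) (N : ℕ) (x : α →₀ ℤ) :
    Finsupp.mapDomain f (N • x) = N • Finsupp.mapDomain f x :=
  map_nsmul (Finsupp.mapDomain.addMonoidHom (M := ℤ) f) N x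

private theorem gf_ms {α β : Type} (f : α → β) (C : Multiset α) :
    Finsupp.mapDomain f ((C.map fun P => (Finsupp.single P 1 : α →₀ ℤ)).sum) =
      ((C.map f).map fun P => (Finsupp.single P 1 : β →₀ ℤ)).sum := by
  have h := map_multiset_sum (Finsupp.mapDomain.addMonoidHom (M := ℤ) f) (C.map fun P => (Finsupp.single P 1 : α →₀ ℤ))
  rw [Multiset.map_map] at h
  rw [Multiset.map_map]
  refine h.trans (congrArg Multiset.sum (Multiset.map_congr rfl fun P _ => ?_))
  change Finsupp.mapDomain f (Finsupp.single P 1) = Finsupp.single (f P) 1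
  rw [Finsupp.mapDomain_single]

theorem to_rat {X : XD K s c} {z : CycX k s c K} (hz : z ∈ RatX k X) :
    Finsupp.mapDomain toX z ∈ RatG (wX (k := k) X.v X.n) (OnXV X) := by
  unfold RatX at hz
  induction hz using AddSubgroup.closure_induction with
  | mem z hz =>
    obtain ⟨S, π, π', C, C', hS, hG, h1, h2, rfl⟩ := hz
    refine AddSubgroup.subset_closure ⟨S.map toX, π, π', C.map toX, C'.map toX, ?_, ?_, ?_, ?_, ?_⟩
    · intro P hP
      obtain ⟨Q, hQ, rfl⟩ := Multiset.mem_map.1 hP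
      exact fun i => ⟨hS Q hQ i, rfl, rfl⟩
    · intro σ
      conv_rhs => rw [← hG σ]
      rw [Multiset.map_map, Multiset.map_map]
      exact Multiset.map_congr rfl fun P _ => gf_mp _ (map_zero σ) P
    · rw [Multiset.rel_map]
      exact Multiset.Rel.mono h1 fun P _ p _ h => gf_spc h
    · rw [Multiset.rel_map]
      exact Multiset.Rel.mono h2 fun P _ p _ h => gf_spc h
    · rw [gf_sub]
      exact congrArg₂ (· - ·) (gf_ms toX C) (gf_ms toX C')
  | zero => rw [Finsupp.mapDomain_zero]; exact AddSubgroup.zero_mem _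
  | add x y _ _ hx hy => rw [Finsupp.mapDomain_add]; exact AddSubgroup.add_mem _ hx hy
  | neg x _ hx => rw [gf_neg]; exact AddSubgroup.neg_mem _ hx

theorem of_rat {X : XD K s c} {z : Cy (fun _ : Fin k × Option (Fin c) => Fin s ⊕ Fin 2) K}
    (hz : z ∈ RatG (wX (k := k) X.v X.n) (OnXV X)) : Finsupp.mapDomain ofX z ∈ RatX k X := by
  unfold RatG at hz
  induction hz using AddSubgroup.closure_induction with
  | mem z hz =>
    obtain ⟨S, π, π', C, C', hS, hG, h1, h2, rfl⟩ := hz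
    refine AddSubgroup.subset_closure ⟨S.map ofX, π, π', C.map ofX, C'.map ofX, ?_, ?_, ?_, ?_, ?_⟩
    · intro P hP
      obtain ⟨Q, hQ, rfl⟩ := Multiset.mem_map.1 hP
      exact fun i => (hS Q hQ i).1
    · intro σ
      conv_rhs => rw [← hG σ]
      rw [Multiset.map_map, Multiset.map_map]
      exact Multiset.map_congr rfl fun P _ => rfl
    · rw [Multiset.rel_map]
      exact Multiset.Rel.mono h1 fun P hP p _ h => gf_spX (fun i => (hS P hP i).2) h
    · rw [Multiset.rel_map]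
      exact Multiset.Rel.mono h2 fun P hP p _ h => gf_spX (fun i => (hS P hP i).2) h
    · rw [gf_sub]
      exact congrArg₂ (· - ·) (gf_ms ofX C) (gf_ms ofX C')
  | zero => rw [Finsupp.mapDomain_zero]; exact AddSubgroup.zero_mem _
  | add x y _ _ hx hy => rw [Finsupp.mapDomain_add]; exact AddSubgroup.add_mem _ hx hy
  | neg x _ hx => rw [gf_neg]; exact AddSubgroup.neg_mem _ hx

private theorem gf_rd_sum {F1 F : Type} [Field F1] [Field F] {V : ValuationSubring F1} {ψ : V →+* F} {ι : Type} (T : Finset ι)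
    (x : ι → F1) (a : ι → F) (h : ∀ i ∈ T, Rd V ψ (x i) (a i)) : Rd V ψ (∑ i ∈ T, x i) (∑ i ∈ T, a i) := by
  classical
  induction T using Finset.induction_on with
  | empty => rw [Finset.sum_empty, Finset.sum_empty]; exact Rd.zero
  | insert i T hi ih =>
    rw [Finset.sum_insert hi, Finset.sum_insert hi]
    exact (h i (Finset.mem_insert_self _ _)).add (ih fun j hj => h j (Finset.mem_insert_of_mem hj))

private theorem gf_rd_prod {F1 F : Type} [Field F1] [Field F] {V : ValuationSubring F1} {ψ : V →+* F} {ι : Type} (T : Finset ι)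
    (x : ι → F1) (a : ι → F) (h : ∀ i ∈ T, Rd V ψ (x i) (a i)) : Rd V ψ (∏ i ∈ T, x i) (∏ i ∈ T, a i) := by
  classical
  induction T using Finset.induction_on with
  | empty => rw [Finset.prod_empty, Finset.prod_empty]; exact Rd.one
  | insert i T hi ih =>
    rw [Finset.prod_insert hi, Finset.prod_insert hi]
    exact (h i (Finset.mem_insert_self _ _)).mul (ih fun j hj => h j (Finset.mem_insert_of_mem hj))

private theorem gf_ev {F : Type} [Field F] [Algebra K F] (f : MvPolynomial (Fin s) K) (β : Fin s → F)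
    (T : Finset (Fin s →₀ ℕ)) (hT : f.support ⊆ T) :
    ES.ev f β = ∑ d ∈ T, algebraMap K F (MvPolynomial.coeff d f) * ∏ i, β i ^ d i := by
  unfold ES.ev
  rw [MvPolynomial.aeval_def, MvPolynomial.eval₂_eq']
  refine Finset.sum_subset hT fun d _ hd => ?_
  rw [MvPolynomial.notMem_support_iff.1 hd, map_zero, zero_mul]

private theorem gf_rd_ev {F1 F : Type} [Field F1] [Field F] [Algebra K1 F1] [Algebra K F] {V : ValuationSubring F1}
    {ψ : V →+* F} (hco : ∀ a a', Rd V0 φ0 a a' → Rd V ψ (algebraMap K1 F1 a) (algebraMap K F a'))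
    {f1 : MvPolynomial (Fin s) K1} {f : MvPolynomial (Fin s) K}
    (h : ∀ m, Rd V0 φ0 (MvPolynomial.coeff m f1) (MvPolynomial.coeff m f)) {β1 : Fin s → F1} {β : Fin s → F}
    (hβ : ∀ i, Rd V ψ (β1 i) (β i)) : Rd V ψ (ES.ev f1 β1) (ES.ev f β) := by
  classical
  rw [gf_ev f1 β1 (f1.support ∪ f.support) Finset.subset_union_left,
    gf_ev f β (f1.support ∪ f.support) Finset.subset_union_right]
  refine gf_rd_sum _ _ _ fun d _ => (hco _ _ (h d)).mul (gf_rd_prod _ _ _ fun i _ => (hβ i).pow _)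

/-- the specialisation of a point of `W1` is on `W` -/
private theorem gf_onW {F1 F : Type} [Field F1] [Field F] [Algebra K1 F1] [Algebra K F] {V : ValuationSubring F1}
    {ψ : V →+* F} (hco : ∀ a a', Rd V0 φ0 a a' → Rd V ψ (algebraMap K1 F1 a) (algebraMap K F a'))
    {W1 : ES.Wm K1 s} {W : ES.Wm K s} (h1 : W1.Ok) (hr : RdW V0 φ0 W1 W)
    {P : ES.Pt s F1} {p : ES.Pt s F} (hP : ES.OnW W1 P) (hp : p.NZ) {d : F1}
    (h0' : ∀ i, Rd V ψ (d ^ W.v i * P.β i) (p.β i)) (h2' : Rd V ψ (d ^ (2 * W.n) * P.x) p.x)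
    (h3' : Rd V ψ (d ^ (3 * W.n) * P.y) p.y) : ES.OnW W p := by
  have h0 : ∀ i, Rd V ψ (d ^ W1.v i * P.β i) (p.β i) := fun i => by
    rw [hr.v]
    exact h0' i
  have h2 : Rd V ψ (d ^ (2 * W1.n) * P.x) p.x := by
    rw [hr.n]
    exact h2'
  have h3 : Rd V ψ (d ^ (3 * W1.n) * P.y) p.y := by
    rw [hr.n]
    exact h3'
  refine ⟨hp, ?_, ?_⟩
  · intro f hf
    obtain ⟨f1, hf1, hff⟩ := hr.I f hf
    obtain ⟨m, hm, hh⟩ := h1.I f1 hf1
    have h4 := gf_rd_ev hco hff h0
    rw [ES.ev_scale hh, hP.2.1 f1 hf1, mul_zero] at h4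
    exact h4.unique Rd.zero
  · have ha' := gf_rd_ev hco hr.a h0
    have hb' := gf_rd_ev hco hr.b h0
    rw [ES.ev_scale h1.a] at ha'
    rw [ES.ev_scale h1.b] at hb'
    have h33 : Rd V ψ (3 : F1) 3 := Rd.three
    have h22 : Rd V ψ (2 : F1) 2 := Rd.two
    have h4 := ((h2.pow 3).sub ((h33.mul ha').mul h2)).sub (h22.mul hb')
    have h5 := h3.pow 2
    have h6 : (d ^ (3 * W1.n) * P.y) ^ 2 = (d ^ (2 * W1.n) * P.x) ^ 3 -
        3 * (d ^ (4 * W1.n) * ES.ev W1.a P.β) * (d ^ (2 * W1.n) * P.x) -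
        2 * (d ^ (6 * W1.n) * ES.ev W1.b P.β) := by
      linear_combination d ^ (6 * W1.n) * hP.2.2
    rw [h6] at h5
    exact h5.unique h4

private theorem gf_mem_pow {F1 : Type} [Field F1] {V : ValuationSubring F1} {z : F1} {m : ℕ} (hm : 0 < m) (h : z ^ m ∈ V) : z ∈ V := by
  by_cases h0 : z = 0
  · rw [h0]; exact V.zero_mem
  rcases V.mem_or_inv_mem z with h1 | h1
  · exact h1
  · obtain ⟨l, rfl⟩ : ∃ l, m = l + 1 := ⟨m - 1, by omega⟩
    have h2 : z = z ^ (l + 1) * z⁻¹ ^ l := by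
      rw [pow_succ, inv_pow]
      field_simp
    rw [h2]
    exact V.mul_mem _ _ h (pow_mem h1 l)

/-- two reductions of proportional vectors are proportional -/
private theorem gf_base {F1 F : Type} [Field F1] [Field F] {V : ValuationSubring F1} {ψ : V →+* F} [IsLocalHom ψ]
    {v : Fin s → ℕ} (hv : ∀ i, 0 < v i) {β : Fin s → F1} {β0 β1 : Fin s → F} {g : F1}
    (h0 : ∀ i, Rd V ψ (β i) (β0 i)) (hne : β0 ≠ 0) (h1 : ∀ i, Rd V ψ (g ^ v i * β i) (β1 i)) :
    ∃ e : F, ∀ i, β1 i = e ^ v i * β0 i := by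
  obtain ⟨i0, hi0⟩ : ∃ i, β0 i ≠ 0 := by
    by_contra hc
    push Not at hc
    exact hne (funext hc)
  have hgm : g ∈ V := by
    refine gf_mem_pow (hv i0) ?_
    have h2 := (h1 i0).mul ((h0 i0).inv hi0)
    rw [mul_assoc, mul_inv_cancel₀ ((h0 i0).ne_zero hi0), mul_one] at h2
    exact h2.mem
  exact ⟨ψ ⟨g, hgm⟩, fun i => (h1 i).unique (((Rd.of_mem hgm).pow _).mul (h0 i))⟩

private theorem gf_on {F1 F : Type} [Field F1] [Field F] [Algebra K1 F1] [Algebra K F] {V : ValuationSubring F1}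
    {ψ : V →+* F} [IsLocalHom ψ] (hco : ∀ a a', Rd V0 φ0 a a' → Rd V ψ (algebraMap K1 F1 a) (algebraMap K F a'))
    {X1 : XD K1 s c} {X : XD K s c} (h1 : X1.Ok) (hr : RdX V0 φ0 X1 X)
    {P : Vc (fun _ : Fin k × Option (Fin c) => Fin s ⊕ Fin 2) F1} {p : Vc (fun _ : Fin k × Option (Fin c) => Fin s ⊕ Fin 2) F}
    (hP : OnXV X1 P) (hp : Spc (wX (k := k) X.v X.n) V ψ P p) : OnXV X p := by
  have hv : ∀ i, 0 < X.v i := fun i => by
    rw [← hr.v]
    exact h1.v i
  have hz0 : ∀ i, p (i, none) (.inr 0) = 0 := fun i => gf_zero hp i 0 (hP i).2.1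
  have hz1 : ∀ i, p (i, none) (.inr 1) = 0 := fun i => gf_zero hp i 1 (hP i).2.2
  have hpz : toX (ofX p) = p := gf_to_of fun i => ⟨hz0 i, hz1 i⟩
  intro i
  refine ⟨?_, hz0 i, hz1 i⟩
  have hPi := (hP i).1
  obtain ⟨hne, e, he, hrd⟩ := hp (i, none)
  have hβne : (ofX p i).β ≠ 0 := (gf_ne0 (ofX p) i).1 (by rw [hpz]; exact hne)
  have h0 : ∀ l, Rd V ψ (e ^ X.v l * (ofX P i).β l) ((ofX p i).β l) := fun l => hrd (.inl l)
  have h0' : ∀ l, Rd V ψ (e ^ X1.v l * (ofX P i).β l) ((ofX p i).β l) := fun l => by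
    rw [hr.v]
    exact h0 l
  refine ⟨hβne, ?_, fun j => ?_, fun j => ?_⟩
  · intro f hf
    obtain ⟨f1, hf1, hff⟩ := hr.I f hf
    obtain ⟨m, hm, hh⟩ := h1.I f1 hf1
    have h4 := gf_rd_ev hco hff h0'
    rw [ES.ev_scale hh, hPi.I f1 hf1, mul_zero] at h4
    exact h4.unique Rd.zero
  · obtain ⟨hnej, d, hd, hrdj⟩ := hp (i, some j)
    have hrW : RdW V0 φ0 (X1.W j) (X.W j) := ⟨hr.v, congrFun hr.n j, hr.I, hr.a j, hr.b j⟩
    exact gf_onW hco (h1.W j) hrW (hPi.on j) ((gf_ne1 p i j).1 hnej) (fun l => hrdj (.inl l)) (hrdj (.inr 0)) (hrdj (.inr 1))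
  · obtain ⟨hnej, f, hf, hrdj⟩ := hp (i, some j)
    have h2 : ∀ l, Rd V ψ (f ^ X.v l * ((ofX P i).P j).β l) (((ofX p i).P j).β l) := fun l => hrdj (.inl l)
    rcases hPi.ov j with h3 | ⟨d, hd, h3⟩
    · left
      funext l
      have h4 := h2 l
      rw [h3, Pi.zero_apply, mul_zero] at h4
      exact h4.unique Rd.zero
    · obtain ⟨g, hg⟩ := gf_base hv (g := f * d / e) h0 hβne (β1 := ((ofX p i).P j).β) (fun l => by
        have h4 := h2 l
        have h5 : f ^ X.v l * ((ofX P i).P j).β l = (f * d / e) ^ X.v l * (e ^ X.v l * (ofX P i).β l) := by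
          rw [h3]
          show f ^ X.v l * (d ^ X1.v l * (ofX P i).β l) = _
          rw [hr.v, ← mul_assoc, ← mul_assoc, ← mul_pow, ← mul_pow, div_mul_cancel₀ _ he]
        rw [h5] at h4
        exact h4)
      by_cases hg0 : g = 0
      · left
        funext l
        rw [hg l, hg0, zero_pow (hv l).ne', zero_mul]
        rfl
      · exact Or.inr ⟨g, hg0, funext hg⟩

private theorem gf_cst {X : XD K s c} {p : Vc (fun _ : Fin k × Option (Fin c) => Fin s ⊕ Fin 2) K} (h : OnXV X p) :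
    OnXV X (mp (algebraMap K (Om K)) p) := by
  intro i
  refine ⟨OnX_cst (h i).1, ?_, ?_⟩
  · change algebraMap K (Om K) (p (i, none) (.inr 0)) = 0
    rw [(h i).2.1, map_zero]
  · change algebraMap K (Om K) (p (i, none) (.inr 1)) = 0
    rw [(h i).2.2, map_zero]

private theorem gf_sp {X : XD K s c} (hX : X.Ok) {π : Place K (Om K)}
    {P : Vc (fun _ : Fin k × Option (Fin c) => Fin s ⊕ Fin 2) (Om K)} {p : Vc (fun _ : Fin k × Option (Fin c) => Fin s ⊕ Fin 2) K}
    (hP : OnXV X P) (h : Spc (wX (k := k) X.v X.n) π.V π.φ P p) : OnXV X p := by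
  have h1 := gf_spX (fun i => (hP i).2) h
  exact fun i => ⟨SpR_onX hX (hP i).1 (h1 i), gf_zero h i 0 (hP i).2.1, gf_zero h i 1 (hP i).2.2⟩

private theorem gf_nz {F : Type} [Field F] [Algebra K F] {X : XD K s c} {P : Vc (fun _ : Fin k × Option (Fin c) => Fin s ⊕ Fin 2) F}
    (h : OnXV X P) : NZ P := by
  rintro ⟨i, j⟩
  rcases j with _ | j
  · have h1 := (gf_ne0 (ofX P) i).2 (h i).1.ne
    rwa [gf_to_of fun i => (h i).2] at h1
  · exact (gf_ne1 P i j).2 ((h i).1.on j).1

theorem clo_fx [IsAlgClosed K] [IsLocalHom φ0] {X1 : XD K1 s c} {X : XD K s c} (h1 : X1.Ok) (h : X.Ok) (hr : RdX V0 φ0 X1 X) :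
    Clo (wX (k := k) X.v X.n) V0 φ0 (OnXV X1) (OnXV X) := by
  refine ⟨fun P hP => gf_nz hP, ?_, ?_, ?_, ?_⟩
  · intro E P p hP hp
    have := E.loc
    refine gf_on (fun a a' ha => ?_) h1 hr hP hp
    obtain ⟨hm, rfl⟩ := ha
    exact E.ext ⟨a, hm⟩
  · intro π P p hP hp
    exact gf_cst (gf_sp h hP hp)
  · rintro P P' hP ⟨e, he, rfl⟩ i
    have hPi := (hP i).1
    refine ⟨⟨?_, ?_, fun j => ES.OnW_smul (h.W j) (hPi.on j) (he (i, some j)), fun j => ?_⟩, ?_, ?_⟩
    · intro h0
      apply hPi.ne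
      funext l
      exact (mul_eq_zero.1 (congrFun h0 l : e (i, none) ^ X.v l * (ofX P i).β l = 0)).resolve_left (pow_ne_zero _ (he _))
    · intro f hf
      obtain ⟨m, hm, hh⟩ := h.I f hf
      change ES.ev f (fun l => e (i, none) ^ X.v l * (ofX P i).β l) = 0
      rw [ES.ev_scale hh, hPi.I f hf, mul_zero]
    · rcases hPi.ov j with h3 | ⟨d, hd, h3⟩
      · left
        funext l
        change e (i, some j) ^ X.v l * ((ofX P i).P j).β l = 0
        rw [h3, Pi.zero_apply, mul_zero]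
      · right
        refine ⟨e (i, some j) * d / e (i, none), div_ne_zero (mul_ne_zero (he _) hd) (he _), ?_⟩
        funext l
        change e (i, some j) ^ X.v l * ((ofX P i).P j).β l =
          (e (i, some j) * d / e (i, none)) ^ X.v l * (e (i, none) ^ X.v l * (ofX P i).β l)
        rw [h3]
        change e (i, some j) ^ X.v l * (d ^ X.v l * (ofX P i).β l) = _
        rw [← mul_assoc, ← mul_assoc, ← mul_pow, ← mul_pow, div_mul_cancel₀ _ (he _)]
    · change e (i, none) ^ 1 * P (i, none) (.inr 0) = 0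
      rw [(hP i).2.1, mul_zero]
    · change e (i, none) ^ 1 * P (i, none) (.inr 1) = 0
      rw [(hP i).2.2, mul_zero]
  · intro π P p q hP hp hq
    have hp1 : OnXV X1 p := gf_sp h1 hP (by rw [hr.v, hr.n]; exact hp)
    exact gf_cst (gf_on (F1 := K1) (F := K) (V := V0) (ψ := φ0) (fun a a' ha => ha) h1 hr hp1 hq)

theorem fx_spz [IsAlgClosed K1] [IsAlgClosed K] [CharZero K1] [IsLocalHom φ0] {X1 : XD K1 s c} {X : XD K s c} (h1 : X1.Ok)
    (h : X.Ok) (hr : RdX V0 φ0 X1 X) :
    ∃ N : ℕ, 0 < N ∧ ∀ (ι : Type) (T : Finset ι) (n : ι → ℤ) (P : ι → Fin k → Row s c K1) (p : ι → Fin k → Row s c K),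
      (∀ i ∈ T, ∀ j, OnX X (p i j) ∧ RdR V0 φ0 (P i j) (p i j)) → ∑ i ∈ T, n i • ptX (P i) ∈ RatX k X1 →
      N • ∑ i ∈ T, n i • ptX (p i) ∈ RatX k X := by
  classical
  have hw : ∀ (b : Fin k × Option (Fin c)) (l : Fin s ⊕ Fin 2), 0 < wX (k := k) X.v X.n b l := by
    rintro ⟨i, j⟩ l
    rcases j with _ | j
    · rcases l with l | l
      · exact h.v l
      · fin_cases l
        · exact one_pos
        · exact one_pos
    · have hn := h.n j
      rcases l with l | l
      · exact h.v l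
      · fin_cases l
        · change 0 < 2 * X.n j
          omega
        · change 0 < 3 * X.n j
          omega
  obtain ⟨N, hN⟩ := orb_exists hw
  refine ⟨N, hN.1, ?_⟩
  intro ι T n P p hPp hz
  have hC := clo_fx (k := k) h1 h hr
  let sp : Vc (fun _ : Fin k × Option (Fin c) => Fin s ⊕ Fin 2) K1 → Vc (fun _ : Fin k × Option (Fin c) => Fin s ⊕ Fin 2) K := fun Q =>
    if hQ : ∃ q : Vc (fun _ : Fin k × Option (Fin c) => Fin s ⊕ Fin 2) K, NZ q ∧ ∀ j i, Rd V0 φ0 (Q j i) (q j i) then hQ.choose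
    else if hQ : ∃ q, Spc (wX (k := k) X.v X.n) V0 φ0 Q q then hQ.choose else 0
  have hsp : ∀ Q, NZ Q → Spc (wX (k := k) X.v X.n) V0 φ0 Q (sp Q) := by
    intro Q hQ
    by_cases h2 : ∃ q : Vc (fun _ : Fin k × Option (Fin c) => Fin s ⊕ Fin 2) K, NZ q ∧ ∀ j i, Rd V0 φ0 (Q j i) (q j i)
    · have e : sp Q = h2.choose := dif_pos h2
      rw [e]
      exact Spc.of_rd h2.choose_spec.1 h2.choose_spec.2
    · have h3 : ∃ q, Spc (wX (k := k) X.v X.n) V0 φ0 Q q := spc_exists hw V0 φ0 hQ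
      have e : sp Q = h3.choose := (dif_neg h2).trans (dif_pos h3)
      rw [e]
      exact h3.choose_spec
  have hspP : ∀ i ∈ T, sp (toX (P i)) = toX (p i) := by
    intro i hi
    have hrd : ∀ b x, Rd V0 φ0 (toX (P i) b x) (toX (p i) b x) := by
      rintro ⟨i', j⟩ x
      obtain ⟨-, h2, h3⟩ := hPp i hi i'
      rcases j with _ | j
      · rcases x with x | x
        · exact h2 x
        · fin_cases x
          · exact Rd.zero
          · exact Rd.zero
      · rcases x with x | x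
        · exact (h3 j).1 x
        · fin_cases x
          · exact (h3 j).2.1
          · exact (h3 j).2.2
    have hnz : NZ (toX (p i)) := gf_nz (X := X) fun i' => ⟨(hPp i hi i').1, rfl, rfl⟩
    have h2 : ∃ q : Vc (fun _ : Fin k × Option (Fin c) => Fin s ⊕ Fin 2) K, NZ q ∧ ∀ b x, Rd V0 φ0 (toX (P i) b x) (q b x) :=
      ⟨toX (p i), hnz, hrd⟩
    have e : sp (toX (P i)) = h2.choose := dif_pos h2
    rw [e]
    funext b x
    exact (h2.choose_spec.2 b x).unique (hrd b x)
  have hz2 := to_rat hz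
  rw [hr.v, hr.n] at hz2
  have h5 := of_rat (spz hw hN hC hsp hz2)
  have e1 : Finsupp.mapDomain toX (∑ i ∈ T, n i • ptX (P i)) =
      ∑ i ∈ T, n i • (Finsupp.single (toX (P i)) 1 : Cy (fun _ : Fin k × Option (Fin c) => Fin s ⊕ Fin 2) K1) :=
    gf_hom toX T n P
  have e2 : Finsupp.mapDomain sp (∑ i ∈ T, n i • (Finsupp.single (toX (P i)) 1 : Cy (fun _ : Fin k × Option (Fin c) => Fin s ⊕ Fin 2) K1)) =
      ∑ i ∈ T, n i • (Finsupp.single (toX (p i)) 1 : Cy (fun _ : Fin k × Option (Fin c) => Fin s ⊕ Fin 2) K) := by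
    rw [gf_hom]
    exact Finset.sum_congr rfl fun i hi => by rw [hspP i hi]
  rw [gf_nsmul, e1, e2, gf_hom] at h5
  exact h5

end SZ
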