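import Pool.Agent.H71.SZ.Def

/-! # SZ.Spc : specialisation of coordinate vectors (about 180 lines)

`spc_exists`: block `j`: `M := ∏ i, w j i`; `i0` with `P j i0 ≠ 0` and `V.valuation (P j i ^ (M / w j i))` maximal at `i0`; `c ^ w j i0 = (P j i0)⁻¹` (`IsAlgClosed.exists_pow_nat_eq`); then
`(c ^ w j i * P j i) ^ (M / w j i) = (P j i0 ^ (M / w j i0))⁻¹ * P j i ^ (M / w j i)` has valuation `≤ 1`, so `c ^ w j i * P j i ∈ V` (valuation rings are integrally closed: `x ^ n ∈ V → x ∈ V` for `0 < n`); at `i0` the value is `1`.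
`spc_uniq`: block `j`: `c`, `c'` the two scalars, `p j i ≠ 0`: `(c' / c) ^ w j i * (c ^ w j i * P j i) = c' ^ w j i * P j i ∈ V` and `c ^ w j i * P j i` is a unit of `V` (`φ` local), so `c' / c ∈ V`; by symmetry
`c / c' ∈ V`, so `u := φ (c' / c) ≠ 0` and `q j i' = u ^ w j i' * p j i'` for all `i'` (`Rd.unique`).
`scl_mem`: the constant multiset `{mp (algebraMap K (Om K)) P}` specialises at any place to `{P}` and to `{P'}`. -/

namespace SZ

open H68.BB Polynomial

variable {J : Type} {I : J → Type} {w : ∀ j, I j → ℕ}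

theorem Spc.nz {F L : Type} [Field F] [Field L] {V : ValuationSubring F} {φ : V →+* L} {P : Vc I F} {p : Vc I L}
    (h : Spc w V φ P p) : NZ p := fun j => (h j).1

theorem Prp.refl {F : Type} [Field F] (P : Vc I F) : Prp w P P := by
  refine ⟨fun _ => 1, fun _ => one_ne_zero, ?_⟩
  funext j i
  simp only [scl, one_pow, one_mul]

theorem Prp.symm {F : Type} [Field F] {P P' : Vc I F} (h : Prp w P P') : Prp w P' P := by
  obtain ⟨c, hc, rfl⟩ := h
  refine ⟨fun j => (c j)⁻¹, fun j => inv_ne_zero (hc j), ?_⟩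
  funext j i
  simp only [scl]
  rw [← mul_assoc, ← mul_pow, inv_mul_cancel₀ (hc j), one_pow, one_mul]

theorem Prp.trans {F : Type} [Field F] {P P' P'' : Vc I F} (h : Prp w P P') (h' : Prp w P' P'') : Prp w P P'' := by
  obtain ⟨c, hc, rfl⟩ := h
  obtain ⟨d, hd, rfl⟩ := h'
  refine ⟨fun j => c j * d j, fun j => mul_ne_zero (hc j) (hd j), ?_⟩
  funext j i
  simp only [scl]
  rw [← mul_assoc, ← mul_pow]

theorem Prp.nz {F : Type} [Field F] {P P' : Vc I F} (h : Prp w P P') (h' : NZ P') : NZ P := by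
  obtain ⟨c, hc, rfl⟩ := h
  intro j hj
  apply h' j
  funext i
  have h1 : c j ^ w j i * P' j i = 0 := congrFun hj i
  exact (mul_eq_zero.1 h1).resolve_left (pow_ne_zero _ (hc j))

/-- an integral vector with nonzero reduction -/
theorem Spc.of_rd {F L : Type} [Field F] [Field L] {V : ValuationSubring F} {φ : V →+* L} {P : Vc I F} {p : Vc I L}
    (hp : NZ p) (h : ∀ j i, Rd V φ (P j i) (p j i)) : Spc w V φ P p := by
  intro j
  refine ⟨hp j, 1, one_ne_zero, fun i => ?_⟩
  rw [one_pow, one_mul]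
  exact h j i

theorem Spc.prp {F L : Type} [Field F] [Field L] {V : ValuationSubring F} {φ : V →+* L} {P P' : Vc I F} {p : Vc I L}
    (h : Spc w V φ P p) (h' : Prp w P' P) : Spc w V φ P' p := by
  obtain ⟨d, hd, rfl⟩ := h'
  intro j
  obtain ⟨h1, c, hc, h2⟩ := h j
  refine ⟨h1, c * (d j)⁻¹, mul_ne_zero hc (inv_ne_zero (hd j)), fun i => ?_⟩
  have h3 : (c * (d j)⁻¹) ^ w j i * scl w d P j i = c ^ w j i * P j i := by
    simp only [scl]
    rw [← mul_assoc, ← mul_pow, inv_mul_cancel_right₀ (hd j)]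
  rw [h3]
  exact h2 i

theorem spc_exists [∀ j, Fintype (I j)] (hw : ∀ j i, 0 < w j i) {F L : Type} [Field F] [IsAlgClosed F] [Field L]
    (V : ValuationSubring F) (φ : V →+* L) {P : Vc I F} (hP : NZ P) : ∃ p : Vc I L, Spc w V φ P p := by
  classical
  have key : ∀ j, ∃ q : I j → L, q ≠ 0 ∧ ∃ c : F, c ≠ 0 ∧ ∀ i, Rd V φ (c ^ w j i * P j i) (q i) := by
    intro j
    obtain ⟨i1, hi1⟩ : ∃ i, P j i ≠ 0 := by
      by_contra hcon
      push Not at hcon
      exact hP j (funext hcon)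
    obtain ⟨M, hM⟩ : ∃ M : ℕ, M = ∏ i, w j i := ⟨_, rfl⟩
    have hMpos : 0 < M := by rw [hM]; exact Finset.prod_pos fun i _ => hw j i
    have hdvd : ∀ i, w j i ∣ M := fun i => by rw [hM]; exact Finset.dvd_prod_of_mem _ (Finset.mem_univ i)
    have hmul : ∀ i, w j i * (M / w j i) = M := fun i => Nat.mul_div_cancel' (hdvd i)
    have hpos : ∀ i, M / w j i ≠ 0 := fun i h0 => by
      have := hmul i
      rw [h0, mul_zero] at this
      omega
    obtain ⟨i0, -, hmax⟩ := Finset.exists_max_image (Finset.univ : Finset (I j))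
      (fun i => V.valuation (P j i ^ (M / w j i))) ⟨i1, Finset.mem_univ i1⟩
    have hi0 : P j i0 ≠ 0 := by
      intro h0
      have h1 := hmax i1 (Finset.mem_univ i1)
      rw [h0, zero_pow (hpos i0), map_zero, le_zero_iff, map_eq_zero] at h1
      exact pow_ne_zero _ hi1 h1
    obtain ⟨c, hc⟩ := IsAlgClosed.exists_pow_nat_eq (P j i0)⁻¹ (hw j i0)
    have hc0 : c ≠ 0 := by
      rintro rfl
      rw [zero_pow (hw j i0).ne'] at hc
      exact inv_ne_zero hi0 hc.symm
    have hcM : c ^ M = (P j i0 ^ (M / w j i0))⁻¹ := by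
      rw [← hmul i0, pow_mul, hc, inv_pow, hmul i0]
    have hmem : ∀ i, c ^ w j i * P j i ∈ V := by
      intro i
      have h1 : V.valuation ((c ^ w j i * P j i) ^ (M / w j i)) ≤ 1 := by
        rw [mul_pow, ← pow_mul, hmul i, hcM, map_mul, map_inv₀]
        have h2 : V.valuation (P j i0 ^ (M / w j i0)) ≠ 0 := by
          rw [Ne, map_eq_zero]
          exact pow_ne_zero _ hi0
        calc (V.valuation (P j i0 ^ (M / w j i0)))⁻¹ * V.valuation (P j i ^ (M / w j i))
            ≤ (V.valuation (P j i0 ^ (M / w j i0)))⁻¹ * V.valuation (P j i0 ^ (M / w j i0)) :=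
              mul_le_mul_right (hmax i (Finset.mem_univ i)) _
          _ = 1 := inv_mul_cancel₀ h2
      rw [map_pow] at h1
      rw [← ValuationSubring.valuation_le_one_iff]
      exact (pow_le_one_iff (hpos i)).1 h1
    refine ⟨fun i => φ ⟨c ^ w j i * P j i, hmem i⟩, ?_, c, hc0, fun i => Rd.of_mem (hmem i)⟩
    intro h0
    have h1 : φ ⟨c ^ w j i0 * P j i0, hmem i0⟩ = 0 := congrFun h0 i0
    have h2 : (⟨c ^ w j i0 * P j i0, hmem i0⟩ : V) = 1 := by
      apply Subtype.ext
      change c ^ w j i0 * P j i0 = 1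
      rw [hc, inv_mul_cancel₀ hi0]
    rw [h2, map_one] at h1
    exact one_ne_zero h1
  choose q hq using key
  exact ⟨q, fun j => hq j⟩

theorem spc_uniq (hw : ∀ j i, 0 < w j i) {F L : Type} [Field F] [Field L] {V : ValuationSubring F} {φ : V →+* L} [IsLocalHom φ]
    {P : Vc I F} {p q : Vc I L} (h : Spc w V φ P p) (h' : Spc w V φ P q) : Prp w q p := by
  have hroot : ∀ (x : F) (n : ℕ), 0 < n → x ^ n ∈ V → x ∈ V := by
    intro x n hn hx
    rw [← ValuationSubring.valuation_le_one_iff, map_pow] at hx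
    rw [← ValuationSubring.valuation_le_one_iff]
    exact (pow_le_one_iff hn.ne').1 hx
  have hone : ∀ (j : J) (p q : I j → L) (c c' : F), p ≠ 0 → c ≠ 0 →
      (∀ i, Rd V φ (c ^ w j i * P j i) (p i)) → (∀ i, Rd V φ (c' ^ w j i * P j i) (q i)) → c' / c ∈ V := by
    intro j p q c c' hp hc h1 h2
    obtain ⟨i, hi⟩ : ∃ i, p i ≠ 0 := by
      by_contra hcon
      push Not at hcon
      exact hp (funext hcon)
    have h3 := (h2 i).mul ((h1 i).inv hi)
    have hx : c ^ w j i * P j i ≠ 0 := (h1 i).ne_zero hi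
    have hP : P j i ≠ 0 := right_ne_zero_of_mul hx
    have h4 : c' ^ w j i * P j i * (c ^ w j i * P j i)⁻¹ = (c' / c) ^ w j i := by
      have := pow_ne_zero (w j i) hc
      rw [div_pow]
      field_simp
    rw [h4] at h3
    exact hroot _ _ (hw j i) h3.mem
  have key : ∀ j, ∃ u : L, u ≠ 0 ∧ ∀ i, q j i = u ^ w j i * p j i := by
    intro j
    obtain ⟨hp, c, hc, h1⟩ := h j
    obtain ⟨hq, c', hc', h2⟩ := h' j
    have h3 : c' / c ∈ V := hone j _ _ c c' hp hc h1 h2
    have h4 : c / c' ∈ V := hone j _ _ c' c hq hc' h2 h1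
    have h5 : Rd V φ (c' / c) (φ ⟨c' / c, h3⟩) := Rd.of_mem h3
    have h6 : Rd V φ (c / c') (φ ⟨c / c', h4⟩) := Rd.of_mem h4
    have h7 := h5.mul h6
    have h8 : c' / c * (c / c') = 1 := by field_simp
    rw [h8] at h7
    have h9 : (1 : L) = _ := Rd.one.unique h7
    refine ⟨φ ⟨c' / c, h3⟩, ?_, fun i => ?_⟩
    · intro h0
      rw [h0, zero_mul] at h9
      exact one_ne_zero h9
    · have h10 := (h5.pow (w j i)).mul (h1 i)
      have h11 : (c' / c) ^ w j i * (c ^ w j i * P j i) = c' ^ w j i * P j i := by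
        rw [← mul_assoc, ← mul_pow, div_mul_cancel₀ _ hc]
      rw [h11] at h10
      exact (h2 i).unique h10
  choose u hu hq using key
  refine ⟨u, hu, ?_⟩
  funext j i
  exact hq j i

theorem rel_exists [∀ j, Fintype (I j)] (hw : ∀ j i, 0 < w j i) {F L : Type} [Field F] [IsAlgClosed F] [Field L]
    (V : ValuationSubring F) (φ : V →+* L) {S : Multiset (Vc I F)} (hS : ∀ P ∈ S, NZ P) :
    ∃ c : Multiset (Vc I L), Multiset.Rel (Spc w V φ) S c := by
  induction S using Multiset.induction_on with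
  | empty => exact ⟨0, Multiset.Rel.zero⟩
  | cons P S ih =>
    obtain ⟨c, hc⟩ := ih fun P' hP' => hS P' (Multiset.mem_cons_of_mem hP')
    obtain ⟨p, hp⟩ := spc_exists hw V φ (hS P (Multiset.mem_cons_self P S))
    exact ⟨p ::ₘ c, Multiset.Rel.cons hp hc⟩

variable {K : Type} [Field K] {On : Vc I (Om K) → Prop}

theorem scl_mem [IsAlgClosed K] {P P' : Vc I K} (hP : NZ P) (hon : On (mp (algebraMap K (Om K)) P)) (h : Prp w P' P) :
    (Finsupp.single P' 1 : Cy I K) - Finsupp.single P 1 ∈ RatG w On := by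
  obtain ⟨π, -⟩ := place_exists K 0
  have hcst : ∀ a : K, Rd π.V π.φ (algebraMap K (Om K) a) a := fun a => π.const a
  have h1 : Spc w π.V π.φ (mp (algebraMap K (Om K)) P) P := Spc.of_rd hP fun j i => hcst _
  have h2 : Spc w π.V π.φ (mp (algebraMap K (Om K)) P) P' := by
    obtain ⟨d, hd, rfl⟩ := h
    have hnz : NZ (scl w d P) := Prp.nz ⟨d, hd, rfl⟩ hP
    intro j
    refine ⟨hnz j, algebraMap K (Om K) (d j), ?_, fun i => ?_⟩
    · rw [Ne, map_eq_zero]
      exact hd j
    · exact ((hcst (d j)).pow (w j i)).mul (hcst (P j i))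
  refine AddSubgroup.subset_closure ⟨{mp (algebraMap K (Om K)) P}, π, π, {P'}, {P}, ?_, ?_, ?_, ?_, ?_⟩
  · intro Q hQ
    rw [Multiset.mem_singleton] at hQ
    rw [hQ]
    exact hon
  · intro σ
    rw [Multiset.map_singleton]
    congr 1
    funext j i
    change σ (algebraMap K (Om K) (P j i)) = algebraMap K (Om K) (P j i)
    rw [IsScalarTower.algebraMap_apply K (RatFunc K) (Om K)]
    exact σ.commutes _
  · exact Multiset.rel_cons_left.2 ⟨P', 0, h2, Multiset.rel_zero_left.2 rfl, rfl⟩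
  · exact Multiset.rel_cons_left.2 ⟨P, 0, h1, Multiset.rel_zero_left.2 rfl, rfl⟩
  · simp only [cy, Multiset.map_singleton, Multiset.sum_singleton]

theorem cy_mem [IsAlgClosed K] {c c' : Multiset (Vc I K)} (hc : ∀ P ∈ c, NZ P ∧ On (mp (algebraMap K (Om K)) P))
    (h : Multiset.Rel (Prp w) c' c) : cy c' - cy c ∈ RatG w On := by
  induction h with
  | zero => rw [sub_self]; exact AddSubgroup.zero_mem _
  | @cons a b as bs hab hrel ih =>
    have h1 := hc b (Multiset.mem_cons_self b bs)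
    have h2 : (Finsupp.single a 1 : Cy I K) - Finsupp.single b 1 ∈ RatG w On := scl_mem h1.1 h1.2 hab
    have h3 := ih fun P hP => hc P (Multiset.mem_cons_of_mem hP)
    have h4 : cy (a ::ₘ as) - cy (b ::ₘ bs) =
        ((Finsupp.single a 1 : Cy I K) - Finsupp.single b 1) + (cy as - cy bs) := by
      simp only [cy, Multiset.map_cons, Multiset.sum_cons]
      abel
    rw [h4]
    exact AddSubgroup.add_mem _ h2 h3

end SZ
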