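import Pool.Agent.H71.SZ.Chow

/-! # SZ.Uniq : the Chow form determines the points (about 120 lines)

Induction on `S` (`Multiset.induction_on` generalising `S'`, `u`).  `lin R P` is nonzero of total degree one, so it is prime in `MvPolynomial R.B F`
(`MvPolynomial.irreducible_of_totalDegree_eq_one` or by degrees, unique factorisation); it divides `∏ lin R P'`, so it divides `lin R P'` for some `P' ∈ S'` (`Multiset.exists_mem_of_dvd..`,
`Prime.exists_mem_multiset_map_dvd`), the quotient is a constant `μ` (degrees), so `mon R P b = μ * mon R P' b`: `R.inj`.  Cancel, `S' = P' ::ₘ S''`.  If `S = 0`: `1 = C u * chow R S'`, so `chow R S'` is a unit and `S' = 0`. -/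

namespace SZ

open H68.BB Polynomial

variable {J : Type} {I : J → Type} {w : ∀ j, I j → ℕ} [Fintype J] [∀ j, Fintype (I j)] (R : Vr w)

private theorem uq_cons {F : Type} [Field F] (P : Vc I F) (S : Multiset (Vc I F)) :
    chow R (P ::ₘ S) = lin R P * chow R S := by
  unfold chow
  rw [Multiset.map_cons, Multiset.prod_cons]

private theorem uq_deg {F : Type} [Field F] {P : Vc I F} (h : NZ P) : (lin R P).totalDegree = 1 := by
  apply le_antisymm
  · unfold lin
    refine MvPolynomial.totalDegree_finsetSum_le fun b _ => ?_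
    refine (MvPolynomial.totalDegree_mul _ _).trans ?_
    rw [MvPolynomial.totalDegree_C, zero_add]
    exact (MvPolynomial.totalDegree_X _).le
  · by_contra hc
    have h0 : (lin R P).totalDegree = 0 := by omega
    rw [MvPolynomial.totalDegree_eq_zero_iff_eq_C] at h0
    obtain ⟨b, hb⟩ := R.nz F P h
    have h1 := coeff_lin R P b
    classical
    rw [h0, MvPolynomial.coeff_C, if_neg] at h1
    · exact hb h1.symm
    · intro h2
      have h3 := DFunLike.congr_fun h2 b
      rw [Finsupp.single_eq_same] at h3
      simp at h3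

private theorem uq_prime {F : Type} [Field F] {P : Vc I F} (h : NZ P) : Prime (lin R P) := by
  refine Irreducible.prime (MvPolynomial.irreducible_of_totalDegree_eq_one (uq_deg R h) fun x hx => ?_)
  obtain ⟨b, hb⟩ := R.nz F P h
  have h1 := hx (Finsupp.single b 1)
  rw [coeff_lin] at h1
  refine IsUnit.mk0 x ?_
  rintro rfl
  exact hb (zero_dvd_iff.1 h1)

theorem chow_uniq {F : Type} [Field F] [IsAlgClosed F] {S S' : Multiset (Vc I F)} (hS : ∀ P ∈ S, NZ P) (hS' : ∀ P ∈ S', NZ P)
    {u : F} (hu : u ≠ 0) (h : chow R S = MvPolynomial.C u * chow R S') : Multiset.Rel (Prp w) S S' := by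
  induction S using Multiset.induction_on generalizing S' u with
  | empty =>
    induction S' using Multiset.induction_on with
    | empty => exact Multiset.Rel.zero
    | cons P' S'' _ =>
      exfalso
      have h1 : lin R P' ∣ 1 := by
        have h2 : chow R (0 : Multiset (Vc I F)) = 1 := by simp [chow]
        rw [← h2, h, uq_cons]
        exact Dvd.dvd.mul_left (Dvd.intro _ rfl) _
      exact (uq_prime R (hS' P' (Multiset.mem_cons_self _ _))).not_dvd_one h1
  | cons P S ih =>
    have hP : NZ P := hS P (Multiset.mem_cons_self _ _)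
    have hp := uq_prime R hP
    rw [uq_cons] at h
    have hd : lin R P ∣ MvPolynomial.C u * chow R S' := by
      rw [← h]
      exact Dvd.intro _ rfl
    have hd2 : lin R P ∣ (S'.map (lin R)).prod := by
      rcases hp.dvd_or_dvd hd with h1 | h1
      · exfalso
        have h2 : IsUnit (MvPolynomial.C u : MvPolynomial R.B F) := (IsUnit.mk0 u hu).map MvPolynomial.C
        exact hp.not_isUnit (isUnit_of_dvd_unit h1 h2)
      · exact h1
    obtain ⟨P', hP'mem, hdP'⟩ := hp.exists_mem_multiset_map_dvd hd2
    have hP' : NZ P' := hS' P' hP'mem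
    obtain ⟨q, hq⟩ := hdP'
    have hq0 : q ≠ 0 := by
      rintro rfl
      rw [mul_zero] at hq
      exact lin_ne R hP' hq
    have hdeg : q.totalDegree = 0 := by
      have h1 := MvPolynomial.totalDegree_mul_of_isDomain hp.ne_zero hq0
      rw [← hq, uq_deg R hP', uq_deg R hP] at h1
      omega
    rw [MvPolynomial.totalDegree_eq_zero_iff_eq_C] at hdeg
    set μ : F := q.coeff 0 with hμ
    have hμ0 : μ ≠ 0 := by
      intro h1
      rw [h1, MvPolynomial.C_0] at hdeg
      exact hq0 hdeg
    have hprp : Prp w P P' := by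
      refine R.inj F P P' μ⁻¹ hP hP' (inv_ne_zero hμ0) fun b => ?_
      have h1 := congrArg (MvPolynomial.coeff (Finsupp.single b 1)) hq
      rw [coeff_lin, hdeg, mul_comm, MvPolynomial.coeff_C_mul, coeff_lin] at h1
      change mon R P b = μ⁻¹ * mon R P' b
      rw [h1, ← mul_assoc, inv_mul_cancel₀ hμ0, one_mul]
    obtain ⟨S'', rfl⟩ := Multiset.exists_cons_of_mem hP'mem
    rw [uq_cons, hq, hdeg] at h
    have hc : chow R S = MvPolynomial.C (u * μ) * chow R S'' := by
      refine mul_left_cancel₀ hp.ne_zero (h.trans ?_)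
      rw [MvPolynomial.C_mul]
      ring
    exact Multiset.Rel.cons hprp (ih (fun Q hQ => hS Q (Multiset.mem_cons_of_mem hQ))
      (fun Q hQ => hS' Q (Multiset.mem_cons_of_mem hQ)) (mul_ne_zero hu hμ0) hc)

end SZ
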